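import Pool.Agent.U409.GL.Tight

/-!
# The family in the form `y² = x³ + a d x² + b² d² x`
-/

set_option autoImplicit false

namespace Pool.Agent.U409.GL

open Finset Polynomial Filter Topology
open Pool.Agent.TH841.SH.D (ShaTor)
open Pool.Agent.U409.LS (WW Wc QF)

/-- the curve `y² = x³ + a d x² + b² d² x` -/
def Wab (a b d : ℤ) : WeierstrassCurve ℚ := ⟨0, (a : ℚ) * d, 0, (b : ℚ) ^ 2 * (d : ℚ) ^ 2, 0⟩

theorem card_ab {a b d : ℤ} (hb : b ≠ 0) (h1 : a + 2 * b ≠ 0) (h2 : a - 2 * b ≠ 0) (hd : d ≠ 0) :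
    ENat.card (ShaTor (Wab a b d) 2) = ENat.card (ShaTor (WW (a + 2 * b) (a - 2 * b) d) 2) := by
  have h : Pool.Agent.Y700.VR (WW (a + 2 * b) (a - 2 * b) d) (Wab a b d) (2 : ℚ) 0 0 0 := by
    refine ⟨by norm_num, ?_, ?_, ?_, ?_, ?_⟩ <;> simp only [WW, Wc, Wab] <;>
      push_cast <;> ring
  have hD : (Wab a b d).Δ ≠ 0 := by
    have e : (Wab a b d).Δ = 16 * ((b : ℚ) ^ 2 * d ^ 2) ^ 2 * (((a : ℚ) + 2 * b) * (a - 2 * b)) *
        d ^ 2 := by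
      simp only [Wab, WeierstrassCurve.Δ, WeierstrassCurve.b₂,
        WeierstrassCurve.b₄, WeierstrassCurve.b₆, WeierstrassCurve.b₈]
      ring
    have h1' : (a : ℚ) + 2 * b ≠ 0 := by exact_mod_cast h1
    have h2' : (a : ℚ) - 2 * b ≠ 0 := by exact_mod_cast h2
    have h3 : (d : ℚ) ≠ 0 := by exact_mod_cast hd
    have h4 : (b : ℚ) ≠ 0 := by exact_mod_cast hb
    rw [e]
    positivity
  rw [ENat.card_congr (Pool.Agent.U409.SH.torEquiv _),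
    ENat.card_congr (Pool.Agent.U409.SH.torEquiv _)]
  exact ENat.card_congr (Pool.Agent.U409.SH.subEquiv h hD)

variable {a b : ℤ}

lemma ne_ab (hsq : ¬ IsSquare (a ^ 2 - 4 * b ^ 2)) : a + 2 * b ≠ 0 ∧ a - 2 * b ≠ 0 := by
  constructor
  · intro h
    apply hsq
    have e : a ^ 2 - 4 * b ^ 2 = (a + 2 * b) * (a - 2 * b) := by ring
    rw [e, h, zero_mul]
    exact ⟨0, by norm_num⟩
  · intro h
    apply hsq
    have e : a ^ 2 - 4 * b ^ 2 = (a + 2 * b) * (a - 2 * b) := by ring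
    rw [e, h, mul_zero]
    exact ⟨0, by norm_num⟩

theorem fin_ab (hb : b ≠ 0) (hsq : ¬ IsSquare (a ^ 2 - 4 * b ^ 2)) {d : ℤ} (hd : d ≠ 0) :
    Finite (ShaTor (Wab a b d) 2) ∧
      Nat.card (ShaTor (Wab a b d) 2) = Nat.card (ShaTor (WW (a + 2 * b) (a - 2 * b) d) 2) := by
  obtain ⟨h1, h2⟩ := ne_ab hsq
  have h3 : a + 2 * b ≠ a - 2 * b := fun h => hb (by linarith)
  have hf := fin_sha h1 h2 h3 hd
  have hc := card_ab hb h1 h2 hd
  have hf' : Finite (ShaTor (Wab a b d) 2) := by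
    rw [← ENat.card_lt_top, hc]
    exact ENat.card_lt_top_of_finite
  rw [ENat.card_eq_coe_natCard, ENat.card_eq_coe_natCard] at hc
  exact ⟨hf', by exact_mod_cast hc⟩

lemma nsq_ab (hsq : ¬ IsSquare (a ^ 2 - 4 * b ^ 2)) :
    ∀ q : ℚ, q ^ 2 ≠ (((a + 2 * b) * (a - 2 * b) : ℤ) : ℚ) := by
  intro q hq
  apply hsq
  have e : a ^ 2 - 4 * b ^ 2 = (a + 2 * b) * (a - 2 * b) := by ring
  rw [e, ← Rat.isSquare_intCast_iff]
  exact ⟨q, by rw [← hq, pow_two]⟩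

open scoped Classical in
/-- **the Gaussian law** -/
theorem gauss_ab (hb : b ≠ 0) (hsq : ¬ IsSquare (a ^ 2 - 4 * b ^ 2)) {D : ℤ[X]} (hD : D ≠ 0)
    (S : Finset ℤ[X]) (hS0 : S.Nonempty)
    (hS : ∀ f ∈ S, Irreducible f ∧ 0 < f.natDegree ∧ Odd (multiplicity f D) ∧
      Irreducible (f.map (Int.castRingHom (QuadraticAlgebra ℚ ((a ^ 2 - 4 * b ^ 2 : ℤ) : ℚ) 0))))
    (hSn : ∀ f ∈ S, ∀ g ∈ S, f ≠ g → ¬ Associated f g)
    (hSc : ∀ f : ℤ[X], Irreducible f → 0 < f.natDegree → Odd (multiplicity f D) →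
      Irreducible (f.map (Int.castRingHom (QuadraticAlgebra ℚ ((a ^ 2 - 4 * b ^ 2 : ℤ) : ℚ) 0))) →
      ∃ g ∈ S, Associated f g) (x : ℝ) :
    Tendsto (fun X : ℕ => (((Icc (-(X : ℤ)) X).filter (fun t => D.eval t ≠ 0 ∧
      Real.logb 2 (Nat.card (ShaTor (Wab a b (D.eval t)) 2)) ≤
      (S.card : ℝ) / 2 * Real.log (Real.log X) +
        x * Real.sqrt ((S.card : ℝ) / 2 * Real.log (Real.log X)))).card : ℝ) / (2 * X + 1)) atTop
      (𝓝 ((Real.sqrt (2 * Real.pi))⁻¹ * ∫ y in Set.Iic x, Real.exp (-y ^ 2 / 2))) := by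
  obtain ⟨h1, h2⟩ := ne_ab hsq
  have h3 : a + 2 * b ≠ a - 2 * b := fun h => hb (by linarith)
  have e : a ^ 2 - 4 * b ^ 2 = (a + 2 * b) * (a - 2 * b) := by ring
  rw [e] at hS hSc
  have hκ : (0 : ℝ) < (S.card : ℝ) / 2 := by
    have := hS0.card_pos
    positivity
  rw [← phi_eq]
  have h4 := rm_zeros ((S.card : ℝ) / 2) x _ hκ D hD
      (fun t => Real.logb 2 (Nat.card (ShaTor (WW (a + 2 * b) (a - 2 * b) (D.eval t)) 2)))
      (gauss_sha h1 h2 h3 (nsq_ab hsq) hD S hS0 hS hSn hSc x)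
  refine h4.congr fun X => ?_
  congr 3
  apply filter_congr
  intro t _
  constructor
  · rintro ⟨h5, h6⟩
    exact ⟨h5, by rw [(fin_ab hb hsq h5).2]; exact h6⟩
  · rintro ⟨h5, h6⟩
    rw [(fin_ab hb hsq h5).2] at h6
    exact ⟨h5, h6⟩

open scoped Classical in
/-- **the bounded case** -/
theorem tight_ab (hb : b ≠ 0) (hsq : ¬ IsSquare (a ^ 2 - 4 * b ^ 2)) {D : ℤ[X]} (hD : D ≠ 0)
    (hSc : ∀ f : ℤ[X], Irreducible f → 0 < f.natDegree → Odd (multiplicity f D) →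
      ¬ Irreducible (f.map (Int.castRingHom (QuadraticAlgebra ℚ ((a ^ 2 - 4 * b ^ 2 : ℤ) : ℚ) 0))))
    {ε : ℝ} (hε : 0 < ε) :
    ∃ T : ℕ, ∀ᶠ X : ℕ in atTop, (((Icc (-(X : ℤ)) X).filter (fun t => D.eval t ≠ 0 ∧
      T < Nat.card (ShaTor (Wab a b (D.eval t)) 2))).card : ℝ) ≤ ε * (2 * X + 1) := by
  obtain ⟨h1, h2⟩ := ne_ab hsq
  have h3 : a + 2 * b ≠ a - 2 * b := fun h => hb (by linarith)
  have e : a ^ 2 - 4 * b ^ 2 = (a + 2 * b) * (a - 2 * b) := by ring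
  rw [e] at hSc
  obtain ⟨T, hT⟩ := tight_sha h1 h2 h3 (nsq_ab hsq) hD hSc hε
  refine ⟨T, ?_⟩
  filter_upwards [hT] with X hX
  refine le_trans (le_of_eq ?_) hX
  congr 2
  apply filter_congr
  intro t _
  constructor
  · rintro ⟨h5, h6⟩
    rw [(fin_ab hb hsq h5).2] at h6
    exact ⟨h5, h6⟩
  · rintro ⟨h5, h6⟩
    exact ⟨h5, by rw [(fin_ab hb hsq h5).2]; exact h6⟩

end Pool.Agent.U409.GL
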