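import Pool.Agent.U409.GL.Clt1

/-!
# The characteristic function of the number of prime divisors
-/

set_option autoImplicit false

namespace Pool.Agent.U409.GL

open Finset Polynomial Filter Topology
open Pool.Agent.H474R2.PG (rho count_class)
open Pool.Agent.U409.LS (om SS RR)

lemma norm_exp_I (a : ℝ) : ‖Complex.exp (Complex.I * a)‖ = 1 := by
  rw [mul_comm]
  exact Complex.norm_exp_ofReal_mul_I a

lemma norm_u_le (a : ℝ) : ‖Complex.exp (Complex.I * a) - 1‖ ≤ |a| := by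
  exact (Real.norm_exp_I_mul_ofReal_sub_one_le (x := a)).trans (Real.norm_eq_abs a).le

lemma re_u_le (a : ℝ) : (Complex.exp (Complex.I * a) - 1).re ≤ 0 := by
  rw [Complex.sub_re, Complex.one_re, sub_nonpos]
  exact (Complex.re_le_norm _).trans (norm_exp_I a).le

/-- the product and the exponential -/
theorem prod_exp {u : ℂ} (hu : ‖1 + u‖ ≤ 1) (hre : u.re ≤ 0) (hu1 : ‖u‖ ≤ 1) (P : Finset ℕ)
    (h : ℕ → ℝ) (h0 : ∀ p ∈ P, 0 ≤ h p) (h1 : ∀ p ∈ P, h p ≤ 1) :
    ‖∏ p ∈ P, (1 + u * (h p : ℂ)) - Complex.exp (u * ((∑ p ∈ P, h p : ℝ) : ℂ))‖ ≤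
      ‖u‖ ^ 2 * ∑ p ∈ P, h p ^ 2 := by
  classical
  induction P using Finset.induction_on with
  | empty => simp
  | insert a P ha ih =>
    have ih' := ih (fun p hp => h0 p (mem_insert_of_mem hp)) (fun p hp => h1 p (mem_insert_of_mem hp))
    have ha0 := h0 a (mem_insert_self a P)
    have ha1 := h1 a (mem_insert_self a P)
    rw [prod_insert ha, sum_insert ha, sum_insert ha]
    have e1 : Complex.exp (u * ((h a + ∑ p ∈ P, h p : ℝ) : ℂ)) =
        Complex.exp (u * (h a : ℂ)) * Complex.exp (u * ((∑ p ∈ P, h p : ℝ) : ℂ)) := by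
      rw [← Complex.exp_add]
      congr 1
      push_cast
      ring
    have e2 : (1 + u * (h a : ℂ)) * ∏ p ∈ P, (1 + u * (h p : ℂ)) -
        Complex.exp (u * (h a : ℂ)) * Complex.exp (u * ((∑ p ∈ P, h p : ℝ) : ℂ)) =
        (1 + u * (h a : ℂ)) * (∏ p ∈ P, (1 + u * (h p : ℂ)) -
          Complex.exp (u * ((∑ p ∈ P, h p : ℝ) : ℂ))) -
        (Complex.exp (u * (h a : ℂ)) - 1 - u * (h a : ℂ)) *
          Complex.exp (u * ((∑ p ∈ P, h p : ℝ) : ℂ)) := by ring
    rw [e1, e2]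
    refine (norm_sub_le _ _).trans ?_
    rw [norm_mul, norm_mul]
    have n1 : ‖1 + u * (h a : ℂ)‖ ≤ 1 := norm_conv hu ha0 ha1
    have n2 : ‖Complex.exp (u * ((∑ p ∈ P, h p : ℝ) : ℂ))‖ ≤ 1 := by
      rw [Complex.norm_exp, Real.exp_le_one_iff, Complex.re_mul_ofReal]
      exact mul_nonpos_of_nonpos_of_nonneg hre
        (sum_nonneg fun p hp => h0 p (mem_insert_of_mem hp))
    have n3 : ‖u * (h a : ℂ)‖ = ‖u‖ * h a := by
      rw [norm_mul, Complex.norm_real, Real.norm_of_nonneg ha0]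
    have n4 : ‖Complex.exp (u * (h a : ℂ)) - 1 - u * (h a : ℂ)‖ ≤ (‖u‖ * h a) ^ 2 := by
      rw [← n3]
      apply Complex.norm_exp_sub_one_sub_id_le
      rw [n3]
      exact mul_le_one₀ hu1 ha0 ha1
    calc _ ≤ 1 * (‖u‖ ^ 2 * ∑ p ∈ P, h p ^ 2) + (‖u‖ * h a) ^ 2 * 1 := by
          refine add_le_add (mul_le_mul n1 ih' (norm_nonneg _) zero_le_one)
            (mul_le_mul n4 n2 (norm_nonneg _) (by positivity))
      _ = _ := by ring

lemma exp_three (a : ℝ) (ha : |a| ≤ 1) :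
    ‖Complex.exp (Complex.I * a) - 1 - Complex.I * a + (a : ℂ) ^ 2 / 2‖ ≤ |a| ^ 3 := by
  have hn : ‖Complex.I * (a : ℂ)‖ = |a| := by
    rw [norm_mul, Complex.norm_I, one_mul, Complex.norm_real, Real.norm_eq_abs]
  have h := Complex.exp_bound (x := Complex.I * a) (by rw [hn]; exact ha) (n := 3) (by norm_num)
  rw [hn] at h
  have e : ∑ m ∈ range 3, (Complex.I * (a : ℂ)) ^ m / (m.factorial : ℂ) =
      1 + Complex.I * a - (a : ℂ) ^ 2 / 2 := by
    rw [sum_range_succ, sum_range_succ, sum_range_one]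
    have : (Complex.I * (a : ℂ)) ^ 2 = - (a : ℂ) ^ 2 := by
      rw [mul_pow, Complex.I_sq]
      ring
    rw [this]
    norm_num [Nat.factorial]
    ring
  rw [e] at h
  have e2 : Complex.exp (Complex.I * a) - (1 + Complex.I * a - (a : ℂ) ^ 2 / 2) =
      Complex.exp (Complex.I * a) - 1 - Complex.I * a + (a : ℂ) ^ 2 / 2 := by ring
  rw [e2] at h
  refine h.trans ?_
  have h2 : ((Nat.succ 3 : ℕ) : ℝ) * (((3 : ℕ).factorial : ℝ) * ((3 : ℕ) : ℝ))⁻¹ ≤ 1 := by
    norm_num [Nat.factorial]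
  calc |a| ^ 3 * _ ≤ |a| ^ 3 * 1 := mul_le_mul_of_nonneg_left h2 (by positivity)
    _ = _ := mul_one _

/-- **the limit of the characteristic functions** -/
theorem char_lim (f : ℤ[X]) (P : ℕ → Finset ℕ) (hP : ∀ X, ∀ p ∈ P X, p.Prime) (σ : ℕ → ℝ)
    (hσ : Tendsto σ atTop atTop)
    (hM : Tendsto (fun X => (SS f (P X) - σ X ^ 2) / σ X) atTop (𝓝 0))
    {C : ℝ} (hQ : ∀ X, ∑ p ∈ P X, ((rho f p : ℝ) / p) ^ 2 ≤ C)
    (J : ℕ → ℕ) (hJ : ∀ᶠ X in atTop, σ X ^ 2 ≤ J X)
    (hE : Tendsto (fun X : ℕ => (∑ j ∈ range (J X + 1), ej (P X) (fun p => (rho f p : ℝ)) j) /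
      (2 * X + 1 : ℝ)) atTop (𝓝 0)) (θ : ℝ) :
    Tendsto (fun X : ℕ => (∑ t ∈ Ioc (-(X : ℤ) - 1) X,
      Complex.exp (Complex.I * (θ * ((om f (P X) t - σ X ^ 2) / σ X) : ℝ))) / (2 * X + 1 : ℂ))
      atTop (𝓝 (Complex.exp (-(θ : ℂ) ^ 2 / 2))) := by
  have hC0 : 0 ≤ C := (sum_nonneg fun p _ => sq_nonneg _).trans (hQ 0)
  set α : ℕ → ℝ := fun X => θ / σ X with hα
  set u : ℕ → ℂ := fun X => Complex.exp (Complex.I * α X) - 1 with hu
  set M : ℕ → ℝ := fun X => SS f (P X) with hMd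
  have hα0 : Tendsto α atTop (𝓝 0) := by
    rw [hα]
    exact hσ.const_div_atTop θ
  have hα1 : ∀ᶠ X in atTop, |α X| ≤ 1 := by
    have h1 := hα0.abs
    rw [abs_zero] at h1
    exact h1.eventually_le_const (by norm_num)
  have hσ1 : ∀ᶠ X in atTop, 1 ≤ σ X := hσ.eventually_ge_atTop 1
  have hun : ∀ X, ‖u X‖ ≤ |α X| := fun X => norm_u_le (α X)
  have hu1 : ∀ X, ‖1 + u X‖ ≤ 1 := by
    intro X
    have : 1 + u X = Complex.exp (Complex.I * α X) := by
      rw [hu]
      ring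
    rw [this]
    exact (norm_exp_I _).le
  have hure : ∀ X, (u X).re ≤ 0 := fun X => re_u_le (α X)
  have hN : ∀ X : ℕ, ((((X : ℤ) : ℝ) - ((-(X : ℤ) - 1 : ℤ) : ℝ)) : ℝ) = 2 * X + 1 := by
    intro X
    push_cast
    ring
  -- the main term
  have main : Tendsto (fun X => Complex.exp (u X * (M X : ℂ) - Complex.I * (α X * σ X ^ 2 : ℝ)))
      atTop (𝓝 (Complex.exp (-(θ : ℂ) ^ 2 / 2))) := by
    refine (Complex.continuous_exp.tendsto _).comp ?_
    have e : ∀ᶠ X in atTop, ‖(u X * (M X : ℂ) - Complex.I * (α X * σ X ^ 2 : ℝ)) -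
        (-(θ : ℂ) ^ 2 / 2)‖ ≤ |θ| ^ 3 * (σ X)⁻¹ + |θ| * |(M X - σ X ^ 2) / σ X| := by
      filter_upwards [hα1, hσ1] with X h1 h2
      have hs0 : σ X ≠ 0 := by linarith
      have hs0' : (σ X : ℂ) ≠ 0 := by exact_mod_cast hs0
      have ea : (α X : ℂ) ^ 2 * (σ X : ℂ) ^ 2 = (θ : ℂ) ^ 2 := by
        rw [hα]
        push_cast
        field_simp
      have e1 : (u X * (M X : ℂ) - Complex.I * (α X * σ X ^ 2 : ℝ)) - (-(θ : ℂ) ^ 2 / 2) =
          (Complex.exp (Complex.I * α X) - 1 - Complex.I * α X + (α X : ℂ) ^ 2 / 2) *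
            (σ X : ℂ) ^ 2 + u X * ((M X - σ X ^ 2 : ℝ) : ℂ) := by
        rw [hu]
        push_cast
        linear_combination (-1 / 2) * ea
      rw [e1]
      refine (norm_add_le _ _).trans (add_le_add ?_ ?_)
      · rw [norm_mul, norm_pow, Complex.norm_real, Real.norm_eq_abs, sq_abs]
        have h3 := exp_three (α X) h1
        have h4 : |α X| ^ 3 * σ X ^ 2 = |θ| ^ 3 * (σ X)⁻¹ := by
          rw [hα]
          dsimp only
          rw [abs_div, abs_of_pos (by linarith : 0 < σ X)]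
          field_simp
        rw [← h4]
        exact mul_le_mul_of_nonneg_right h3 (sq_nonneg _)
      · rw [norm_mul, Complex.norm_real, Real.norm_eq_abs]
        have h3 : |θ| * |(M X - σ X ^ 2) / σ X| = |α X| * |M X - σ X ^ 2| := by
          rw [hα]
          dsimp only
          rw [abs_div, abs_div]
          ring
        rw [h3]
        exact mul_le_mul_of_nonneg_right (hun X) (abs_nonneg _)
    rw [tendsto_iff_norm_sub_tendsto_zero]
    refine squeeze_zero' (Eventually.of_forall fun _ => norm_nonneg _) e ?_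
    have h1 : Tendsto (fun X => |θ| ^ 3 * (σ X)⁻¹) atTop (𝓝 (|θ| ^ 3 * 0)) :=
      hσ.inv_tendsto_atTop.const_mul _
    have h2 : Tendsto (fun X => |θ| * |(M X - σ X ^ 2) / σ X|) atTop (𝓝 (|θ| * |0|)) :=
      hM.abs.const_mul _
    have h3 := h1.add h2
    simpa using h3
  -- the error terms
  have er1 : Tendsto (fun X => ‖u X‖ ^ 2 * C) atTop (𝓝 0) := by
    have h1 : Tendsto (fun X => |α X| ^ 2 * C) atTop (𝓝 0) := by
      have := ((hα0.abs).pow 2).mul_const C
      simpa using this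
    refine squeeze_zero (fun X => by positivity) (fun X => ?_) h1
    have := pow_le_pow_left₀ (norm_nonneg _) (hun X) 2
    exact mul_le_mul_of_nonneg_right this hC0
  have er2 : Tendsto (fun X => 2 * (‖u X‖ ^ J X * ej (P X) (fun p => (rho f p : ℝ) / p) (J X)))
      atTop (𝓝 0) := by
    have h1 : ∀ᶠ X in atTop, 2 * (‖u X‖ ^ J X * ej (P X) (fun p => (rho f p : ℝ) / p) (J X)) ≤
        2 * Real.exp (-σ X) := by
      have hM1 : ∀ᶠ X in atTop, (M X - σ X ^ 2) / σ X ≤ 1 := hM.eventually_le_const (by norm_num)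
      filter_upwards [hJ, hσ1, hM1, hσ.eventually_ge_atTop (6 * |θ| + 1)] with X h1 h2 h3 h4
      have hs0 : 0 < σ X := by linarith
      have hej0 : ∀ p ∈ P X, 0 ≤ (rho f p : ℝ) / p := fun p _ => by positivity
      have h5 := ej_le (P X) (fun p => (rho f p : ℝ) / p) hej0 (J X)
      have hM0 : 0 ≤ M X := sum_nonneg hej0
      have hfac : (0 : ℝ) < (J X).factorial := by exact_mod_cast Nat.factorial_pos _
      have h6 : ej (P X) (fun p => (rho f p : ℝ) / p) (J X) ≤ M X ^ J X / (J X).factorial := by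
        rw [le_div_iff₀ hfac]
        exact h5
      have h7 : M X ≤ 2 * σ X ^ 2 := by
        rw [div_le_one hs0] at h3
        nlinarith
      have h8 : ‖u X‖ * M X ≤ 2 * |θ| * σ X := by
        calc ‖u X‖ * M X ≤ |α X| * (2 * σ X ^ 2) :=
              mul_le_mul (hun X) h7 hM0 (abs_nonneg _)
          _ = _ := by
              rw [hα]
              dsimp only
              rw [abs_div, abs_of_pos hs0]
              field_simp
      have h9 : ‖u X‖ ^ J X * ej (P X) (fun p => (rho f p : ℝ) / p) (J X) ≤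
          (2 * |θ| * σ X) ^ J X / (J X).factorial := by
        calc _ ≤ ‖u X‖ ^ J X * (M X ^ J X / (J X).factorial) :=
              mul_le_mul_of_nonneg_left h6 (by positivity)
          _ = (‖u X‖ * M X) ^ J X / (J X).factorial := by rw [mul_pow]; ring
          _ ≤ _ := by
              apply div_le_div_of_nonneg_right _ hfac.le
              exact pow_le_pow_left₀ (mul_nonneg (norm_nonneg _) hM0) h8 _
      have h10 := Real.pow_div_factorial_le_exp (3 * (2 * |θ| * σ X)) (by positivity) (J X)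
      have h11 : (2 * |θ| * σ X) ^ J X / (J X).factorial ≤
          Real.exp (3 * (2 * |θ| * σ X)) * Real.exp (-(J X : ℝ)) := by
        have h12 : Real.exp (J X : ℝ) ≤ 3 ^ J X := by
          rw [← Real.exp_one_pow]
          apply pow_le_pow_left₀ (Real.exp_pos _).le
          exact Real.exp_one_lt_d9.le.trans (by norm_num)
        rw [Real.exp_neg, ← div_eq_mul_inv, le_div_iff₀ (Real.exp_pos _)]
        refine le_trans ?_ h10
        rw [mul_pow 3]
        calc (2 * |θ| * σ X) ^ J X / (J X).factorial * Real.exp (J X) ≤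
            (2 * |θ| * σ X) ^ J X / (J X).factorial * 3 ^ J X :=
              mul_le_mul_of_nonneg_left h12 (by positivity)
          _ = _ := by ring
      have h13 : Real.exp (3 * (2 * |θ| * σ X)) * Real.exp (-(J X : ℝ)) ≤ Real.exp (-σ X) := by
        rw [← Real.exp_add]
        apply Real.exp_le_exp.2
        have h14 : (6 * |θ| + 1) * σ X ≤ σ X * σ X := mul_le_mul_of_nonneg_right h4 hs0.le
        nlinarith
      linarith [h9.trans (h11.trans h13)]
    refine squeeze_zero' (Eventually.of_forall fun X => ?_) h1 ?_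
    · have := ej_nonneg (P := P X) (h := fun p => (rho f p : ℝ) / p)
        (fun p _ => by positivity) (J X)
      positivity
    · have : Tendsto (fun X => 2 * Real.exp (-σ X)) atTop (𝓝 (2 * 0)) :=
        (Real.tendsto_exp_neg_atTop_nhds_zero.comp hσ).const_mul 2
      simpa using this
  -- the difference
  have diff : ∀ᶠ X : ℕ in atTop, ‖(∑ t ∈ Ioc (-(X : ℤ) - 1) X,
      Complex.exp (Complex.I * (θ * ((om f (P X) t - σ X ^ 2) / σ X) : ℝ))) / (2 * X + 1 : ℂ) -
      Complex.exp (u X * (M X : ℂ) - Complex.I * (α X * σ X ^ 2 : ℝ))‖ ≤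
      (∑ j ∈ range (J X + 1), ej (P X) (fun p => (rho f p : ℝ)) j) / (2 * X + 1 : ℝ) +
      2 * (‖u X‖ ^ J X * ej (P X) (fun p => (rho f p : ℝ) / p) (J X)) + ‖u X‖ ^ 2 * C := by
    filter_upwards [hα1, hσ1] with X h1 h2
    have hs0 : σ X ≠ 0 := by linarith
    have hNp : (0 : ℝ) < 2 * X + 1 := by positivity
    have hNc : (2 * X + 1 : ℂ) ≠ 0 := by
      have : ((2 * X + 1 : ℝ) : ℂ) ≠ 0 := by exact_mod_cast hNp.ne'
      simpa using this
    have e1 : ∀ t, Complex.exp (Complex.I * (θ * ((om f (P X) t - σ X ^ 2) / σ X) : ℝ)) =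
        (1 + u X) ^ (om f (P X) t) * Complex.exp (-(Complex.I * (α X * σ X ^ 2 : ℝ))) := by
      intro t
      have : 1 + u X = Complex.exp (Complex.I * α X) := by
        rw [hu]
        ring
      rw [this, ← Complex.exp_nat_mul, ← Complex.exp_add]
      congr 1
      rw [hα]
      push_cast
      ring
    have e2 : (∑ t ∈ Ioc (-(X : ℤ) - 1) X,
        Complex.exp (Complex.I * (θ * ((om f (P X) t - σ X ^ 2) / σ X) : ℝ))) / (2 * X + 1 : ℂ) -
        Complex.exp (u X * (M X : ℂ) - Complex.I * (α X * σ X ^ 2 : ℝ)) =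
        Complex.exp (-(Complex.I * (α X * σ X ^ 2 : ℝ))) *
        ((∑ t ∈ Ioc (-(X : ℤ) - 1) X, (1 + u X) ^ (om f (P X) t) - ((2 * X + 1 : ℝ) : ℂ) *
          ∏ p ∈ P X, (1 + u X * (((rho f p : ℝ) / p : ℝ) : ℂ))) / (2 * X + 1 : ℂ) +
        (∏ p ∈ P X, (1 + u X * (((rho f p : ℝ) / p : ℝ) : ℂ)) -
          Complex.exp (u X * (M X : ℂ)))) := by
      rw [sum_congr rfl (fun t _ => e1 t), ← sum_mul, sub_eq_add_neg (u X * (M X : ℂ)),
        Complex.exp_add (u X * (M X : ℂ))]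
      push_cast
      field_simp
      ring
    rw [e2, norm_mul]
    have e3 : ‖Complex.exp (-(Complex.I * (α X * σ X ^ 2 : ℝ)))‖ = 1 := by
      rw [← mul_neg, ← Complex.ofReal_neg]
      exact norm_exp_I _
    rw [e3, one_mul]
    refine (norm_add_le _ _).trans (add_le_add ?_ ?_)
    · have h3 := mean_diff f (P X) (hP X) (-(X : ℤ) - 1) X (by omega) (hu1 X) (J X)
      rw [hN] at h3
      rw [norm_div]
      have e4 : ‖(2 * X + 1 : ℂ)‖ = 2 * X + 1 := by
        have : (2 * X + 1 : ℂ) = ((2 * X + 1 : ℝ) : ℂ) := by push_cast; ring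
        rw [this, Complex.norm_real, Real.norm_of_nonneg hNp.le]
      rw [e4, div_le_iff₀ hNp]
      refine h3.trans ?_
      rw [add_mul, div_mul_cancel₀ _ hNp.ne']
      refine add_le_add (sum_le_sum fun j _ => ?_) (le_of_eq (by ring))
      have h4 : ‖u X‖ ^ j ≤ 1 := pow_le_one₀ (norm_nonneg _) ((hun X).trans h1)
      have h5 := ej_nonneg (P := P X) (h := fun p => (rho f p : ℝ))
        (fun p _ => Nat.cast_nonneg _) j
      exact mul_le_of_le_one_left h5 h4
    · refine (prod_exp (hu1 X) (hure X) ((hun X).trans h1) (P X) (fun p => (rho f p : ℝ) / p)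
        (fun p _ => by positivity) (fun p hp => ?_)).trans ?_
      · have hp0 : (0 : ℝ) < p := by exact_mod_cast (hP X p hp).pos
        rw [div_le_one hp0]
        exact_mod_cast rho_le f p
      · exact mul_le_mul_of_nonneg_left (hQ X) (by positivity)
  have z0 : Tendsto (fun X : ℕ => (∑ t ∈ Ioc (-(X : ℤ) - 1) X,
      Complex.exp (Complex.I * (θ * ((om f (P X) t - σ X ^ 2) / σ X) : ℝ))) / (2 * X + 1 : ℂ) -
      Complex.exp (u X * (M X : ℂ) - Complex.I * (α X * σ X ^ 2 : ℝ))) atTop (𝓝 0) := by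
    rw [tendsto_zero_iff_norm_tendsto_zero]
    refine squeeze_zero' (Eventually.of_forall fun _ => norm_nonneg _) diff ?_
    simpa using (hE.add er2).add er1
  have := z0.add main
  simpa using this

end Pool.Agent.U409.GL
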