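import Mathlib

/-!
# Lévy's theorem for averages over finite sets, and the passage to a nearby function
-/

set_option autoImplicit false

namespace Pool.Agent.U409.GL

open Finset Filter Topology MeasureTheory ProbabilityTheory
open scoped ENNReal

/-- the distribution of `g` on `I` -/
noncomputable def av (I : Finset ℤ) (g : ℤ → ℝ) : Measure ℝ :=
  ((I.card : ℝ≥0∞))⁻¹ • ∑ t ∈ I, Measure.dirac (g t)

lemma av_prob {I : Finset ℤ} (hI : I.Nonempty) (g : ℤ → ℝ) : IsProbabilityMeasure (av I g) := by
  refine ⟨?_⟩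
  unfold av
  simp only [Measure.smul_apply, Measure.coe_finsetSum, Finset.sum_apply, measure_univ,
    sum_const, nsmul_eq_mul, mul_one, smul_eq_mul]
  exact ENNReal.inv_mul_cancel (by exact_mod_cast hI.card_pos.ne') (ENNReal.natCast_ne_top _)

open scoped Classical in
lemma av_apply (I : Finset ℤ) (g : ℤ → ℝ) {s : Set ℝ} (hs : MeasurableSet s) :
    (av I g).real s = ((I.filter (fun t => g t ∈ s)).card : ℝ) / I.card := by
  unfold av Measure.real
  simp only [Measure.smul_apply, Measure.coe_finsetSum, Finset.sum_apply, smul_eq_mul]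
  have e : ∑ t ∈ I, (Measure.dirac (g t)) s = ((I.filter (fun t => g t ∈ s)).card : ℝ≥0∞) := by
    rw [card_filter]
    push_cast
    refine sum_congr rfl fun t _ => ?_
    rw [Measure.dirac_apply' _ hs, Set.indicator_apply]
    rfl
  rw [e, ENNReal.toReal_mul, ENNReal.toReal_inv, ENNReal.toReal_natCast, ENNReal.toReal_natCast]
  rw [inv_mul_eq_div]

lemma av_char (I : Finset ℤ) (g : ℤ → ℝ) (θ : ℝ) :
    charFun (av I g) θ = (∑ t ∈ I, Complex.exp (Complex.I * (θ * g t : ℝ))) / (I.card : ℂ) := by
  rw [charFun_apply_real]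
  unfold av
  rw [integral_smul_measure, integral_finsetSum_measure]
  · have e : ∀ t ∈ I, ∫ x, Complex.exp (θ * x * Complex.I) ∂(Measure.dirac (g t)) =
        Complex.exp (Complex.I * (θ * g t : ℝ)) := by
      intro t _
      rw [integral_dirac]
      congr 1
      push_cast
      ring
    rw [sum_congr rfl e, ENNReal.toReal_inv, ENNReal.toReal_natCast, Complex.real_smul]
    push_cast
    rw [inv_mul_eq_div]
  · intro t _
    exact integrable_dirac (by simp)

open scoped Classical in
/-- **Lévy's theorem for averages** -/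
theorem levy_avg (I : ℕ → Finset ℤ) (hI : ∀ X, (I X).Nonempty) (g : ℕ → ℤ → ℝ)
    (h : ∀ θ : ℝ, Tendsto (fun X => (∑ t ∈ I X, Complex.exp (Complex.I * (θ * g X t : ℝ))) /
      ((I X).card : ℂ)) atTop (𝓝 (Complex.exp (-(θ : ℂ) ^ 2 / 2)))) (a : ℝ) :
    Tendsto (fun X => (((I X).filter (fun t => g X t ≤ a)).card : ℝ) / (I X).card) atTop
      (𝓝 ((gaussianReal 0 1).real (Set.Iic a))) := by
  have hp : ∀ X, IsProbabilityMeasure (av (I X) (g X)) := fun X => av_prob (hI X) _
  let μ : ℕ → ProbabilityMeasure ℝ := fun X => ⟨av (I X) (g X), hp X⟩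
  let μ₀ : ProbabilityMeasure ℝ := ⟨gaussianReal 0 1, inferInstance⟩
  have h1 : Tendsto μ atTop (𝓝 μ₀) := by
    rw [ProbabilityMeasure.tendsto_iff_tendsto_charFun]
    intro θ
    have e1 : charFun (μ₀ : Measure ℝ) θ = Complex.exp (-(θ : ℂ) ^ 2 / 2) := by
      show charFun (gaussianReal 0 1) θ = _
      rw [charFun_gaussianReal]
      congr 1
      push_cast
      ring
    rw [e1]
    have e2 : (fun X => charFun (μ X : Measure ℝ) θ) = fun X =>
        (∑ t ∈ I X, Complex.exp (Complex.I * (θ * g X t : ℝ))) / ((I X).card : ℂ) := by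
      funext X
      exact av_char (I X) (g X) θ
    rw [e2]
    exact h θ
  have : NullSingletonClass (gaussianReal 0 1) := nullSingletonClass_gaussianReal one_ne_zero
  have h2 : (μ₀ : Measure ℝ) (frontier (Set.Iic a)) = 0 := by
    show gaussianReal 0 1 (frontier (Set.Iic a)) = 0
    rw [frontier_Iic]
    exact measure_singleton a
  have h3 := ProbabilityMeasure.tendsto_measure_of_null_frontier_of_tendsto' h1 h2
  have h4 : Tendsto (fun X => (av (I X) (g X)).real (Set.Iic a)) atTop
      (𝓝 ((gaussianReal 0 1).real (Set.Iic a))) :=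
    (ENNReal.tendsto_toReal (measure_ne_top _ _)).comp h3
  refine h4.congr fun X => ?_
  rw [av_apply _ _ measurableSet_Iic]
  rfl

/-- the distribution function is continuous -/
lemma cont_phi : Continuous (fun a : ℝ => (gaussianReal 0 1).real (Set.Iic a)) := by
  have : NullSingletonClass (gaussianReal 0 1) := nullSingletonClass_gaussianReal one_ne_zero
  rw [continuous_iff_continuousAt]
  intro a
  have h1 : ContinuousAt (fun a : ℝ => gaussianReal 0 1 (Set.Iic a)) a := by
    rw [ContinuousAt, tendsto_order]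
    constructor
    · intro b hb
      have h2 : Tendsto (fun n : ℕ => gaussianReal 0 1 (Set.Iic (a - 1 / ((n : ℝ) + 1)))) atTop
          (𝓝 (gaussianReal 0 1 (Set.Iio a))) := by
        have h3 : (⋃ n : ℕ, Set.Iic (a - 1 / ((n : ℝ) + 1))) = Set.Iio a := by
          ext x
          rw [Set.mem_iUnion, Set.mem_Iio]
          constructor
          · rintro ⟨n, hn⟩
            have h4 : (0 : ℝ) < 1 / ((n : ℝ) + 1) := by positivity
            rw [Set.mem_Iic] at hn
            linarith
          · intro hx
            obtain ⟨n, hn⟩ := exists_nat_one_div_lt (sub_pos.2 hx)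
            exact ⟨n, by rw [Set.mem_Iic]; linarith⟩
        rw [← h3]
        apply tendsto_measure_iUnion_atTop
        intro m n hmn
        apply Set.Iic_subset_Iic.2
        have h5 : (1 : ℝ) / ((n : ℝ) + 1) ≤ 1 / ((m : ℝ) + 1) := by
          apply one_div_le_one_div_of_le (by positivity)
          have : (m : ℝ) ≤ n := by exact_mod_cast hmn
          linarith
        linarith
      have h4 : gaussianReal 0 1 (Set.Iio a) = gaussianReal 0 1 (Set.Iic a) :=
        measure_congr Iio_ae_eq_Iic
      rw [h4] at h2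
      obtain ⟨n, hn⟩ := (h2.eventually (lt_mem_nhds hb)).exists
      have h5 : (0 : ℝ) < 1 / ((n : ℝ) + 1) := by positivity
      filter_upwards [lt_mem_nhds (show a - 1 / ((n : ℝ) + 1) < a by linarith)] with x hx
      exact hn.trans_le (measure_mono (Set.Iic_subset_Iic.2 hx.le))
    · intro b hb
      have h2 : Tendsto (fun n : ℕ => gaussianReal 0 1 (Set.Iic (a + 1 / ((n : ℝ) + 1)))) atTop
          (𝓝 (gaussianReal 0 1 (Set.Iic a))) := by
        have h3 : (⋂ n : ℕ, Set.Iic (a + 1 / ((n : ℝ) + 1))) = Set.Iic a := by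
          ext x
          rw [Set.mem_iInter, Set.mem_Iic]
          constructor
          · intro hx
            by_contra hcon
            push Not at hcon
            obtain ⟨n, hn⟩ := exists_nat_one_div_lt (sub_pos.2 hcon)
            have := hx n
            rw [Set.mem_Iic] at this
            linarith
          · intro hx n
            have h4 : (0 : ℝ) < 1 / ((n : ℝ) + 1) := by positivity
            rw [Set.mem_Iic]
            linarith
        rw [← h3]
        apply tendsto_measure_iInter_atTop
        · intro n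
          exact measurableSet_Iic.nullMeasurableSet
        · intro m n hmn
          apply Set.Iic_subset_Iic.2
          have h5 : (1 : ℝ) / ((n : ℝ) + 1) ≤ 1 / ((m : ℝ) + 1) := by
            apply one_div_le_one_div_of_le (by positivity)
            have : (m : ℝ) ≤ n := by exact_mod_cast hmn
            linarith
          linarith
        · exact ⟨0, measure_ne_top _ _⟩
      obtain ⟨n, hn⟩ := (h2.eventually (gt_mem_nhds hb)).exists
      have h5 : (0 : ℝ) < 1 / ((n : ℝ) + 1) := by positivity
      filter_upwards [gt_mem_nhds (show a < a + 1 / ((n : ℝ) + 1) by linarith)] with x hx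
      exact (measure_mono (Set.Iic_subset_Iic.2 hx.le)).trans_lt hn
  exact (ENNReal.tendsto_toReal (measure_ne_top _ _)).comp h1

open scoped Classical in
/-- **passage to a nearby function** -/
theorem nearby (I : ℕ → Finset ℤ) (hI : ∀ X, (I X).Nonempty) (g h : ℕ → ℤ → ℝ) (Φ : ℝ → ℝ)
    (hΦ : Continuous Φ)
    (hg : ∀ a : ℝ, Tendsto (fun X => (((I X).filter (fun t => g X t ≤ a)).card : ℝ) / (I X).card)
      atTop (𝓝 (Φ a)))
    (hc : ∀ ε : ℝ, 0 < ε → ∀ δ : ℝ, 0 < δ → ∀ᶠ X in atTop,
      (((I X).filter (fun t => ε < |h X t - g X t|)).card : ℝ) ≤ δ * (I X).card) (a : ℝ) :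
    Tendsto (fun X => (((I X).filter (fun t => h X t ≤ a)).card : ℝ) / (I X).card)
      atTop (𝓝 (Φ a)) := by
  rw [Metric.tendsto_nhds]
  intro η hη
  obtain ⟨ε, hε, hcont⟩ := Metric.continuous_iff.1 hΦ a (η / 4) (by positivity)
  have hc1 := hc (ε / 2) (by positivity) (η / 4) (by positivity)
  have h1 := (hg (a + ε / 2)).eventually (Metric.ball_mem_nhds _ (show 0 < η / 4 by positivity))
  have h2 := (hg (a - ε / 2)).eventually (Metric.ball_mem_nhds _ (show 0 < η / 4 by positivity))
  have d1 := hcont (a + ε / 2) (by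
    rw [Real.dist_eq, add_sub_cancel_left, abs_of_pos (by linarith)]
    linarith)
  have d2 := hcont (a - ε / 2) (by
    rw [Real.dist_eq, sub_sub_cancel_left, abs_neg, abs_of_pos (by linarith)]
    linarith)
  filter_upwards [hc1, h1, h2] with X e0 e1 e2
  rw [Real.dist_eq] at e1 e2 d1 d2 ⊢
  have hN : (0 : ℝ) < (I X).card := by exact_mod_cast (hI X).card_pos
  set A1 := (I X).filter (fun t => g X t ≤ a + ε / 2) with hA1
  set A2 := (I X).filter (fun t => g X t ≤ a - ε / 2) with hA2
  set A0 := (I X).filter (fun t => h X t ≤ a) with hA0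
  set Ex := (I X).filter (fun t => ε / 2 < |h X t - g X t|) with hEx
  have s1 : A0 ⊆ A1 ∪ Ex := by
    intro t ht
    rw [mem_union]
    by_cases hx : t ∈ Ex
    · exact Or.inr hx
    · left
      rw [hA0, mem_filter] at ht
      rw [hEx, mem_filter, not_and] at hx
      have h3 := (abs_le.1 (not_lt.1 (hx ht.1))).1
      rw [hA1, mem_filter]
      exact ⟨ht.1, by linarith [ht.2]⟩
  have s2 : A2 ⊆ A0 ∪ Ex := by
    intro t ht
    rw [mem_union]
    by_cases hx : t ∈ Ex
    · exact Or.inr hx
    · left
      rw [hA2, mem_filter] at ht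
      rw [hEx, mem_filter, not_and] at hx
      have h3 := (abs_le.1 (not_lt.1 (hx ht.1))).2
      rw [hA0, mem_filter]
      exact ⟨ht.1, by linarith [ht.2]⟩
  have c1 : (A0.card : ℝ) ≤ A1.card + Ex.card := by
    exact_mod_cast (card_le_card s1).trans (card_union_le _ _)
  have c2 : (A2.card : ℝ) ≤ A0.card + Ex.card := by
    exact_mod_cast (card_le_card s2).trans (card_union_le _ _)
  have c3 : (A0.card : ℝ) / (I X).card ≤ A1.card / (I X).card + η / 4 := by
    rw [div_le_iff₀ hN, add_mul, div_mul_cancel₀ _ hN.ne']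
    linarith
  have c4 : (A2.card : ℝ) / (I X).card ≤ A0.card / (I X).card + η / 4 := by
    rw [div_le_iff₀ hN, add_mul, div_mul_cancel₀ _ hN.ne']
    linarith
  have f1 := abs_lt.1 e1
  have f2 := abs_lt.1 e2
  have f3 := abs_lt.1 d1
  have f4 := abs_lt.1 d2
  rw [abs_lt]
  constructor <;> linarith [f1.1, f1.2, f2.1, f2.2, f3.1, f3.2, f4.1, f4.2]

end Pool.Agent.U409.GL
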