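import Pool.Agent.U409.LS.Asym

/-!
# The parameters
-/

set_option autoImplicit false

namespace Pool.Agent.U409.GL

open Filter Topology
open Pool.Agent.U409.LS (rt8 rt8_le lt_rt8)

lemma loglog_tendsto : Tendsto (fun X : ℕ => Real.log (Real.log X)) atTop atTop :=
  Real.tendsto_log_atTop.comp (Real.tendsto_log_atTop.comp tendsto_natCast_atTop_atTop)

/-- a slowly growing function -/
lemma slow : Tendsto (fun s : ℝ => Real.log (8 * (s + 3)) / Real.sqrt s) atTop (𝓝 0) := by
  have h1 : ∀ᶠ s : ℝ in atTop, Real.log (8 * (s + 3)) / Real.sqrt s ≤ 8 * s ^ (-(1 / 4) : ℝ) := by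
    filter_upwards [eventually_ge_atTop 3] with s hs
    have hs0 : (0 : ℝ) < s := by linarith
    have h2 : Real.log (8 * (s + 3)) ≤ Real.log (16 * s) :=
      Real.log_le_log (by linarith) (by linarith)
    have h3 : Real.log (16 * s) ≤ (16 * s) ^ (1 / 4 : ℝ) / (1 / 4) :=
      Real.log_le_rpow_div (by linarith) (by norm_num)
    have h4 : (16 * s) ^ (1 / 4 : ℝ) = 2 * s ^ (1 / 4 : ℝ) := by
      rw [Real.mul_rpow (by norm_num) hs0.le]
      congr 1
      rw [show (16 : ℝ) = 2 ^ (4 : ℝ) by norm_num, ← Real.rpow_mul (by norm_num)]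
      norm_num
    rw [h4] at h3
    have h5 : Real.sqrt s = s ^ (1 / 2 : ℝ) := Real.sqrt_eq_rpow s
    rw [h5, div_le_iff₀ (by positivity), mul_assoc, ← Real.rpow_add hs0]
    have h6 : (-(1 / 4) + 1 / 2 : ℝ) = 1 / 4 := by norm_num
    rw [h6]
    linarith
  have h2 : ∀ᶠ s : ℝ in atTop, 0 ≤ Real.log (8 * (s + 3)) / Real.sqrt s := by
    filter_upwards [eventually_ge_atTop 3] with s hs
    exact div_nonneg (Real.log_nonneg (by linarith)) (Real.sqrt_nonneg _)
  refine squeeze_zero' h2 h1 ?_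
  have h3 := (tendsto_rpow_neg_atTop (show (0 : ℝ) < 1 / 4 by norm_num)).const_mul 8
  simpa using h3

lemma fast (κ : ℝ) : ∀ᶠ v : ℝ in atTop, 8 * (κ * Real.log v + 3) * Real.sqrt v ≤ v := by
  have h1 : Tendsto (fun v : ℝ => Real.log v / v ^ (1 / 2 : ℝ)) atTop (𝓝 0) :=
    (isLittleO_log_rpow_atTop (show (0 : ℝ) < 1 / 2 by norm_num)).tendsto_div_nhds_zero
  have h2 : Tendsto (fun v : ℝ => (8 * κ) * (Real.log v / v ^ (1 / 2 : ℝ)) +
      24 * v ^ (-(1 / 2) : ℝ)) atTop (𝓝 ((8 * κ) * 0 + 24 * 0)) :=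
    (h1.const_mul _).add ((tendsto_rpow_neg_atTop (show (0 : ℝ) < 1 / 2 by norm_num)).const_mul _)
  have h3 := h2.eventually_le_const (show (8 * κ) * 0 + 24 * 0 < (1 : ℝ) by norm_num)
  filter_upwards [h3, eventually_gt_atTop 0] with v hv hv0
  have h4 : Real.sqrt v = v ^ (1 / 2 : ℝ) := Real.sqrt_eq_rpow v
  have h5 : 0 < v ^ (1 / 2 : ℝ) := by positivity
  have h6 : v ^ (-(1 / 2) : ℝ) = (v ^ (1 / 2 : ℝ))⁻¹ := Real.rpow_neg hv0.le _
  have h7 : v ^ (1 / 2 : ℝ) * v ^ (1 / 2 : ℝ) = v := by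
    rw [← Real.rpow_add hv0]
    norm_num
  rw [h6] at hv
  have h8 : 8 * (κ * Real.log v + 3) ≤ v ^ (1 / 2 : ℝ) := by
    have h9 := mul_le_mul_of_nonneg_right hv h5.le
    have h10 : (8 * κ * (Real.log v / v ^ (1 / 2 : ℝ)) + 24 * (v ^ (1 / 2 : ℝ))⁻¹) *
        v ^ (1 / 2 : ℝ) = 8 * (κ * Real.log v + 3) := by
      field_simp
      ring
    rw [h10, one_mul] at h9
    exact h9
  rw [h4]
  calc 8 * (κ * Real.log v + 3) * v ^ (1 / 2 : ℝ) ≤ v ^ (1 / 2 : ℝ) * v ^ (1 / 2 : ℝ) :=
        mul_le_mul_of_nonneg_right h8 h5.le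
    _ = v := h7

/-- the parameters -/
theorem params {κ : ℝ} (hκ : 0 < κ) : ∃ y J : ℕ → ℕ, Tendsto y atTop atTop ∧
    (∀ᶠ X : ℕ in atTop, 1 ≤ J X ∧ κ * Real.log (Real.log X) ≤ J X ∧ y X ^ (4 * J X) ≤ X ∧
      y X ≤ rt8 X ∧ Real.log (Real.log (y X)) ≤ Real.log (Real.log X)) ∧
    Tendsto (fun X : ℕ => (Real.log (Real.log X) - Real.log (Real.log (y X))) /
      Real.sqrt (κ * Real.log (Real.log X))) atTop (𝓝 0) := by
  set J : ℕ → ℕ := fun X => ⌈κ * Real.log (Real.log X)⌉₊ + 2 with hJ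
  set w : ℕ → ℝ := fun X => Real.log X / (4 * J X) with hw
  set y : ℕ → ℕ := fun X => ⌊Real.exp (w X)⌋₊ with hy
  have hlog : Tendsto (fun X : ℕ => Real.log X) atTop atTop :=
    Real.tendsto_log_atTop.comp tendsto_natCast_atTop_atTop
  -- eventual facts
  have e1 : ∀ᶠ X : ℕ in atTop, (J X : ℝ) ≤ κ * Real.log (Real.log X) + 3 := by
    filter_upwards [loglog_tendsto.eventually_ge_atTop 0] with X hX
    have := Nat.ceil_lt_add_one (mul_nonneg hκ.le hX)
    rw [hJ]
    push_cast
    linarith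
  have e2 : ∀ᶠ X : ℕ in atTop, 2 * Real.sqrt (Real.log X) ≤ w X := by
    filter_upwards [e1, hlog.eventually (fast κ), hlog.eventually_ge_atTop 0] with X h1 h2 h3
    have hJ0 : (0 : ℝ) < J X := by
      have : 0 < J X := by rw [hJ]; positivity
      exact_mod_cast this
    rw [hw]
    dsimp only
    rw [le_div_iff₀ (by positivity)]
    have h4 : 8 * (J X : ℝ) * Real.sqrt (Real.log X) ≤
        8 * (κ * Real.log (Real.log X) + 3) * Real.sqrt (Real.log X) :=
      mul_le_mul_of_nonneg_right (by linarith) (Real.sqrt_nonneg _)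
    linarith
  have hsq : Tendsto (fun X : ℕ => Real.sqrt (Real.log X)) atTop atTop :=
    Real.tendsto_sqrt_atTop.comp hlog
  have hwt : Tendsto w atTop atTop := by
    refine tendsto_atTop_mono' _ ?_ hsq
    filter_upwards [e2, hsq.eventually_ge_atTop 0] with X h1 h2
    linarith
  have e3 : ∀ᶠ X : ℕ in atTop, Real.exp (w X / 2) ≤ y X := by
    filter_upwards [hwt.eventually_ge_atTop 2] with X h1
    have h2 : Real.exp (w X) < y X + 1 := Nat.lt_floor_add_one _
    have h3 : Real.exp (w X) = Real.exp (w X / 2) * Real.exp (w X / 2) := by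
      rw [← Real.exp_add]
      congr 1
      ring
    have h4 : w X / 2 + 1 ≤ Real.exp (w X / 2) := Real.add_one_le_exp _
    nlinarith
  have e4 : ∀ X, (y X : ℝ) ≤ Real.exp (w X) := fun X => Nat.floor_le (Real.exp_pos _).le
  have hJ2 : ∀ X, 2 ≤ J X := fun X => by rw [hJ]; exact Nat.le_add_left _ _
  have hyt : Tendsto y atTop atTop := by
    have h1 : Tendsto (fun X => (y X : ℝ)) atTop atTop := by
      refine tendsto_atTop_mono' _ e3 ?_
      exact Real.tendsto_exp_atTop.comp (hwt.atTop_div_const (by norm_num))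
    exact tendsto_natCast_atTop_iff.1 h1
  have e5 : ∀ᶠ X : ℕ in atTop, y X ^ (4 * J X) ≤ X := by
    filter_upwards [eventually_gt_atTop 0] with X hX
    have h1 : ((y X : ℝ)) ^ (4 * J X) ≤ X := by
      calc ((y X : ℝ)) ^ (4 * J X) ≤ (Real.exp (w X)) ^ (4 * J X) :=
            pow_le_pow_left₀ (Nat.cast_nonneg _) (e4 X) _
        _ = Real.exp (Real.log X) := by
            rw [← Real.exp_nat_mul]
            congr 1
            rw [hw]
            have : (J X : ℝ) ≠ 0 := by
              have := hJ2 X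
              have : J X ≠ 0 := by omega
              exact_mod_cast this
            push_cast
            field_simp
        _ = X := Real.exp_log (by exact_mod_cast hX)
    exact_mod_cast h1
  have e6 : ∀ᶠ X : ℕ in atTop, y X ≤ rt8 X := by
    filter_upwards [e5, hyt.eventually_ge_atTop 1] with X h1 h2
    by_contra hcon
    push Not at hcon
    have h3 : (rt8 X + 1) ^ 8 ≤ y X ^ 8 := Nat.pow_le_pow_left hcon 8
    have h4 : y X ^ 8 ≤ y X ^ (4 * J X) := Nat.pow_le_pow_right h2 (by have := hJ2 X; omega)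
    have h5 := lt_rt8 X
    omega
  have e7 : ∀ᶠ X : ℕ in atTop, Real.log (Real.log X) - Real.log (Real.log (y X)) ≤
      Real.log (8 * (κ * Real.log (Real.log X) + 3)) := by
    filter_upwards [e1, e3, hwt.eventually_ge_atTop 2, hlog.eventually_gt_atTop 0] with X h1 h2 h3 h4
    have hJ0 : (0 : ℝ) < J X := by
      have := hJ2 X
      have : 0 < J X := by omega
      exact_mod_cast this
    have h5 : w X / 2 ≤ Real.log (y X) := by
      rw [Real.le_log_iff_exp_le (lt_of_lt_of_le (Real.exp_pos _) h2)]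
      exact h2
    have h6 : w X / 2 = Real.log X / (8 * J X) := by
      rw [hw]
      field_simp
      norm_num
    have h7 : Real.log (Real.log X) - Real.log (8 * J X) ≤ Real.log (Real.log (y X)) := by
      rw [← Real.log_div h4.ne' (by positivity), ← h6]
      exact Real.log_le_log (by linarith) h5
    have h8 : Real.log (8 * J X) ≤ Real.log (8 * (κ * Real.log (Real.log X) + 3)) :=
      Real.log_le_log (by positivity) (by linarith)
    linarith
  have e8 : ∀ᶠ X : ℕ in atTop, Real.log (Real.log (y X)) ≤ Real.log (Real.log X) := by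
    filter_upwards [e6, hyt.eventually_ge_atTop 2] with X h1 h2
    have h3 : y X ≤ X := h1.trans (by
      have h4 := rt8_le X
      exact (Nat.le_self_pow (by norm_num) _).trans h4)
    have h5 : (2 : ℝ) ≤ y X := by exact_mod_cast h2
    have h6 : 0 < Real.log (y X) := Real.log_pos (by linarith)
    exact Real.log_le_log h6 (Real.log_le_log (by linarith) (by exact_mod_cast h3))
  refine ⟨y, J, hyt, ?_, ?_⟩
  · filter_upwards [e5, e6, e8] with X h1 h2 h3
    refine ⟨(hJ2 X).trans' (by norm_num), ?_, h1, h2, h3⟩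
    rw [hJ]
    push_cast
    have := Nat.le_ceil (κ * Real.log (Real.log X))
    linarith
  · have h1 : Tendsto (fun X : ℕ => Real.log (8 * (κ * Real.log (Real.log X) + 3)) /
        Real.sqrt (κ * Real.log (Real.log X))) atTop (𝓝 0) :=
      slow.comp (loglog_tendsto.const_mul_atTop hκ)
    refine squeeze_zero' ?_ ?_ h1
    · filter_upwards [e8] with X h2
      exact div_nonneg (by linarith) (Real.sqrt_nonneg _)
    · filter_upwards [e7] with X h2
      exact div_le_div_of_nonneg_right h2 (Real.sqrt_nonneg _)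

end Pool.Agent.U409.GL
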