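import Pool.Agent.U409.GL.Clt2
import Pool.Agent.U409.GL.Clt3
import Pool.Agent.U409.GL.Clt4

/-!
# The Gaussian law of the number of prime divisors of `f (t)` in a set of primes
-/

set_option autoImplicit false

namespace Pool.Agent.U409.GL

open Finset Polynomial Filter Topology ProbabilityTheory
open Pool.Agent.H474R2.PG (rho)
open Pool.Agent.U409.LS (om SS RR rt8 rt8_le lt_rt8 count_one)

open scoped Classical in
/-- the primes of the set `pr` between `z` and `y` -/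
noncomputable def QQ (pr : ℕ → Prop) (z y : ℕ) : Finset ℕ :=
  (Ioc z y).filter (fun p => p.Prime ∧ pr p)

lemma mem_QQ {pr : ℕ → Prop} {z y p : ℕ} : p ∈ QQ pr z y ↔ (z < p ∧ p ≤ y) ∧ p.Prime ∧ pr p := by
  classical
  unfold QQ
  rw [mem_filter, mem_Ioc]

lemma QQ_mono (pr : ℕ → Prop) (z : ℕ) {y x : ℕ} (h : y ≤ x) : QQ pr z y ⊆ QQ pr z x := by
  intro p hp
  rw [mem_QQ] at hp ⊢
  exact ⟨⟨hp.1.1, hp.1.2.trans h⟩, hp.2⟩

lemma sum_rho_le {f : ℤ[X]} {d z : ℕ} (hrho : ∀ p : ℕ, p.Prime → z < p → rho f p ≤ d)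
    (pr : ℕ → Prop) (y : ℕ) : ∑ p ∈ QQ pr z y, (rho f p : ℝ) ≤ d * y := by
  calc ∑ p ∈ QQ pr z y, (rho f p : ℝ) ≤ ∑ p ∈ QQ pr z y, (d : ℝ) := by
        refine sum_le_sum fun p hp => ?_
        rw [mem_QQ] at hp
        exact_mod_cast hrho p hp.2.1 hp.1.1
    _ = (QQ pr z y).card * d := by rw [sum_const, nsmul_eq_mul]
    _ ≤ d * y := by
        rw [mul_comm]
        apply mul_le_mul_of_nonneg_left _ (Nat.cast_nonneg _)
        have h2 : (QQ pr z y).card ≤ y := by
          have h3 : QQ pr z y ⊆ Icc 1 y := by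
            intro p hp
            rw [mem_QQ] at hp
            rw [mem_Icc]
            exact ⟨hp.2.1.one_lt.le, hp.1.2⟩
          have h4 := card_le_card h3
          rwa [Nat.card_Icc, Nat.add_sub_cancel] at h4
        exact_mod_cast h2

lemma sum_sq_le {f : ℤ[X]} {d z : ℕ} (hrho : ∀ p : ℕ, p.Prime → z < p → rho f p ≤ d)
    (pr : ℕ → Prop) (y : ℕ) : ∑ p ∈ QQ pr z y, ((rho f p : ℝ) / p) ^ 2 ≤ 2 * d ^ 2 := by
  have h1 : ∑ p ∈ QQ pr z y, ((rho f p : ℝ) / p) ^ 2 ≤
      ∑ p ∈ QQ pr z y, (d : ℝ) ^ 2 * ((p : ℝ) ^ 2)⁻¹ := by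
    refine sum_le_sum fun p hp => ?_
    rw [mem_QQ] at hp
    rw [div_pow, div_eq_mul_inv]
    apply mul_le_mul_of_nonneg_right _ (by positivity)
    apply pow_le_pow_left₀ (Nat.cast_nonneg _)
    exact_mod_cast hrho p hp.2.1 hp.1.1
  have h2 : ∑ p ∈ QQ pr z y, (d : ℝ) ^ 2 * ((p : ℝ) ^ 2)⁻¹ ≤
      ∑ p ∈ Ioo 0 (y + 1), (d : ℝ) ^ 2 * ((p : ℝ) ^ 2)⁻¹ := by
    apply sum_le_sum_of_subset_of_nonneg
    · intro p hp
      rw [mem_QQ] at hp
      rw [mem_Ioo]
      exact ⟨hp.2.1.pos, by omega⟩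
    · intro p _ _
      positivity
  have h3 : ∑ i ∈ Ioo 0 (y + 1), ((i : ℝ) ^ 2)⁻¹ ≤ 2 / (((0 : ℕ) : ℝ) + 1) :=
    sum_Ioo_inv_sq_le 0 (y + 1)
  rw [← mul_sum, ← mul_sum] at h2
  rw [← mul_sum] at h1
  have h4 : (d : ℝ) ^ 2 * ∑ i ∈ Ioo 0 (y + 1), ((i : ℝ) ^ 2)⁻¹ ≤ d ^ 2 * 2 := by
    apply mul_le_mul_of_nonneg_left _ (by positivity)
    simpa using h3
  linarith

open scoped Classical in
/-- **the Gaussian law for a set of primes** -/
theorem clt_om {f : ℤ[X]} {d z : ℕ} (hrho : ∀ p : ℕ, p.Prime → z < p → rho f p ≤ d)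
    (pr : ℕ → Prop) {κ : ℝ} (hκ : 0 < κ) {C : ℝ}
    (hM : ∀ y : ℕ, 3 ≤ y → |SS f (QQ pr z y) - κ * Real.log (Real.log y)| ≤ C) (a : ℝ) :
    Tendsto (fun X : ℕ => (((Ioc (-(X : ℤ) - 1) X).filter (fun t =>
      ((om f (QQ pr z (rt8 X)) t : ℝ) - κ * Real.log (Real.log X)) /
        Real.sqrt (κ * Real.log (Real.log X)) ≤ a)).card : ℝ) / ((Ioc (-(X : ℤ) - 1) X).card : ℝ))
      atTop (𝓝 ((gaussianReal 0 1).real (Set.Iic a))) := by
  obtain ⟨y, J, hyt, hyJ, hyl⟩ := params hκ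
  have hC0 : 0 ≤ C := (abs_nonneg _).trans (hM 3 le_rfl)
  set σ : ℕ → ℝ := fun X => Real.sqrt (κ * Real.log (Real.log X)) with hσd
  have hσ : Tendsto σ atTop atTop :=
    Real.tendsto_sqrt_atTop.comp (loglog_tendsto.const_mul_atTop hκ)
  have hσ2 : ∀ᶠ X in atTop, σ X ^ 2 = κ * Real.log (Real.log X) := by
    filter_upwards [loglog_tendsto.eventually_ge_atTop 0] with X hX
    exact Real.sq_sqrt (mul_nonneg hκ.le hX)
  set I : ℕ → Finset ℤ := fun X => Ioc (-(X : ℤ) - 1) X with hI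
  have hIc : ∀ X, ((I X).card : ℝ) = 2 * X + 1 := by
    intro X
    rw [hI]
    dsimp only
    rw [Int.card_Ioc]
    have : ((X : ℤ) - (-(X : ℤ) - 1)).toNat = 2 * X + 1 := by omega
    rw [this]
    push_cast
    ring
  have hIn : ∀ X, (I X).Nonempty := by
    intro X
    rw [← card_pos]
    have h := hIc X
    have h1 : (0 : ℝ) < (I X).card := by rw [h]; positivity
    exact_mod_cast h1
  set P : ℕ → Finset ℕ := fun X => QQ pr z (y X) with hP
  have hPp : ∀ X, ∀ p ∈ P X, p.Prime := fun X p hp => (mem_QQ.1 hp).2.1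
  have hy3 : ∀ᶠ X in atTop, 3 ≤ y X := hyt.eventually_ge_atTop 3
  have hMl : Tendsto (fun X => (SS f (P X) - σ X ^ 2) / σ X) atTop (𝓝 0) := by
    have h1 : Tendsto (fun X => C * (σ X)⁻¹ + κ * ((Real.log (Real.log X) -
        Real.log (Real.log (y X))) / σ X)) atTop (𝓝 (C * 0 + κ * 0)) :=
      (hσ.inv_tendsto_atTop.const_mul C).add (hyl.const_mul κ)
    rw [mul_zero, mul_zero, add_zero] at h1
    rw [tendsto_zero_iff_norm_tendsto_zero]
    refine squeeze_zero' (Eventually.of_forall fun _ => norm_nonneg _) ?_ h1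
    filter_upwards [hσ2, hy3, hyJ, hσ.eventually_gt_atTop 0] with X h2 h3 h4 h5
    rw [Real.norm_eq_abs, abs_div, abs_of_pos h5, ← div_eq_mul_inv, mul_div_assoc', ← add_div]
    apply div_le_div_of_nonneg_right _ h5.le
    rw [h2]
    have h6 : SS f (P X) - κ * Real.log (Real.log X) =
        (SS f (P X) - κ * Real.log (Real.log (y X))) -
        κ * (Real.log (Real.log X) - Real.log (Real.log (y X))) := by ring
    rw [h6]
    refine (abs_sub _ _).trans (add_le_add (hM _ h3) ?_)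
    rw [abs_of_nonneg (mul_nonneg hκ.le (by linarith [h4.2.2.2.2]))]
  have hJ : ∀ᶠ X in atTop, σ X ^ 2 ≤ J X := by
    filter_upwards [hσ2, hyJ] with X h1 h2
    rw [h1]
    exact h2.2.1
  have hE : Tendsto (fun X : ℕ => (∑ j ∈ range (J X + 1), ej (P X) (fun p => (rho f p : ℝ)) j) /
      (2 * X + 1 : ℝ)) atTop (𝓝 0) := by
    have h1 : Tendsto (fun X => ((y X : ℝ))⁻¹) atTop (𝓝 0) :=
      (tendsto_natCast_atTop_atTop.comp hyt).inv_tendsto_atTop
    refine squeeze_zero' (Eventually.of_forall fun X => ?_) ?_ h1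
    · exact div_nonneg (sum_nonneg fun j _ => ej_nonneg (fun p _ => Nat.cast_nonneg _) j)
        (by positivity)
    filter_upwards [hyJ, hyt.eventually_ge_atTop (d + 2)] with X h2 h3
    obtain ⟨h4, -, h5, -, -⟩ := h2
    have hy0 : (0 : ℝ) < y X := by exact_mod_cast (by omega : 0 < y X)
    have hy1 : (1 : ℝ) ≤ y X := by exact_mod_cast (by omega : 1 ≤ y X)
    have hRR : ∑ p ∈ P X, (rho f p : ℝ) ≤ (y X : ℝ) ^ 2 := by
      refine (sum_rho_le hrho pr (y X)).trans ?_
      rw [pow_two]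
      apply mul_le_mul_of_nonneg_right _ hy0.le
      exact_mod_cast (by omega : d ≤ y X)
    have h6 : ∀ j ∈ range (J X + 1), ej (P X) (fun p => (rho f p : ℝ)) j ≤
        (y X : ℝ) ^ (2 * J X) := by
      intro j hj
      have h7 := ej_le (P X) (fun p => (rho f p : ℝ)) (fun p _ => Nat.cast_nonneg _) j
      have h8 : (1 : ℝ) ≤ j.factorial := by exact_mod_cast Nat.factorial_pos j
      have h9 := ej_nonneg (P := P X) (h := fun p => (rho f p : ℝ))
        (fun p _ => Nat.cast_nonneg _) j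
      have h10 : (∑ p ∈ P X, (rho f p : ℝ)) ^ j ≤ ((y X : ℝ) ^ 2) ^ j :=
        pow_le_pow_left₀ (sum_nonneg fun p _ => Nat.cast_nonneg _) hRR j
      have h11 : ((y X : ℝ) ^ 2) ^ j ≤ (y X : ℝ) ^ (2 * J X) := by
        rw [← pow_mul]
        apply pow_le_pow_right₀ hy1
        have := mem_range.1 hj
        omega
      nlinarith
    have h7 : ∑ j ∈ range (J X + 1), ej (P X) (fun p => (rho f p : ℝ)) j ≤
        (J X + 1) * (y X : ℝ) ^ (2 * J X) := by
      refine (sum_le_sum h6).trans ?_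
      rw [sum_const, card_range, nsmul_eq_mul]
      push_cast
      exact le_rfl
    have h8 : ((J X : ℝ) + 1) ≤ (y X : ℝ) ^ J X := by
      have h9 : J X + 1 ≤ 2 ^ J X := Nat.lt_two_pow_self
      have h10 : (2 : ℕ) ^ J X ≤ y X ^ J X := Nat.pow_le_pow_left (by omega) _
      exact_mod_cast h9.trans h10
    have h9 : (y X : ℝ) ^ J X * (y X : ℝ) ^ (2 * J X) * y X ≤ X := by
      have h10 : y X ^ (3 * J X + 1) ≤ y X ^ (4 * J X) :=
        Nat.pow_le_pow_right (by omega) (by omega)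
      have h11 : ((y X : ℝ)) ^ (3 * J X + 1) ≤ X := by exact_mod_cast h10.trans h5
      calc _ = (y X : ℝ) ^ (3 * J X + 1) := by ring
        _ ≤ _ := h11
    rw [div_le_iff₀ (by positivity), inv_mul_eq_div, le_div_iff₀ hy0]
    have h12 : (0 : ℝ) ≤ (y X : ℝ) ^ (2 * J X) := by positivity
    have h13 : (∑ j ∈ range (J X + 1), ej (P X) (fun p => (rho f p : ℝ)) j) * y X ≤
        ((y X : ℝ) ^ J X * (y X : ℝ) ^ (2 * J X)) * y X := by
      apply mul_le_mul_of_nonneg_right _ hy0.le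
      exact h7.trans (mul_le_mul_of_nonneg_right h8 h12)
    have hX0 : (0 : ℝ) ≤ X := Nat.cast_nonneg _
    linarith
  have hchar := char_lim f P hPp σ hσ hMl (C := 2 * d ^ 2) (fun X => sum_sq_le hrho pr (y X)) J hJ hE
  have hl := levy_avg I hIn (fun X t => ((om f (P X) t : ℝ) - σ X ^ 2) / σ X) (fun θ => by
    have := hchar θ
    refine this.congr fun X => ?_
    congr 1
    have h1 : ((I X).card : ℂ) = (((I X).card : ℝ) : ℂ) := by push_cast; ring
    rw [h1, hIc]
    push_cast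
    ring)
  -- passage to all the primes
  refine nearby I hIn (fun X t => ((om f (P X) t : ℝ) - σ X ^ 2) / σ X)
    (fun X t => ((om f (QQ pr z (rt8 X)) t : ℝ) - κ * Real.log (Real.log X)) / σ X) _
    cont_phi hl ?_ a
  intro ε hε δ hδ
  -- the mean of the number of the other prime divisors
  have h1 : Tendsto (fun X : ℕ => κ * ((Real.log (Real.log X) -
        Real.log (Real.log (y X))) / σ X) + (2 * C + 1) * (σ X)⁻¹) atTop
        (𝓝 (κ * 0 + (2 * C + 1) * 0)) :=
      (hyl.const_mul κ).add (hσ.inv_tendsto_atTop.const_mul _)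
  rw [mul_zero, mul_zero, add_zero] at h1
  have h2 := h1.eventually_le_const (show 0 < δ * ε by positivity)
  filter_upwards [h2, hσ2, hyJ, hy3, hσ.eventually_gt_atTop 0, hyt.eventually_ge_atTop (z + d + 1),
    eventually_ge_atTop 3] with X e1 e2 e3 e4 e5 e6 e7
  obtain ⟨-, -, -, e8, e9⟩ := e3
  have hNpos : (0 : ℝ) < (I X).card := by rw [hIc]; positivity
  have hsub : P X ⊆ QQ pr z (rt8 X) := QQ_mono pr z e8
  have hom : ∀ t, (om f (QQ pr z (rt8 X)) t : ℝ) =
      om f (P X) t + om f (QQ pr z (rt8 X) \ P X) t := by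
    intro t
    unfold om
    rw [← Nat.cast_add, ← card_union_of_disjoint]
    · rw [← filter_union, union_sdiff_of_subset hsub]
    · exact disjoint_filter_filter disjoint_sdiff
  have hX8 : (rt8 X : ℝ) ^ 8 ≤ X := by exact_mod_cast rt8_le X
  have hmean : ∑ t ∈ I X, (om f (QQ pr z (rt8 X) \ P X) t : ℝ) ≤
      (I X).card * (κ * (Real.log (Real.log X) - Real.log (Real.log (y X))) + 2 * C + 1) := by
    have h3 : ∑ t ∈ I X, (om f (QQ pr z (rt8 X) \ P X) t : ℝ) ≤
        (I X).card * SS f (QQ pr z (rt8 X) \ P X) +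
        ∑ p ∈ QQ pr z (rt8 X) \ P X, (rho f p : ℝ) := by
      have h4 : ∀ t, (om f (QQ pr z (rt8 X) \ P X) t : ℝ) =
          ∑ p ∈ QQ pr z (rt8 X) \ P X, (if (p : ℤ) ∣ f.eval t then (1 : ℝ) else 0) := by
        intro t
        unfold om
        rw [card_filter]
        push_cast
        rfl
      rw [sum_congr rfl (fun t _ => h4 t), sum_comm]
      unfold SS
      rw [mul_sum, ← sum_add_distrib]
      refine sum_le_sum fun p hp => ?_
      have hpp : p.Prime := (mem_QQ.1 (mem_sdiff.1 hp).1).2.1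
      have h5 := (abs_le.1 (count_one f (-(X : ℤ) - 1) X (by omega) hpp)).2
      have h6 : ∑ t ∈ I X, (if (p : ℤ) ∣ f.eval t then (1 : ℝ) else 0) =
          (((Ioc (-(X : ℤ) - 1) X).filter (fun t : ℤ => (p : ℤ) ∣ f.eval t)).card : ℝ) := by
        rw [card_filter]
        push_cast
        rfl
      rw [h6, hIc]
      push_cast at h5 ⊢
      have h7 : (X : ℝ) - (-X - 1) = 2 * X + 1 := by ring
      rw [h7] at h5
      linarith
    refine h3.trans ?_
    have h4 : SS f (QQ pr z (rt8 X) \ P X) ≤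
        κ * (Real.log (Real.log X) - Real.log (Real.log (y X))) + 2 * C := by
      have h5 : SS f (QQ pr z (rt8 X) \ P X) + SS f (P X) = SS f (QQ pr z (rt8 X)) := by
        unfold SS
        exact sum_sdiff hsub
      have h6 := (abs_le.1 (hM (y X) e4)).1
      have h7 := (abs_le.1 (hM (rt8 X) (e4.trans e8))).2
      have h8 : Real.log (Real.log (rt8 X)) ≤ Real.log (Real.log X) := by
        have h9 : (3 : ℝ) ≤ rt8 X := by exact_mod_cast e4.trans e8
        have h10 : 0 < Real.log (rt8 X) := Real.log_pos (by linarith)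
        have h11 : (rt8 X : ℝ) ≤ X := (le_self_pow₀ (by linarith) (by norm_num)).trans hX8
        exact Real.log_le_log h10 (Real.log_le_log (by linarith) h11)
      have h9 := mul_le_mul_of_nonneg_left h8 hκ.le
      have h10 : P X = QQ pr z (y X) := rfl
      rw [h10] at h5 ⊢
      linarith
    have h5 : ∑ p ∈ QQ pr z (rt8 X) \ P X, (rho f p : ℝ) ≤ (I X).card := by
      have h6 : ∑ p ∈ QQ pr z (rt8 X) \ P X, (rho f p : ℝ) ≤
          ∑ p ∈ QQ pr z (rt8 X), (rho f p : ℝ) :=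
        sum_le_sum_of_subset_of_nonneg sdiff_subset fun p _ _ => Nat.cast_nonneg _
      have h7 := sum_rho_le hrho pr (rt8 X)
      have h8 : (d : ℝ) * rt8 X ≤ (rt8 X : ℝ) ^ 8 := by
        have h9 : (d : ℝ) ≤ rt8 X := by exact_mod_cast (by omega : d ≤ rt8 X)
        have h10 : (1 : ℝ) ≤ rt8 X := by exact_mod_cast (by omega : 1 ≤ rt8 X)
        calc (d : ℝ) * rt8 X ≤ (rt8 X : ℝ) * rt8 X :=
              mul_le_mul_of_nonneg_right h9 (by linarith)
          _ = (rt8 X : ℝ) ^ 2 := by ring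
          _ ≤ _ := pow_le_pow_right₀ h10 (by norm_num)
      rw [hIc]
      have hX0 : (0 : ℝ) ≤ X := Nat.cast_nonneg _
      linarith
    have h6 := mul_le_mul_of_nonneg_left h4 hNpos.le
    linarith
  set F := (I X).filter (fun t => ε < |((om f (QQ pr z (rt8 X)) t : ℝ) -
    κ * Real.log (Real.log X)) / σ X - ((om f (P X) t : ℝ) - σ X ^ 2) / σ X|) with hF
  have hF1 : (F.card : ℝ) * (ε * σ X) ≤ ∑ t ∈ I X, (om f (QQ pr z (rt8 X) \ P X) t : ℝ) := by
    rw [← nsmul_eq_mul, ← sum_const]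
    refine (sum_le_sum fun t ht => ?_).trans
      (sum_le_sum_of_subset_of_nonneg (filter_subset _ _) fun t _ _ => Nat.cast_nonneg _)
    have h3 := (mem_filter.1 ht).2
    have h4 : ((om f (QQ pr z (rt8 X)) t : ℝ) - κ * Real.log (Real.log X)) / σ X -
        ((om f (P X) t : ℝ) - σ X ^ 2) / σ X = (om f (QQ pr z (rt8 X) \ P X) t : ℝ) / σ X := by
      rw [hom, e2]
      ring
    rw [h4, abs_of_nonneg (by positivity), lt_div_iff₀ e5] at h3
    exact h3.le
  have h3 := hF1.trans hmean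
  have h4 : κ * (Real.log (Real.log X) - Real.log (Real.log (y X))) + 2 * C + 1 ≤
      δ * ε * σ X := by
    have h5 : κ * ((Real.log (Real.log X) - Real.log (Real.log (y X))) / σ X) +
        (2 * C + 1) * (σ X)⁻¹ =
        (κ * (Real.log (Real.log X) - Real.log (Real.log (y X))) + 2 * C + 1) / σ X := by
      field_simp
      ring
    rw [h5, div_le_iff₀ e5] at e1
    exact e1
  have h5 := h3.trans (mul_le_mul_of_nonneg_left h4 hNpos.le)
  have h6 : (F.card : ℝ) * (ε * σ X) ≤ (δ * (I X).card) * (ε * σ X) := by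
    calc _ ≤ _ := h5
      _ = _ := by ring
  exact le_of_mul_le_mul_right h6 (by positivity)

end Pool.Agent.U409.GL
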