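import Pool.Agent.U409.GL.MertU

/-!
# Mertens' theorem for the non-residues, for separable polynomials
-/

set_option autoImplicit false

namespace Pool.Agent.U409.GL

open Polynomial Finset
open Pool.Agent.H474R2.PG (rho PR Sg)
open Pool.Agent.H474R2.GE (mertens_rho)
open Pool.Agent.U214.PT (Sep rho_mul rho_C_mul dvd_of_sep clear mem_PR)
open Pool.Agent.U409.LS (lu lu_eq leg_pm PM SS QF om_sq om_ne split split_mul irr rho_zmod mert_fac)

/-- a root of the resolvent gives a root of `f` -/
theorem rho_two' {n : ℤ} {f h : ℤ[X]}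
    (hh : ∀ (R : Type) [CommRing R] (z : R), z ^ 2 = (n : R) → h.map (Int.castRingHom R) =
      (f.map (Int.castRingHom R)).comp (X + C z) * (f.map (Int.castRingHom R)).comp (X + C (-z)))
    {p : ℕ} (hp : p.Prime) (hpn : ¬ (p : ℤ) ∣ n) (hlu : lu p n = 1) : rho h p ≤ 2 * rho f p := by
  classical
  have hpf : Fact p.Prime := ⟨hp⟩
  have hn0 : ((n : ℤ) : ZMod p) ≠ 0 := fun h0 => hpn ((ZMod.intCast_zmod_eq_zero_iff_dvd _ _).1 h0)
  have hleg : legendreSym p n = 1 := by
    rw [← lu_eq hpn, hlu, Units.val_one]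
  obtain ⟨z, hz⟩ := (legendreSym.eq_one_iff p hn0).1 hleg
  rw [← pow_two] at hz
  set F := f.map (Int.castRingHom (ZMod p)) with hF
  have hH := hh (ZMod p) z hz.symm
  rw [← hF] at hH
  rw [rho_zmod f hp, rho_zmod h hp]
  set Rf := (univ : Finset (ZMod p)).filter (fun a => F.eval a = 0) with hRf
  have e1 : ∀ a, (h.map (Int.castRingHom (ZMod p))).eval a = F.eval (a + z) * F.eval (a - z) := by
    intro a
    rw [hH, eval_mul, eval_comp, eval_comp]
    simp only [eval_add, eval_X, eval_C]
    rw [sub_eq_add_neg]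
  have hsub : (univ : Finset (ZMod p)).filter
      (fun a => (h.map (Int.castRingHom (ZMod p))).eval a = 0) ⊆
      Rf.image (fun a => a - z) ∪ Rf.image (fun a => a + z) := by
    intro w hw
    rw [mem_filter, e1] at hw
    rw [mem_union]
    rcases mul_eq_zero.1 hw.2 with h1 | h1
    · left
      exact mem_image.2 ⟨w + z, mem_filter.2 ⟨mem_univ _, h1⟩, add_sub_cancel_right w z⟩
    · right
      exact mem_image.2 ⟨w - z, mem_filter.2 ⟨mem_univ _, h1⟩, sub_add_cancel w z⟩
  have h1 := (card_le_card hsub).trans (card_union_le _ _)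
  have h2 := card_image_le (s := Rf) (f := fun a => a - z)
  have h3 := card_image_le (s := Rf) (f := fun a => a + z)
  omega

/-- the upper bound for a polynomial that is irreducible over the quadratic field -/
theorem mert_plus {n : ℤ} (hn : ∀ q : ℚ, q ^ 2 ≠ n) {f : ℤ[X]} (hfi : Irreducible f)
    (hf : Irreducible (f.map (Int.castRingHom (QF n)))) (hd : 0 < f.natDegree) :
    ∃ C : ℝ, ∀ y : ℕ, 3 ≤ y → SS f (PM n y) ≤ 1 / 2 * Real.log (Real.log y) + C := by
  classical
  have : Fact (∀ q : ℚ, q ^ 2 ≠ (n : ℚ) + 0 * q) := ⟨fun q => by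
    rw [zero_mul, add_zero]
    exact hn q⟩
  have hn0 : n ≠ 0 := by
    rintro rfl
    exact hn 0 (by simp)
  obtain ⟨P, Q, hPQ⟩ := split n f
  set h := P ^ 2 - C n * Q ^ 2 with hh
  have hirr : Irreducible (h.map (Int.castRingHom ℚ)) := irr hf hd hPQ
  have h0 : h ≠ 0 := by
    intro h1
    rw [h1, Polynomial.map_zero] at hirr
    exact hirr.ne_zero rfl
  have hhd : 0 < h.natDegree := by
    have h1 := hirr.natDegree_pos
    rwa [natDegree_map_eq_of_injective (RingHom.injective_int (Int.castRingHom ℚ))] at h1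
  have hcont : h.content ≠ 0 := fun h1 => h0 (content_eq_zero_iff.1 h1)
  have hprim : h.primPart.IsPrimitive := h.isPrimitive_primPart
  have hpi : Irreducible h.primPart := by
    rw [IsPrimitive.Int.irreducible_iff_irreducible_map_cast hprim]
    have h1 : h.map (Int.castRingHom ℚ) = C (h.content : ℚ) * h.primPart.map (Int.castRingHom ℚ) := by
      conv_lhs => rw [h.eq_C_content_mul_primPart]
      rw [Polynomial.map_mul, Polynomial.map_C]
      rfl
    rw [h1] at hirr
    have hu : IsUnit (C (h.content : ℚ)) :=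
      isUnit_C.2 (isUnit_iff_ne_zero.2 (by exact_mod_cast hcont))
    exact (irreducible_isUnit_mul hu).1 hirr
  have hpd : 0 < h.primPart.natDegree := by rw [natDegree_primPart]; exact hhd
  obtain ⟨C1, hC10, hC1⟩ := mertens_rho f hfi hd
  obtain ⟨C2, hC20, hC2⟩ := mertens_rho h.primPart hpi hpd
  have hcop : IsCoprime (P.map (Int.castRingHom ℚ)) (Q.map (Int.castRingHom ℚ)) := by
    refine cop (n := (n : ℚ)) hirr ?_
    rw [hh]
    simp only [Polynomial.map_sub, Polynomial.map_mul, Polynomial.map_pow, Polynomial.map_C,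
      Int.coe_castRingHom]
    exact dvd_refl _
  obtain ⟨B1, hB1⟩ := inert_zero (f := h) (k := 1) (l := 1) one_ne_zero (by rw [hh]) hcop
  set B := B1 + n.natAbs + h.content.natAbs with hB
  set S0 : ℝ := ∑ p ∈ Icc 1 B, (rho h.primPart p : ℝ) / (p : ℝ) with hS0
  refine ⟨C1 + C2 / 2 + S0, fun y hy => ?_⟩
  have hyr : (3 : ℝ) ≤ y := by exact_mod_cast hy
  have h1 := (abs_le.1 (hC1 y hyr)).2
  have h2 := (abs_le.1 (hC2 y hyr)).1
  have hPR : PR y = (Icc 1 y).filter Nat.Prime := by
    ext p
    rw [mem_PR, mem_filter, mem_Icc, Nat.floor_natCast]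
  -- the split of the sum
  have h3 : SS f (PM n y) + 1 / 2 * Sg (rho h.primPart) y ≤ Sg (rho f) y + S0 := by
    have h4 : ∀ p ∈ (Icc 1 y).filter Nat.Prime,
        (if p ∈ PM n y then (rho f p : ℝ) / p else 0) +
        1 / 2 * ((rho h.primPart p : ℝ) / p) ≤ (rho f p : ℝ) / p +
          (if p ∈ Icc 1 B then (rho h.primPart p : ℝ) / p else 0) := by
      intro p hp
      rw [mem_filter] at hp
      have hpos : (0 : ℝ) ≤ (rho f p : ℝ) / p := by positivity
      have hpos2 : (0 : ℝ) ≤ (rho h.primPart p : ℝ) / p := by positivity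
      by_cases h6 : p ∈ Icc 1 B
      · rw [if_pos h6]
        split_ifs <;> linarith
      · rw [if_neg h6, add_zero]
        have hpB : B < p := by
          rw [mem_Icc, not_and] at h6
          exact not_le.1 (h6 hp.2.one_lt.le)
        have hpn : ¬ (p : ℤ) ∣ n := by
          intro h7
          have := Nat.le_of_dvd (Int.natAbs_pos.2 hn0) (Int.natCast_dvd.1 h7)
          omega
        have hpc : ¬ (p : ℤ) ∣ h.content := by
          intro h7
          have := Nat.le_of_dvd (Int.natAbs_pos.2 hcont) (Int.natCast_dvd.1 h7)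
          omega
        have h8 : rho h p = rho h.primPart p := by
          conv_lhs => rw [h.eq_C_content_mul_primPart]
          exact rho_C_mul hp.2 hpc
        by_cases h5 : p ∈ PM n y
        · rw [if_pos h5]
          have hlu : ¬ lu p n = 1 := by
            unfold PM at h5
            exact (mem_filter.1 h5).2.2
          have h9 := hB1 p hp.2 (by omega) hpn hlu
          rw [h8] at h9
          rw [h9]
          simp
        · rw [if_neg h5, zero_add]
          have hlu : lu p n = 1 := by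
            by_contra hne
            apply h5
            unfold PM
            rw [mem_filter]
            exact ⟨hp.1, hp.2, hne⟩
          have h7 := rho_two' (fun R _ z hz => split_mul hPQ R z hz) hp.2 hpn hlu
          rw [← hh, h8] at h7
          have h9 : (rho h.primPart p : ℝ) ≤ 2 * rho f p := by exact_mod_cast h7
          rw [mul_div_assoc']
          apply div_le_div_of_nonneg_right _ (Nat.cast_nonneg _)
          linarith
    have h5 := sum_le_sum h4
    rw [sum_add_distrib, sum_add_distrib, ← mul_sum, ← sum_filter, ← sum_filter] at h5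
    have h6 : ((Icc 1 y).filter Nat.Prime).filter (fun p => p ∈ PM n y) = PM n y := by
      ext p
      rw [mem_filter, mem_filter]
      constructor
      · exact fun h => h.2
      · intro h
        unfold PM at h
        exact ⟨⟨(mem_filter.1 h).1, (mem_filter.1 h).2.1⟩, by unfold PM; exact h⟩
    have h7 : ((Icc 1 y).filter Nat.Prime).filter (fun p => p ∈ Icc 1 B) ⊆ Icc 1 B :=
      fun p hp => (mem_filter.1 hp).2
    have h8 := sum_le_sum_of_subset_of_nonneg h7
      (f := fun p => (rho h.primPart p : ℝ) / p) (fun p _ _ => by positivity)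
    rw [h6] at h5
    unfold Sg SS
    rw [hPR]
    linarith
  linarith

/-- the multiplicity of a divisor of the separable part -/
lemma mult_odd {D G g f : ℤ[X]} {c : ℤ} (hD : D ≠ 0) (hc : c ≠ 0) (hg : g ≠ 0) (hsep : Sep G)
    (hcg : C (c ^ 2) * D = g ^ 2 * G) (hf1 : Irreducible f) (hf2 : 0 < f.natDegree)
    (hfG : f ∣ G) : Odd (multiplicity f D) := by
  have hpr : Prime f := irreducible_iff_prime.1 hf1
  have hfin : FiniteMultiplicity f D := FiniteMultiplicity.of_not_isUnit hf1.not_isUnit hD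
  have hG : G ≠ 0 := by
    rintro rfl
    rw [mul_zero] at hcg
    exact mul_ne_zero (C_ne_zero.2 (pow_ne_zero 2 hc)) hD hcg
  have hfinG : FiniteMultiplicity f G := FiniteMultiplicity.of_not_isUnit hf1.not_isUnit hG
  have h1 : emultiplicity f (C (c ^ 2) * D) = emultiplicity f (g ^ 2 * G) := by rw [hcg]
  rw [emultiplicity_mul hpr, emultiplicity_mul hpr, emultiplicity_pow hpr] at h1
  have hconst : ∀ a : ℤ, a ≠ 0 → ¬ f ∣ C a := by
    intro a ha h3
    have h4 := natDegree_le_of_dvd h3 (C_ne_zero.2 ha)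
    rw [natDegree_C] at h4
    omega
  have h2 : emultiplicity f (C (c ^ 2)) = 0 := by
    rw [emultiplicity_eq_zero]
    exact hconst _ (pow_ne_zero 2 hc)
  have hfg : FiniteMultiplicity f g := FiniteMultiplicity.of_not_isUnit hf1.not_isUnit hg
  have h3 : multiplicity f G = 1 := by
    have h4 : 1 ≤ multiplicity f G := by
      rw [← hfinG.pow_dvd_iff_le_multiplicity, pow_one]
      exact hfG
    have h5 : ¬ 2 ≤ multiplicity f G := by
      rw [← hfinG.pow_dvd_iff_le_multiplicity]
      rintro ⟨w, hw⟩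
      obtain ⟨N, hN, U, V, hUV⟩ := hsep
      apply hconst N hN
      rw [← hUV, hw]
      have e : derivative (f ^ 2 * w) = f * (2 * derivative f * w + f * derivative w) := by
        rw [derivative_mul, derivative_pow]
        simp
        ring
      rw [e]
      exact ⟨U * (f * w) + V * (2 * derivative f * w + f * derivative w), by ring⟩
    omega
  rw [h2, zero_add, hfin.emultiplicity_eq_multiplicity, hfg.emultiplicity_eq_multiplicity,
    hfinG.emultiplicity_eq_multiplicity, h3] at h1
  have h4 : multiplicity f D = 2 * multiplicity f g + 1 := by exact_mod_cast h1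
  rw [h4]
  exact ⟨_, rfl⟩

/-- the upper bound for the separable part -/
theorem mert_up {n : ℤ} (hn : ∀ q : ℚ, q ^ 2 ≠ n) {D G g : ℤ[X]} {c : ℤ} (hD : D ≠ 0)
    (hc : c ≠ 0) (hg : g ≠ 0) (hG : G ≠ 0) (hsep : Sep G) (hcg : C (c ^ 2) * D = g ^ 2 * G)
    (S : Finset ℤ[X]) (hS : ∀ f ∈ S, Irreducible f ∧ 0 < f.natDegree ∧
      Irreducible (f.map (Int.castRingHom (QF n))))
    (hcpl : ∀ f : ℤ[X], Irreducible f → 0 < f.natDegree → Odd (multiplicity f D) →
      Irreducible (f.map (Int.castRingHom (QF n))) → ∃ g ∈ S, Associated f g) :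
    ∃ C : ℝ, ∀ y : ℕ, 3 ≤ y → SS G (PM n y) ≤ (S.card : ℝ) / 2 * Real.log (Real.log y) + C := by
  classical
  have : Fact (∀ q : ℚ, q ^ 2 ≠ (n : ℚ) + 0 * q) := ⟨fun q => by
    rw [zero_mul, add_zero]
    exact hn q⟩
  have hn0 : n ≠ 0 := by
    rintro rfl
    exact hn 0 (by simp)
  -- the factors
  obtain ⟨F, hF1, hF2⟩ : ∃ F : Finset ℤ[X], (∀ f ∈ F, Irreducible f ∧ f ∣ G) ∧
      ∀ (p : ℕ) (t : ℤ), p.Prime → (p : ℤ) ∣ G.eval t → ∃ f ∈ F, (p : ℤ) ∣ f.eval t := by
    refine ⟨(UniqueFactorizationMonoid.factors G).toFinset, fun f hf => ?_, fun p t hp hpt => ?_⟩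
    · rw [Multiset.mem_toFinset] at hf
      exact ⟨UniqueFactorizationMonoid.irreducible_of_factor f hf,
        UniqueFactorizationMonoid.dvd_of_mem_factors hf⟩
    · obtain ⟨u, hu⟩ := UniqueFactorizationMonoid.factors_prod hG
      have hpi : Prime (p : ℤ) := Nat.prime_iff_prime_int.1 hp
      rw [← hu, eval_mul] at hpt
      have hunit : IsUnit ((u : ℤ[X]).eval t) := u.isUnit.map (evalRingHom t)
      have h1 := (hpi.dvd_or_dvd hpt).resolve_right
        (fun h => hpi.not_isUnit (isUnit_of_dvd_unit h hunit))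
      rw [eval_multiset_prod] at h1
      obtain ⟨a, ha, hpa⟩ := hpi.exists_mem_multiset_dvd h1
      obtain ⟨f, hf, rfl⟩ := Multiset.mem_map.1 ha
      exact ⟨f, Multiset.mem_toFinset.2 hf, hpa⟩
  -- the other factors
  have hoth : ∀ f : ℤ[X], ∃ B : ℕ, f ∈ F → (¬ ∃ g ∈ S, Associated f g) →
      ∀ p : ℕ, p.Prime → B < p → ¬ (p : ℤ) ∣ n → ¬ lu p n = 1 → rho f p = 0 := by
    intro f
    by_cases hf : f ∈ F
    swap
    · exact ⟨0, fun h => absurd h hf⟩
    by_cases hex : ∃ g ∈ S, Associated f g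
    · exact ⟨0, fun _ h => absurd hex h⟩
    obtain ⟨hfi, hfG⟩ := hF1 f hf
    rcases Nat.eq_zero_or_pos f.natDegree with hd | hd
    · obtain ⟨a, rfl⟩ := natDegree_eq_zero.1 hd
      have ha : a ≠ 0 := by
        rintro rfl
        exact hfi.ne_zero C_0
      refine ⟨a.natAbs, fun _ _ p hp hB _ _ => ?_⟩
      unfold rho
      rw [card_eq_zero, filter_eq_empty_iff]
      intro x _ hx
      rw [eval_C] at hx
      have := Nat.le_of_dvd (Int.natAbs_pos.2 ha) (Int.natCast_dvd.1 hx)
      omega
    · have hred : ¬ Irreducible (f.map (Int.castRingHom (QF n))) := fun h =>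
        hex (hcpl f hfi hd (mult_odd hD hc hg hsep hcg hfi hd hfG) h)
      obtain ⟨B, hB⟩ := red_zero hfi hd hred
      exact ⟨B, fun _ _ => hB⟩
  choose Bf hBf using hoth
  have hup : ∀ f : ℤ[X], ∃ C : ℝ, f ∈ S → ∀ y : ℕ, 3 ≤ y →
      SS f (PM n y) ≤ 1 / 2 * Real.log (Real.log y) + C := by
    intro f
    by_cases hf : f ∈ S
    · obtain ⟨C, hC⟩ := mert_plus hn (hS f hf).1 (hS f hf).2.2 (hS f hf).2.1
      exact ⟨C, fun _ => hC⟩
    · exact ⟨0, fun h => absurd h hf⟩
  choose Cf hCf using hup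
  set B := ∑ f ∈ F, Bf f + n.natAbs with hB
  set T0 : ℝ := ∑ p ∈ Icc 1 B, (rho G p : ℝ) / p with hT0
  refine ⟨∑ f ∈ S, Cf f + T0, fun y hy => ?_⟩
  have key : ∀ p ∈ PM n y, (rho G p : ℝ) / p ≤ ∑ f ∈ S, (rho f p : ℝ) / p +
      (if p ∈ Icc 1 B then (rho G p : ℝ) / p else 0) := by
    intro p hp
    unfold PM at hp
    rw [mem_filter] at hp
    have hpp := hp.2.1
    by_cases h5 : p ∈ Icc 1 B
    · rw [if_pos h5]
      have : (0 : ℝ) ≤ ∑ f ∈ S, (rho f p : ℝ) / p := by positivity
      linarith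
    · rw [if_neg h5, add_zero, ← sum_div]
      apply div_le_div_of_nonneg_right _ (Nat.cast_nonneg _)
      have hpB : B < p := by
        rw [mem_Icc, not_and] at h5
        exact not_le.1 (h5 hpp.one_lt.le)
      have hpn : ¬ (p : ℤ) ∣ n := by
        intro h7
        have := Nat.le_of_dvd (Int.natAbs_pos.2 hn0) (Int.natCast_dvd.1 h7)
        omega
      have hsub : (range p).filter (fun a : ℕ => (p : ℤ) ∣ G.eval (a : ℤ)) ⊆
          S.biUnion (fun f => (range p).filter (fun a : ℕ => (p : ℤ) ∣ f.eval (a : ℤ))) := by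
        intro a ha
        rw [mem_filter] at ha
        obtain ⟨f, hf, hpf⟩ := hF2 p a hpp ha.2
        by_cases hex : ∃ g ∈ S, Associated f g
        · obtain ⟨g', hg', hass⟩ := hex
          refine mem_biUnion.2 ⟨g', hg', mem_filter.2 ⟨ha.1, hpf.trans ?_⟩⟩
          obtain ⟨w, hw⟩ := hass.dvd
          rw [hw, eval_mul]
          exact dvd_mul_right _ _
        · exfalso
          have h6 : Bf f ≤ ∑ f ∈ F, Bf f := single_le_sum (fun _ _ => Nat.zero_le _) hf
          have h7 := hBf f hf hex p hpp (by omega) hpn hp.2.2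
          unfold rho at h7
          rw [card_eq_zero, filter_eq_empty_iff] at h7
          exact h7 ha.1 hpf
      have h8 : rho G p ≤ ∑ f ∈ S, rho f p := (card_le_card hsub).trans card_biUnion_le
      exact_mod_cast h8
  have h2 : SS G (PM n y) ≤ ∑ f ∈ S, SS f (PM n y) + T0 := by
    unfold SS
    refine (sum_le_sum key).trans ?_
    rw [sum_add_distrib, sum_comm, ← sum_filter]
    have h5 : (PM n y).filter (fun p => p ∈ Icc 1 B) ⊆ Icc 1 B := fun p hp => (mem_filter.1 hp).2
    have h6 := sum_le_sum_of_subset_of_nonneg h5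
      (f := fun p => (rho G p : ℝ) / p) (fun p _ _ => by positivity)
    exact add_le_add le_rfl h6
  have h3 : ∑ f ∈ S, SS f (PM n y) ≤ ∑ f ∈ S, (1 / 2 * Real.log (Real.log y) + Cf f) :=
    sum_le_sum fun f hf => hCf f hf y hy
  rw [sum_add_distrib, sum_const, nsmul_eq_mul] at h3
  linarith

end Pool.Agent.U409.GL
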