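import Pool.Agent.U409.GL.Desc6

/-!
# All the moments of the number of the pairs are bounded
-/

set_option autoImplicit false

namespace Pool.Agent.U409.GL

open Finset Polynomial Pool.Agent.W262.RK Pool.Agent.U214.PT
open Pool.Agent.W307.RT (S1 S2)
open Pool.Agent.W262.SH (LocSol SelS)
open Pool.Agent.U409.SH (locl')
open Pool.Agent.U409.HP (locSol_sq locSol_sq')

/-- the number of the pairs -/
noncomputable def su (A B : ℤ) : ℕ := (SU A B).ncard

/-- the bound -/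
lemma suP {a b : ℤ} {z y X k e : ℕ} (hB : Bab a b z) (ha : a ≠ 0) (hb : b ≠ 0) (hab : a ≠ b)
    {F : ℤ} (h0 : F ≠ 0) (hF : F.natAbs ≤ X ^ e) (he : 1 ≤ e) (hy : 1 ≤ y)
    (hk : X < (y + 1) ^ k) :
    (SU (a * F) (b * F)).Finite ∧ su (a * F) (b * F) ≤
      4 ^ (z + 2) * (4 ^ e) ^ k * 4 ^ (t2 z y F).primeFactors.card *
        NL (t1 z y F) (LLs c3 (kab a b) (fun _ => t1 z y F) (ngs F (t1 z y F))) := by
  have hz2 := hB.1
  have hmd : t1 z y F ∣ PP z y := Nat.dvd_of_mem_divisors (t1_mem F)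
  have hPSof : ∀ p : ℕ, p.Prime → p ∣ t1 z y F → p ∈ PS z y := fun p hp h =>
    (prime_dvd_PP hp).1 (h.trans hmd)
  have hnκ : ∀ p : ℕ, p.Prime → p ∣ t1 z y F → ∀ j k, ¬ (p : ℤ) ∣ kab a b j k := by
    intro p hp h j k
    exact kab_nd hB hp (mem_PS.1 (hPSof p hp h)).1.1 j k
  have hodd : ∀ p : ℕ, p.Prime → p ∣ t1 z y F → p ≠ 2 := by
    intro p hp h
    have h1 := (mem_PS.1 (hPSof p hp h)).1.1
    omega
  have hA : a * F ≠ 0 := mul_ne_zero ha h0
  have hB' : b * F ≠ 0 := mul_ne_zero hb h0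
  have hAB : a * F ≠ b * F := fun h => hab (mul_right_cancel₀ h0 h)
  obtain ⟨hfin, hd⟩ := desc6 (t1 z y F)
    (LLs c3 (kab a b) (fun _ => t1 z y F) (ngs F (t1 z y F)))
    (a * F) (b * F) hA hB' hAB
    ((PP_squarefree z y).squarefree_of_dvd hmd)
    (fun p hp hpd => ⟨fun j hj => (Pool.Agent.W342.RK2.xcl _ _ _ p hp (hodd p hp hpd)
        (hnκ p hp hpd j)).1,
      fun a1 b1 c1 d1 a2 b2 c2 d2 e1 e2 j hj =>
        (Pool.Agent.W342.RK2.xcl _ _ _ p hp (hodd p hp hpd) (hnκ p hp hpd j)).2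
          a1 b1 c1 d1 a2 b2 c2 d2 (e1 j hj) (e2 j hj)⟩)
    (fun p hp hpd e1 e2 he1 he2 hsol j hj => by
      have hpp : p.Prime := Fact.out
      have hjs := (dvd_t1 hpp).1 hpd
      have hzp := (mem_PS.1 hjs.1).1.1
      refine locl' 3 (kab a b j) _ p _ _ (hodd p hpp hpd)
        (hnκ p hpp hpd j) (locP hB hpp hzp hjs.2.1 hjs.2.2 ?_) e1 e2 he1 he2 hsol
      rw [decide_eq_true_eq]
      unfold ngs
      rw [mem_filter, Nat.mem_primeFactors]
      constructor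
      · exact fun h => h.2
      · intro h5
        exact ⟨⟨hpp, hpd, dv_ne_zero (t1_mem F)⟩, h5⟩)
    (by
      rw [← Nat.not_even_iff_odd, even_iff_two_dvd]
      intro h
      exact hodd 2 Nat.prime_two h rfl)
    (fun p hp hpd hU => by
      have : Fact p.Prime := ⟨hp⟩
      have hjs := (dvd_t1 hp).1 hpd
      have hzp := (mem_PS.1 hjs.1).1.1
      have hpb := (hB.2 p hp hzp).2.1
      have h1 := hU.2.2
      rw [padicValInt.mul hb h0, padicValInt.eq_zero_of_not_dvd hpb, zero_add] at h1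
      obtain ⟨F', hF'⟩ := hjs.2.1
      have hF0 : F' ≠ 0 := by
        rintro rfl
        exact h0 (by rw [hF', mul_zero])
      have hpF : ¬ (p : ℤ) ∣ F' := by
        intro h
        apply hjs.2.2
        rw [hF', pow_two]
        exact mul_dvd_mul_left _ h
      rw [hF', padicValInt.mul (by exact_mod_cast hp.ne_zero) hF0,
        padicValInt.eq_zero_of_not_dvd hpF, padicValInt.self hp.one_lt] at h1
      exact absurd h1 (by decide))
  refine ⟨hfin, hd.trans (Nat.mul_le_mul_right _ ?_)⟩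
  have hc := badP hB h0 hF he hy hk
  calc 4 ^ (((2 * (a * F) * (b * F) * (a * F - b * F)).natAbs.primeFactors.filter
        (fun q => ¬ q ∣ t1 z y F)).card + 2)
      ≤ 4 ^ ((z + 2) + e * k + (t2 z y F).primeFactors.card) :=
        Nat.pow_le_pow_right (by norm_num) (by omega)
    _ = _ := by
        rw [pow_add, pow_add, pow_mul]

lemma unr_sq {p : ℕ} [hp : Fact p.Prime] {A B u : ℤ} (hA : A ≠ 0) (hB : B ≠ 0) (hAB : A ≠ B)
    (hu : u ≠ 0) : UnrP p (u ^ 2 * A) (u ^ 2 * B) ↔ UnrP p A B := by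
  unfold UnrP
  have hu2 : u ^ 2 ≠ 0 := pow_ne_zero 2 hu
  have e : u ^ 2 * A - u ^ 2 * B = u ^ 2 * (A - B) := by ring
  rw [e, padicValInt.mul hu2 hA, padicValInt.mul hu2 hB, padicValInt.mul hu2 (sub_ne_zero.2 hAB)]
  have h2 : padicValInt p (u ^ 2) = padicValInt p u + padicValInt p u := by
    rw [pow_two, padicValInt.mul hu hu]
  rw [h2]
  constructor
  · rintro ⟨h1, h3, h4⟩
    refine ⟨by omega, by omega, ?_⟩
    rw [Nat.even_add] at h4
    exact h4.1 ⟨_, rfl⟩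
  · rintro ⟨h1, h3, h4⟩
    exact ⟨by omega, by omega, Even.add ⟨_, rfl⟩ h4⟩

lemma su_sq {A B u : ℤ} (hA : A ≠ 0) (hB : B ≠ 0) (hAB : A ≠ B) (hu : u ≠ 0) :
    su (u ^ 2 * A) (u ^ 2 * B) = su A B := by
  unfold su
  congr 1
  ext e
  constructor
  · rintro ⟨h1, h2, h3⟩
    refine ⟨h1, h2, fun p _ hp => ?_⟩
    rcases h3 p hp with h | h
    · exact Or.inl (locSol_sq' hu h)
    · exact Or.inr ⟨(unr_sq hA hB hAB hu).1 h.1, h.2⟩
  · rintro ⟨h1, h2, h3⟩
    refine ⟨h1, h2, fun p _ hp => ?_⟩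
    rcases h3 p hp with h | h
    · exact Or.inl (locSol_sq hu h)
    · exact Or.inr ⟨(unr_sq hA hB hAB hu).2 h.1, h.2⟩

theorem su_QB : QB (fun A B => (su A B : ℝ)) where
  nn := fun _ _ => Nat.cast_nonneg _
  sq := fun hA hB hAB hu => by
    show (su _ _ : ℝ) = (su _ _ : ℝ)
    rw [su_sq hA hB hAB hu]
  bd := fun hB ha hb hab F h0 hF he hy hk => by
    have := (suP hB ha hb hab h0 hF he hy hk).2
    exact_mod_cast this

/-- all the moments are bounded -/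
theorem su_all {D : ℤ[X]} (hD : D ≠ 0) {a b : ℤ} (ha : a ≠ 0) (hb : b ≠ 0) (hab : a ≠ b)
    (r : ℕ) : ∃ C : ℝ, ∀ X : ℕ, 1 ≤ X → ∑ t ∈ Icc (-(X : ℤ)) X,
      (su (a * D.eval t) (b * D.eval t) : ℝ) ^ r ≤ C * X :=
  all_DQ su_QB hD ha hb hab r

lemma selS_sub (A B : ℤ) : SelS A B ⊆ SU A B := fun _ h =>
  ⟨h.1, h.2.1, fun p _ hp => Or.inl (h.2.2 p hp)⟩

end Pool.Agent.U409.GL
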