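import Pool.Agent.U409.GL.Rec
import Pool.Agent.U409.LS.Main
import Pool.Agent.U409.HP.Cov

/-!
# The upper bound for `Ш[2]`
-/

set_option autoImplicit false

namespace Pool.Agent.U409.GL

open Finset Polynomial
open Pool.Agent.W262.SH (LocSol SelS Sha)
open Pool.Agent.U409.LS (lu lu_eq cq Hyp Gp Gm WW PM om big_count)
open Pool.Agent.TH841.SH.D (ShaTor)
open Pool.Agent.U409.HP (ss fin_SelS)

lemma fin_SU {A B : ℤ} (hA : A ≠ 0) (hB : B ≠ 0) (hAB : A ≠ B) : (SU A B).Finite := by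
  have hno : ∀ p : ℕ, p.Prime → ¬ p ∣ 1 := fun p hp h => hp.one_lt.ne' (Nat.dvd_one.1 h)
  exact (desc6 1 (fun _ _ _ _ _ => True) A B hA hB hAB squarefree_one
    (fun p hp h => absurd h (hno p hp)) (fun p hp h => absurd h (hno p hp.out)) odd_one
    (fun p hp h => absurd h (hno p hp))).1

variable {r s d : ℤ} {G Bd : Finset ℕ}

/-- the number of the classes `c` -/
theorem cc_up (h : Hyp r s d G Bd) :
    (Cc (-(r * d + s * d)) ((r * d) * (s * d))).Finite ∧
    (Cc (-(r * d + s * d)) ((r * d) * (s * d))).ncard ≤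
      16 * 4 ^ Bd.card * 2 ^ (Gm r s G).card * su (r * d) (s * d) := by
  classical
  obtain ⟨h1, h2⟩ := cc_le h
  refine ⟨h1, h2.trans ?_⟩
  have hA : r * d ≠ 0 := mul_ne_zero h.hr h.hd
  have hB : s * d ≠ 0 := mul_ne_zero h.hs h.hd
  have hAB : r * d ≠ s * d := fun h' => h.hrs (mul_right_cancel₀ h.hd h')
  have h3 := rec_le h (fin_SU hA hB hAB)
  have h4 := dual G (Gp r s G) (fun q p => cq r d q p)
  have hGc : G.card = (Gp r s G).card + (Gm r s G).card := by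
    unfold Gp Gm
    exact (card_filter_add_card_filter_not _).symm
  rw [hGc, pow_add] at h4
  have h5 : (Kr G (Gp r s G) (fun q p => cq r d q p)).card =
      (Kr (Gp r s G) G (fun p q => cq r d q p)).card * 2 ^ (Gm r s G).card := by
    apply Nat.eq_of_mul_eq_mul_right (show 0 < 2 ^ (Gp r s G).card by positivity)
    rw [h4]
    ring
  rw [h5]
  calc 2 * 2 ^ (Bd.card + 1) * ((Kr (Gp r s G) G (fun p q => cq r d q p)).card *
        2 ^ (Gm r s G).card)
      ≤ 2 * 2 ^ (Bd.card + 1) * ((2 ^ Bd.card * 4 * su (r * d) (s * d)) *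
        2 ^ (Gm r s G).card) := by
        apply Nat.mul_le_mul_left
        exact Nat.mul_le_mul_right _ h3
    _ = _ := by
        have : (4 : ℕ) ^ Bd.card = 2 ^ Bd.card * 2 ^ Bd.card := by
          rw [← mul_pow]
          norm_num
        rw [this, pow_succ]
        ring

open scoped Classical in
/-- the upper bound for `Ш[2]` -/
theorem sha_up (h : Hyp r s d G Bd) :
    Finite (ShaTor (WW r s d) 2) ∧ Nat.card (ShaTor (WW r s d) 2) ≤
      16 * 4 ^ Bd.card * 2 ^ (Gm r s G).card * su (r * d) (s * d) ^ 2 := by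
  have hA : r * d ≠ 0 := mul_ne_zero h.hr h.hd
  have hB : s * d ≠ 0 := mul_ne_zero h.hs h.hd
  have hAB : r * d ≠ s * d := fun h' => h.hrs (mul_right_cancel₀ h.hd h')
  obtain ⟨h1, h2⟩ := cc_up h
  obtain ⟨h3, h4⟩ := sha_le hA hB hAB (fin_SelS hA hB hAB) h1
  have e : Nat.card (ShaTor (WW r s d) 2) = Nat.card {c : Sha (WW r s d) // c + c = 0} :=
    Nat.card_congr (Pool.Agent.U409.SH.torEquiv _)
  have h3' : Finite {c : Sha (WW r s d) // c + c = 0} := h3
  refine ⟨Finite.of_equiv _ (Pool.Agent.U409.SH.torEquiv (WW r s d)).symm, ?_⟩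
  rw [e]
  refine h4.trans ?_
  have h5 : (SelS (r * d) (s * d)).ncard ≤ su (r * d) (s * d) :=
    Set.ncard_le_ncard (selS_sub _ _) (fin_SU hA hB hAB)
  calc (SelS (r * d) (s * d)).ncard * (Cc (-(r * d + s * d)) (r * d * (s * d))).ncard
      ≤ su (r * d) (s * d) *
        (16 * 4 ^ Bd.card * 2 ^ (Gm r s G).card * su (r * d) (s * d)) := Nat.mul_le_mul h5 h2
    _ = _ := by ring

open scoped Classical in
/-- the upper bound for one value -/
theorem upone {r s : ℤ} (hr : r ≠ 0) (hs : s ≠ 0) (hrs : r ≠ s) {D : ℤ[X]} {z y X e k : ℕ}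
    (hz : ∀ p : ℕ, p.Prime → z < p → p ≠ 2 ∧ ¬ (p : ℤ) ∣ r ∧ ¬ (p : ℤ) ∣ s ∧ ¬ (p : ℤ) ∣ r - s)
    {t : ℤ} (hDt : D.eval t ≠ 0) (hF : (D.eval t).natAbs ≤ X ^ e) (he : 1 ≤ e)
    (hk : X < (y + 1) ^ k)
    (hsq : ¬ ∃ p : ℕ, p.Prime ∧ z < p ∧ p ≤ y ∧ (p : ℤ) ^ 2 ∣ D.eval t) :
    Finite (ShaTor (WW r s (D.eval t)) 2) ∧ Nat.card (ShaTor (WW r s (D.eval t)) 2) ≤
      16 * 4 ^ (z + k * e) * 2 ^ (om D (PM (r * s) y \ PM (r * s) z) t) *
        su (r * D.eval t) (s * D.eval t) ^ 2 := by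
  set d := D.eval t with hd
  set G : Finset ℕ := (Ioc z y).filter (fun p => p.Prime ∧ (p : ℤ) ∣ d) with hG
  set Bd : Finset ℕ := ((r * s * (r - s) * d).natAbs.primeFactors.filter
    (fun p => p ≠ 2 ∧ p ∉ G)) with hBd
  have hne : r * s * (r - s) * d ≠ 0 :=
    mul_ne_zero (mul_ne_zero (mul_ne_zero hr hs) (sub_ne_zero.2 hrs)) hDt
  have hGm : ∀ p ∈ G, p.Prime ∧ z < p ∧ p ≤ y ∧ (p : ℤ) ∣ d := by
    intro p hp
    rw [hG, mem_filter, mem_Ioc] at hp
    exact ⟨hp.2.1, hp.1.1, hp.1.2, hp.2.2⟩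
  have hyp : Hyp r s d G Bd := by
    refine ⟨hr, hs, hrs, hDt, fun p hp => (hGm p hp).1,
      fun p hp => (hz p (hGm p hp).1 (hGm p hp).2.1).1,
      fun p hp => (hz p (hGm p hp).1 (hGm p hp).2.1).2,
      fun p hp => ⟨(hGm p hp).2.2.2, fun h => hsq ⟨p, (hGm p hp).1, (hGm p hp).2.1,
        (hGm p hp).2.2.1, h⟩⟩, fun p hp => ?_, fun p hp hp2 hpd => ?_⟩
    · rw [hBd, mem_filter] at hp
      exact ⟨Nat.prime_of_mem_primeFactors hp.1, hp.2⟩
    · by_cases hpG : p ∈ G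
      · exact Or.inl hpG
      · right
        rw [hBd, mem_filter, Nat.mem_primeFactors]
        exact ⟨⟨hp, Int.natCast_dvd.1 hpd, Int.natAbs_ne_zero.2 hne⟩, hp2, hpG⟩
  obtain ⟨h0, h1⟩ := sha_up hyp
  refine ⟨h0, h1.trans ?_⟩
  have hBc : Bd.card ≤ z + k * e := by
    have h2 : Bd ⊆ Icc 1 z ∪ (d.natAbs.primeFactors.filter (fun p => y < p)) := by
      intro p hp
      rw [hBd, mem_filter, Nat.mem_primeFactors] at hp
      obtain ⟨⟨hp1, hp2, hp3⟩, hp4, hp5⟩ := hp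
      rw [mem_union, mem_Icc, mem_filter, Nat.mem_primeFactors]
      rcases Nat.lt_or_ge z p with h | h
      swap
      · exact Or.inl ⟨hp1.one_lt.le, h⟩
      · right
        obtain ⟨_, h3, h4, h5⟩ := hz p hp1 h
        have hpi : Prime (p : ℤ) := Nat.prime_iff_prime_int.1 hp1
        have hpd : (p : ℤ) ∣ d := by
          have h6 : (p : ℤ) ∣ r * s * (r - s) * d := Int.natCast_dvd.2 hp2
          rcases hpi.dvd_or_dvd h6 with h7 | h7
          · exfalso
            rcases hpi.dvd_or_dvd h7 with h8 | h8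
            · rcases hpi.dvd_or_dvd h8 with h9 | h9
              · exact h3 h9
              · exact h4 h9
            · exact h5 h8
          · exact h7
        refine ⟨⟨hp1, Int.natCast_dvd.1 hpd, Int.natAbs_ne_zero.2 hDt⟩, ?_⟩
        by_contra hcon
        apply hp5
        rw [hG, mem_filter, mem_Ioc]
        exact ⟨⟨h, not_lt.1 hcon⟩, hp1, hpd⟩
    refine (card_le_card h2).trans ((card_union_le _ _).trans ?_)
    rw [Nat.card_Icc, Nat.add_sub_cancel]
    exact Nat.add_le_add_left (big_count hDt hF he hk) z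
  have hom : (Gm r s G).card ≤ om D (PM (r * s) y \ PM (r * s) z) t := by
    unfold om
    refine card_le_card fun p hp => ?_
    unfold Gm at hp
    rw [mem_filter, hG, mem_filter, mem_Ioc] at hp
    unfold PM
    rw [mem_filter, mem_sdiff, mem_filter, mem_filter, mem_Icc, mem_Icc]
    obtain ⟨⟨⟨h1, h2⟩, h3, h4⟩, h5⟩ := hp
    exact ⟨⟨⟨⟨h3.one_lt.le, h2⟩, h3, h5⟩, fun h6 => absurd h6.1.2 (by omega)⟩, h4⟩
  gcongr
  · norm_num
  · norm_num

end Pool.Agent.U409.GL
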