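import Pool.Agent.U409.GL.Core
import Pool.Agent.U409.GL.Up
import Pool.Agent.U409.GL.MertG
import Pool.Agent.U409.LS.Fact
import Pool.Agent.U409.GL.SUQ

/-!
# The Gaussian law of `Ш[2]`
-/

set_option autoImplicit false

namespace Pool.Agent.U409.GL

open Finset Polynomial Filter Topology ProbabilityTheory
open Pool.Agent.H474R2.PG (rho)
open Pool.Agent.U214.PT (Pg Sep pg_wt sep_sq)
open Pool.Agent.W262.SH (E)
open Pool.Agent.TH841.SH.D (ShaTor rk)
open Pool.Agent.U409.SH (qq)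
open Pool.Agent.U409.LS (om SS rt8 rt8_le lt_rt8 rt8_tendsto lu PM WW one rk_le scale QF mert_fac)

lemma QQ_PM (n : ℤ) (z y : ℕ) : QQ (fun p => ¬ lu p n = 1) z y = PM n y \ PM n z := by
  classical
  ext p
  unfold PM
  rw [mem_QQ, Finset.mem_sdiff, mem_filter, mem_filter, mem_Icc, mem_Icc]
  constructor
  · rintro ⟨⟨h1, h2⟩, h3, h4⟩
    exact ⟨⟨⟨h3.one_lt.le, h2⟩, h3, h4⟩, fun h => absurd h.1.2 (not_le.2 h1)⟩
  · rintro ⟨⟨⟨h1, h2⟩, h3, h4⟩, h5⟩
    refine ⟨⟨?_, h2⟩, h3, h4⟩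
    by_contra hcon
    exact h5 ⟨⟨h1, not_lt.1 hcon⟩, h3, h4⟩

lemma SS_QQ (G : ℤ[X]) (n : ℤ) (z y : ℕ) :
    SS G (QQ (fun p => ¬ lu p n = 1) z y) ≤ SS G (PM n y) ∧
    SS G (PM n y) ≤ SS G (QQ (fun p => ¬ lu p n = 1) z y) + SS G (PM n z) := by
  rw [QQ_PM]
  unfold SS
  constructor
  · exact sum_le_sum_of_subset_of_nonneg sdiff_subset fun p _ _ => by positivity
  · have h3 : ∑ p ∈ PM n y, (rho G p : ℝ) / p ≤
          ∑ p ∈ (PM n y \ PM n z) ∪ PM n z, (rho G p : ℝ) / p := by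
        refine sum_le_sum_of_subset_of_nonneg ?_ fun p _ _ => by positivity
        rw [sdiff_union_self_eq_union]
        exact subset_union_left
    rw [sum_union sdiff_disjoint] at h3
    exact h3

lemma Pg.mono {f : ℤ[X]} {d z z' : ℕ} (h : Pg f d z) (hz : z ≤ z') : Pg f d z' :=
  ⟨h.zd.trans hz, fun p hp hzp => h.rho p hp (by omega), fun p hp hzp => h.der p hp (by omega)⟩

/-- the comparison of the logarithms -/
lemma log_cmp {n o : ℕ} {A1 A2 : ℝ} (hn : 0 < n) (h1 : 1 ≤ A1) (h2 : 1 ≤ A2)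
    (hl : (2 : ℝ) ^ o ≤ A1 * n) (hu : (n : ℝ) ≤ A2 * 2 ^ o) :
    |Real.logb 2 n - o| ≤ Real.logb 2 A1 + Real.logb 2 A2 := by
  have hnr : (0 : ℝ) < n := by exact_mod_cast hn
  have b1 : 0 ≤ Real.logb 2 A1 := Real.logb_nonneg (by norm_num) h1
  have b2 : 0 ≤ Real.logb 2 A2 := Real.logb_nonneg (by norm_num) h2
  have e1 : (o : ℝ) ≤ Real.logb 2 A1 + Real.logb 2 n := by
    rw [← Real.logb_mul (by positivity) hnr.ne']
    have := Real.logb_le_logb_of_le (b := 2) (by norm_num) (by positivity) hl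
    rwa [Real.logb_pow, Real.logb_self_eq_one (by norm_num), mul_one] at this
  have e2 : Real.logb 2 n ≤ Real.logb 2 A2 + o := by
    have := Real.logb_le_logb_of_le (b := 2) (by norm_num) hnr hu
    rwa [Real.logb_mul (by positivity) (by positivity), Real.logb_pow,
      Real.logb_self_eq_one (by norm_num), mul_one] at this
  rw [abs_le]
  constructor <;> linarith

open scoped Classical in
/-- the factors of odd multiplicity divide the separable part -/
lemma dv_sep {D G g : ℤ[X]} {c : ℤ} (hD : D ≠ 0) (hc : c ≠ 0) (hg : g ≠ 0)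
    (hcg : C (c ^ 2) * D = g ^ 2 * G) {f : ℤ[X]} (hf1 : Irreducible f) (hf2 : 0 < f.natDegree)
    (hf3 : Odd (multiplicity f D)) : f ∣ G := by
  have hpr : Prime f := irreducible_iff_prime.1 hf1
  by_contra hnd
  have hfin : FiniteMultiplicity f D :=
    FiniteMultiplicity.of_not_isUnit hf1.not_isUnit hD
  have h1 : emultiplicity f (C (c ^ 2) * D) = emultiplicity f (g ^ 2 * G) := by rw [hcg]
  rw [emultiplicity_mul hpr, emultiplicity_mul hpr, emultiplicity_pow hpr] at h1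
  have h2 : emultiplicity f (C (c ^ 2)) = 0 := by
    rw [emultiplicity_eq_zero]
    intro h3
    have h4 := natDegree_le_of_dvd h3 (by
      rw [Ne, C_eq_zero]
      exact pow_ne_zero 2 hc)
    rw [natDegree_C] at h4
    omega
  have h3 : emultiplicity f G = 0 := by
    rw [emultiplicity_eq_zero]
    exact hnd
  have hfg : FiniteMultiplicity f g := FiniteMultiplicity.of_not_isUnit hf1.not_isUnit hg
  rw [h2, h3, zero_add, add_zero, hfin.emultiplicity_eq_multiplicity,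
    hfg.emultiplicity_eq_multiplicity] at h1
  have h4 : multiplicity f D = 2 * multiplicity f g := by exact_mod_cast h1
  rw [h4] at hf3
  exact (Nat.not_odd_iff_even.2 (even_two_mul _)) hf3

open scoped Classical in
/-- **the Gaussian law of `Ш[2]`** -/
theorem gauss_sha {r s : ℤ} (hr : r ≠ 0) (hs : s ≠ 0) (hrs : r ≠ s)
    (hn : ∀ q : ℚ, q ^ 2 ≠ ((r * s : ℤ) : ℚ)) {D : ℤ[X]} (hD : D ≠ 0) (S : Finset ℤ[X])
    (hS0 : S.Nonempty)
    (hS : ∀ f ∈ S, Irreducible f ∧ 0 < f.natDegree ∧ Odd (multiplicity f D) ∧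
      Irreducible (f.map (Int.castRingHom (QF (r * s)))))
    (hSn : ∀ f ∈ S, ∀ g ∈ S, f ≠ g → ¬ Associated f g)
    (hcpl : ∀ f : ℤ[X], Irreducible f → 0 < f.natDegree → Odd (multiplicity f D) →
      Irreducible (f.map (Int.castRingHom (QF (r * s)))) → ∃ g ∈ S, Associated f g) (a : ℝ) :
    Tendsto (fun X : ℕ => (((Icc (-(X : ℤ)) X).filter (fun t =>
      (Real.logb 2 (Nat.card (ShaTor (WW r s (D.eval t)) 2)) -
        (S.card : ℝ) / 2 * Real.log (Real.log X)) /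
        Real.sqrt ((S.card : ℝ) / 2 * Real.log (Real.log X)) ≤ a)).card : ℝ) / (2 * X + 1)) atTop
      (𝓝 ((gaussianReal 0 1).real (Set.Iic a))) := by
  obtain ⟨c, g, G, hc, hg, hG, hsep, hcg⟩ := sep_sq D.natDegree D rfl hD
  have hdv : ∀ f ∈ S, f ∣ G := fun f hf =>
    dv_sep hD hc hg hcg (hS f hf).1 (hS f hf).2.1 (hS f hf).2.2.1
  have hSi : ∀ f ∈ S, 0 < f.natDegree ∧ Irreducible (f.map (Int.castRingHom (QF (r * s)))) :=
    fun f hf => ⟨(hS f hf).2.1, (hS f hf).2.2.2⟩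
  obtain ⟨C1, hC1⟩ := mert_fac hn hsep S (fun f hf => (hS f hf).1) hdv hSn hSi
  obtain ⟨C2, hC2⟩ := mert_up hn hD hc hg hG hsep hcg S
    (fun f hf => ⟨(hS f hf).1, (hS f hf).2.1, (hS f hf).2.2.2⟩) hcpl
  have hκ : (0 : ℝ) < (S.card : ℝ) / 2 := by
    have := hS0.card_pos
    positivity
  have hGd : 0 < G.natDegree := by
    obtain ⟨f, hf⟩ := hS0
    exact lt_of_lt_of_le (hS f hf).2.1 (natDegree_le_of_dvd (hdv f hf) hG)
  obtain ⟨z1, -, -, hPg1, -, -⟩ := pg_wt hsep hGd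
  obtain ⟨K, hK1, hK⟩ := Pool.Agent.H474R2.GE.eval_bound G
  set n : ℤ := r * s with hnd
  set z0 : ℕ := z1 + 2 + r.natAbs + s.natAbs with hz0
  have hPg : Pg G G.natDegree z0 := Pg.mono hPg1 (by omega)
  have hzp : ∀ z : ℕ, z0 ≤ z → ∀ p : ℕ, p.Prime → z < p → p ≠ 2 ∧ ¬ (p : ℤ) ∣ r ∧ ¬ (p : ℤ) ∣ s ∧
      ¬ (p : ℤ) ∣ r - s := by
    intro z hz p hp hzp
    have hnd : ∀ m : ℤ, m ≠ 0 → m.natAbs ≤ r.natAbs + s.natAbs → ¬ (p : ℤ) ∣ m := by
      intro m hm hle h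
      have := Nat.le_of_dvd (Int.natAbs_pos.2 hm) (Int.natCast_dvd.1 h)
      omega
    exact ⟨by omega, hnd r hr (by omega), hnd s hs (by omega),
      hnd (r - s) (sub_ne_zero.2 hrs) (Int.natAbs_sub_le r s)⟩
  set C' : ℝ := |C1| + |C2| + SS G (PM n z0) with hC'
  have hSz : 0 ≤ SS G (PM n z0) := sum_nonneg fun p _ => by positivity
  have hM : ∀ y : ℕ, 3 ≤ y → |SS G (QQ (fun p => ¬ lu p n = 1) z0 y) -
      (S.card : ℝ) / 2 * Real.log (Real.log y)| ≤ C' := by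
    intro y hy
    obtain ⟨h1, h2⟩ := SS_QQ G n z0 y
    have h3 := hC1 y hy
    have h4 := hC2 y hy
    have h5 := le_abs_self C1
    have h6 := le_abs_self C2
    have h7 := abs_nonneg C1
    have h8 := abs_nonneg C2
    rw [abs_le]
    constructor <;> linarith
  -- the bounded quantities
  set Q : ℤ → ℝ := fun t => (qq (r * G.eval t) (s * G.eval t) : ℝ) +
    (su (r * G.eval t) (s * G.eval t) : ℝ) with hQ
  have hQ0 : ∀ t, 0 ≤ Q t := fun t => by rw [hQ]; positivity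
  have hQm : ∃ C : ℝ, ∀ X : ℕ, 1 ≤ X → ∑ t ∈ Icc (-(X : ℤ)) X, Q t ≤ C * X := by
    obtain ⟨C3, hC3⟩ := Pool.Agent.U214.PT.all_DQ Pool.Agent.U214.PT.qq_QB hG hr hs hrs 1
    obtain ⟨C4, hC4⟩ := su_all hG hr hs hrs 1
    refine ⟨C3 + C4, fun X hX => ?_⟩
    have h1 := hC3 X hX
    have h2 := hC4 X hX
    simp only [pow_one] at h1 h2
    rw [hQ, sum_add_distrib, add_mul]
    exact add_le_add h1 h2
  set Z : Finset ℤ := G.roots.toFinset ∪ g.roots.toFinset with hZ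
  have key := gauss_core hPg (fun p => ¬ lu p n = 1) hκ hM Q hQ0 hQm Z
    (fun t => Real.logb 2 (Nat.card (ShaTor (WW r s (D.eval t)) 2))) ?_ a
  · exact key
  intro z T hz
  set e := G.natDegree + 1 with he
  set A1 : ℝ := 24 * 2 ^ (z + 8 * e) * (T + 1) with hA1
  set A2 : ℝ := 16 * 4 ^ (z + 8 * e) * (T + 1) ^ 2 with hA2
  have hT1 : (1 : ℝ) ≤ T + 1 := by
    have : (0 : ℝ) ≤ T := Nat.cast_nonneg _
    linarith
  have hA1' : 1 ≤ A1 := by
    have h1 : (1 : ℝ) ≤ 2 ^ (z + 8 * e) := one_le_pow₀ (by norm_num)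
    have h2 : (1 : ℝ) ≤ 24 * 2 ^ (z + 8 * e) := by linarith
    rw [hA1]
    exact one_le_mul_of_one_le_of_one_le h2 hT1
  have hA2' : 1 ≤ A2 := by
    have h1 : (1 : ℝ) ≤ 4 ^ (z + 8 * e) := one_le_pow₀ (by norm_num)
    have h2 : (1 : ℝ) ≤ 16 * 4 ^ (z + 8 * e) := by linarith
    rw [hA2]
    exact one_le_mul_of_one_le_of_one_le h2 (one_le_pow₀ hT1)
  refine ⟨Real.logb 2 A1 + Real.logb 2 A2, ?_⟩
  filter_upwards [eventually_ge_atTop 1, (tendsto_natCast_atTop_atTop (R := ℝ)).eventually_ge_atTop K]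
    with X hX1 hXK t htI htZ hQt hsq
  rw [hZ, mem_union, not_or, Multiset.mem_toFinset, Multiset.mem_toFinset, mem_roots hG,
    mem_roots hg] at htZ
  obtain ⟨hGt, hgt⟩ := htZ
  have hGt' : G.eval t ≠ 0 := hGt
  have hgt' : g.eval t ≠ 0 := hgt
  have hXr : (1 : ℝ) ≤ X := by exact_mod_cast hX1
  have h2 := congrArg (eval t) hcg
  rw [eval_mul, eval_mul, eval_C, eval_pow] at h2
  have hDt : D.eval t ≠ 0 := by
    intro h0
    rw [h0, mul_zero] at h2
    exact (mul_ne_zero (pow_ne_zero 2 hgt') hGt') h2.symm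
  have hsc : ENat.card (ShaTor (WW r s (D.eval t)) 2) = ENat.card (ShaTor (WW r s (G.eval t)) 2) := by
    rw [← scale hr hs hrs hDt hc, h2, scale hr hs hrs hGt' hgt']
  have hF : (G.eval t).natAbs ≤ X ^ e := by
    have h1 := hK t X hXr (by
      rw [mem_Icc] at htI
      rw [abs_le]
      constructor
      · exact_mod_cast htI.1
      · exact_mod_cast htI.2)
    have h3 : (((G.eval t).natAbs : ℕ) : ℝ) ≤ (X : ℝ) ^ e := by
      rw [Nat.cast_natAbs, Int.cast_abs]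
      refine h1.trans ?_
      rw [he, pow_succ, mul_comm ((X : ℝ) ^ G.natDegree)]
      exact mul_le_mul_of_nonneg_right hXK (by positivity)
    exact_mod_cast h3
  have hlow := one hr hs hrs (hzp z hz) hGt' hF (by omega) (lt_rt8 X) hsq
  obtain ⟨hfin, hup⟩ := upone hr hs hrs (hzp z hz) hGt' hF (by omega) (lt_rt8 X) hsq
  rw [QQ_PM]
  set N := Nat.card (ShaTor (WW r s (G.eval t)) 2) with hN
  have hNe : ENat.card (ShaTor (WW r s (G.eval t)) 2) = N := ENat.card_eq_coe_natCard _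
  have hND : Nat.card (ShaTor (WW r s (D.eval t)) 2) = N := by
    have h1 := hsc.trans hNe
    have hfD : Finite (ShaTor (WW r s (D.eval t)) 2) := by
      rw [← ENat.card_lt_top, h1]
      exact ENat.coe_lt_top _
    rw [ENat.card_eq_coe_natCard] at h1
    exact_mod_cast h1
  have hN0 : 0 < N := by
    have h1 : Nonempty (ShaTor (WW r s (G.eval t)) 2) := by
      by_contra hcon
      rw [not_nonempty_iff] at hcon
      have h3 : ENat.card (ShaTor (WW r s (G.eval t)) 2) = 0 := ENat.card_eq_zero_iff_empty _ |>.2 hcon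
      rw [h3, mul_zero] at hlow
      have h4 : (2 ^ (om G (PM n (rt8 X) \ PM n z) t) : ℕ) = 0 := by
        exact_mod_cast le_antisymm hlow bot_le
      exact absurd h4 (by positivity)
    exact Nat.card_pos
  rw [hND]
  rw [hNe] at hlow
  have hqq0 : (0 : ℝ) ≤ (qq (r * G.eval t) (s * G.eval t) : ℝ) := Nat.cast_nonneg _
  have hsu0 : (0 : ℝ) ≤ (su (r * G.eval t) (s * G.eval t) : ℝ) := Nat.cast_nonneg _
  have hQt' : (qq (r * G.eval t) (s * G.eval t) : ℝ) + (su (r * G.eval t) (s * G.eval t) : ℝ) ≤ T :=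
    hQt
  have hrk : (2 : ℝ) ^ rk (E (r * G.eval t) (s * G.eval t)) ≤ T + 1 := by
    have h3 : (2 : ℝ) ^ rk (E (r * G.eval t) (s * G.eval t)) ≤
        (qq (r * G.eval t) (s * G.eval t) : ℝ) := by
      exact_mod_cast rk_le (mul_ne_zero hr hGt') (mul_ne_zero hs hGt')
        (fun e => hrs (mul_right_cancel₀ hGt' e))
    linarith
  apply log_cmp hN0 hA1' hA2'
  · have h6 : (2 : ℝ) ^ (om G (PM n (rt8 X) \ PM n z) t) ≤
        24 * 2 ^ (z + 8 * e) * 2 ^ rk (E (r * G.eval t) (s * G.eval t)) * N := by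
      exact_mod_cast hlow
    refine h6.trans ?_
    rw [hA1]
    gcongr
  · have h6 : (N : ℝ) ≤ 16 * 4 ^ (z + 8 * e) * 2 ^ (om G (PM n (rt8 X) \ PM n z) t) *
        (su (r * G.eval t) (s * G.eval t) : ℝ) ^ 2 := by
      exact_mod_cast hup
    refine h6.trans ?_
    rw [hA2]
    have h7 : (su (r * G.eval t) (s * G.eval t) : ℝ) ^ 2 ≤ (T + 1) ^ 2 :=
      pow_le_pow_left₀ hsu0 (by linarith) 2
    calc 16 * 4 ^ (z + 8 * e) * 2 ^ (om G (PM n (rt8 X) \ PM n z) t) *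
        (su (r * G.eval t) (s * G.eval t) : ℝ) ^ 2 ≤
        16 * 4 ^ (z + 8 * e) * 2 ^ (om G (PM n (rt8 X) \ PM n z) t) * (T + 1) ^ 2 :=
          mul_le_mul_of_nonneg_left h7 (by positivity)
      _ = _ := by ring

end Pool.Agent.U409.GL
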