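import Pool.Agent.U409.GL.Glo
import Pool.Agent.U409.LS.Loc

/-!
# The conditions at the primes of bad reduction
-/

set_option autoImplicit false

namespace Pool.Agent.U409.GL

open Pool.Agent.U409.SH (near_p sq_trans)

variable {p : ℕ} [hp : Fact p.Prime]

lemma unit_norm {n : ℤ} (hn : ¬ (p : ℤ) ∣ n) : ‖(n : ℚ_[p])‖ = 1 := by
  have h2 := (Padic.norm_intCast_lt_one_iff (p := p) (k := n)).not.2 hn
  exact le_antisymm (Padic.norm_int_le_one n) (not_lt.1 h2)

lemma one_norm {n : ℤ} (h1 : (p : ℤ) ∣ n) (h2 : ¬ (p : ℤ) ^ 2 ∣ n) :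
    ‖(n : ℚ_[p])‖ = (p : ℝ)⁻¹ := by
  obtain ⟨m, rfl⟩ := h1
  have h3 : ¬ (p : ℤ) ∣ m := by
    intro h
    apply h2
    rw [pow_two]
    exact mul_dvd_mul_left _ h
  push_cast
  rw [norm_mul, unit_norm h3, mul_one, Padic.norm_p]

lemma nsq_norm (z : ℚ_[p]) : ‖z‖ ^ 2 ≠ (p : ℝ)⁻¹ := by
  have hp1 : (1 : ℝ) < p := by exact_mod_cast hp.out.one_lt
  by_cases hz : z = 0
  · rw [hz, norm_zero]
    have : (0 : ℝ) < (p : ℝ)⁻¹ := by positivity
    intro h
    rw [← h] at this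
    norm_num at this
  · rw [Padic.norm_eq_zpow_neg_valuation hz, ← zpow_natCast, ← zpow_mul, ← zpow_neg_one]
    intro h
    have h2 := zpow_right_injective₀ (by linarith) (ne_of_gt hp1) h
    push_cast at h2
    omega

lemma nsq {n : ℤ} (h1 : (p : ℤ) ∣ n) (h2 : ¬ (p : ℤ) ^ 2 ∣ n) : ¬ IsSquare (n : ℚ_[p]) := by
  rintro ⟨z, hz⟩
  apply nsq_norm z
  rw [← one_norm h1 h2, hz, norm_mul, pow_two]

lemma sqf_sq {c : ℤ} (hc : Squarefree c) : ¬ (p : ℤ) ^ 2 ∣ c := by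
  intro h
  rw [pow_two] at h
  exact (Nat.prime_iff_prime_int.1 hp.out).not_isUnit (hc _ h)

lemma big_norm {u : ℚ_[p]} (h : 1 < ‖u‖) : (p : ℝ) ≤ ‖u‖ := by
  by_contra hcon
  have h1 := (Padic.norm_le_pow_iff_norm_lt_pow_add_one u 0).2 (by
    rw [zero_add, zpow_one]
    exact not_le.1 hcon)
  rw [zpow_zero] at h1
  linarith

lemma small_norm {u : ℚ_[p]} (h : ‖u‖ < 1) : ‖u‖ ≤ (p : ℝ)⁻¹ := by
  have h1 := (Padic.norm_le_pow_iff_norm_lt_pow_add_one u (-1)).2 (by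
    rw [neg_add_cancel, zpow_zero]
    exact h)
  rwa [zpow_neg_one] at h1

/-- `v` is large -/
lemma sq_big (hp2 : p ≠ 2) {v a b c N : ℚ_[p]} (h : c * N ^ 2 = (v - a) * (v - b))
    (ha : ‖a‖ < ‖v‖) (hb : ‖b‖ < ‖v‖) : IsSquare c := by
  have hv : v ≠ 0 := by
    rintro rfl
    rw [norm_zero] at ha
    exact absurd ha (not_lt.2 (norm_nonneg _))
  obtain ⟨k1, z1, hz1⟩ := near_p (x := v) (x' := v - a) hp2 hv (by rwa [sub_sub_cancel])
  obtain ⟨k2, z2, hz2⟩ := near_p (x := v) (x' := v - b) hp2 hv (by rwa [sub_sub_cancel])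
  have hN : N ≠ 0 := by
    rintro rfl
    have : (v - a) * (v - b) = 0 := by rw [← h]; ring
    exact mul_ne_zero k1 k2 this
  refine ⟨z1 * z2 / (v * N), ?_⟩
  rw [div_mul_div_comm, eq_div_iff (mul_ne_zero (mul_ne_zero hv hN) (mul_ne_zero hv hN))]
  have : z1 * z2 * (z1 * z2) = (z1 * z1) * (z2 * z2) := by ring
  rw [this, ← hz1, ← hz2]
  linear_combination v ^ 2 * h

/-- `v` is small -/
lemma sq_small (hp2 : p ≠ 2) {v a b c N : ℚ_[p]} (h : c * N ^ 2 = (v - a) * (v - b))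
    (ha : ‖v‖ < ‖a‖) (hb : ‖v‖ < ‖b‖) : IsSquare (a * b * c) := by
  have ha0 : -a ≠ 0 := by
    intro h0
    rw [neg_eq_zero] at h0
    rw [h0, norm_zero] at ha
    exact absurd ha (not_lt.2 (norm_nonneg _))
  have hb0 : -b ≠ 0 := by
    intro h0
    rw [neg_eq_zero] at h0
    rw [h0, norm_zero] at hb
    exact absurd hb (not_lt.2 (norm_nonneg _))
  obtain ⟨k1, z1, hz1⟩ := near_p (x := -a) (x' := v - a) hp2 ha0 (by
    have : -a - (v - a) = -v := by ring
    rw [this, norm_neg, norm_neg]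
    exact ha)
  obtain ⟨k2, z2, hz2⟩ := near_p (x := -b) (x' := v - b) hp2 hb0 (by
    have : -b - (v - b) = -v := by ring
    rw [this, norm_neg, norm_neg]
    exact hb)
  have hN : N ≠ 0 := by
    rintro rfl
    have : (v - a) * (v - b) = 0 := by rw [← h]; ring
    exact mul_ne_zero k1 k2 this
  refine ⟨z1 * z2 / N, ?_⟩
  rw [div_mul_div_comm, eq_div_iff (mul_ne_zero hN hN)]
  have : z1 * z2 * (z1 * z2) = (z1 * z1) * (z2 * z2) := by ring
  rw [this, ← hz1, ← hz2]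
  linear_combination a * b * h

/-- the condition for the class of `c` at `p` -/
def Qc (p : ℕ) [Fact p.Prime] (r s d c : ℤ) : Prop :=
  IsSquare (c : ℚ_[p]) ∨ ∃ u N : ℚ_[p], (c : ℚ_[p]) * N ^ 2 =
    (c * u ^ 2) ^ 2 + (-(r * d + s * d) : ℤ) * (c * u ^ 2) + ((r * d) * (s * d) : ℤ)

lemma Qc.fac {r s d c : ℤ} (h : Qc p r s d c) : IsSquare (c : ℚ_[p]) ∨ ∃ u N : ℚ_[p],
    (c : ℚ_[p]) * N ^ 2 = (c * u ^ 2 - (r * d : ℤ)) * (c * u ^ 2 - (s * d : ℤ)) := by
  rcases h with h | ⟨u, N, h⟩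
  · exact Or.inl h
  · right
    refine ⟨u, N, ?_⟩
    rw [h]
    push_cast
    ring

lemma not_dvd3 {a b : ℤ} (ha : ¬ (p : ℤ) ∣ a) (hb : ¬ (p : ℤ) ∣ b) : ¬ (p : ℤ) ∣ a * b := fun h =>
  ((Nat.prime_iff_prime_int.1 hp.out).dvd_or_dvd h).elim ha hb

lemma sq_leg' {n : ℤ} (hn : ¬ (p : ℤ) ∣ n) (h : IsSquare (n : ℚ_[p])) : legendreSym p n = 1 := by
  obtain ⟨z, hz⟩ := h
  have h1 : ‖z‖ ^ 2 = 1 := by
    rw [← unit_norm hn, hz, norm_mul, pow_two]
  have h2 : ‖z‖ = 1 := by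
    have := norm_nonneg z
    nlinarith
  have hn0 : (n : ZMod p) ≠ 0 := fun h0 => hn ((ZMod.intCast_zmod_eq_zero_iff_dvd n p).1 h0)
  rw [legendreSym.eq_one_iff p hn0]
  obtain ⟨w, hw⟩ : ∃ w : ℤ_[p], (w : ℚ_[p]) = z := ⟨⟨z, h2.le⟩, rfl⟩
  have h3 : (n : ℤ_[p]) = w * w := by
    apply Subtype.coe_injective
    push_cast
    rw [hw]
    exact hz
  refine ⟨PadicInt.toZMod w, ?_⟩
  rw [← map_mul, ← h3, map_intCast]

/-- the good primes -/
theorem good_c (hp2 : p ≠ 2) {r s d c : ℤ} (hr : ¬ (p : ℤ) ∣ r) (hs : ¬ (p : ℤ) ∣ s)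
    (hd : ¬ (p : ℤ) ∣ d) (hc : Squarefree c) (h : Qc p r s d c) : ¬ (p : ℤ) ∣ c := by
  intro hpc
  have hp1 : (1 : ℝ) < p := by exact_mod_cast hp.out.one_lt
  have hcn := one_norm hpc (sqf_sq hc)
  have hrd := unit_norm (not_dvd3 hr hd)
  have hsd := unit_norm (not_dvd3 hs hd)
  rcases h.fac with h | ⟨u, N, h⟩
  · exact nsq hpc (sqf_sq hc) h
  · have hv : ‖(c : ℚ_[p]) * u ^ 2‖ = (p : ℝ)⁻¹ * ‖u‖ ^ 2 := by
      rw [norm_mul, norm_pow, hcn]
    rcases lt_or_ge 1 ‖u‖ with hu | hu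
    · have h1 := big_norm hu
      have h2 : 1 < ‖(c : ℚ_[p]) * u ^ 2‖ := by
        rw [hv, lt_inv_mul_iff₀ (by linarith)]
        nlinarith
      exact nsq hpc (sqf_sq hc) (sq_big hp2 h (by rw [hrd]; exact h2) (by rw [hsd]; exact h2))
    · have h2 : ‖(c : ℚ_[p]) * u ^ 2‖ < 1 := by
        rw [hv, inv_mul_lt_iff₀ (by linarith)]
        have := norm_nonneg u
        nlinarith
      have h3 := sq_small hp2 h (by rw [hrd]; exact h2) (by rw [hsd]; exact h2)
      have h4 : ¬ (p : ℤ) ∣ (r * d) * (s * d) := not_dvd3 (not_dvd3 hr hd) (not_dvd3 hs hd)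
      apply nsq (p := p) (n := (r * d) * (s * d) * c) (hpc.mul_left _) _ (by push_cast at h3 ⊢; exact h3)
      intro h5
      obtain ⟨c', rfl⟩ := hpc
      have h6 : (p : ℤ) ∣ (r * d) * (s * d) * c' := by
        have hp0 : (p : ℤ) ≠ 0 := by exact_mod_cast hp.out.ne_zero
        obtain ⟨k, hk⟩ := h5
        refine ⟨k, mul_left_cancel₀ hp0 ?_⟩
        linear_combination hk
      rcases (Nat.prime_iff_prime_int.1 hp.out).dvd_or_dvd h6 with h7 | h7
      · exact h4 h7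
      · apply sqf_sq (p := p) hc
        rw [pow_two]
        exact mul_dvd_mul_left _ h7

/-- the condition at a prime that does not divide `c` -/
theorem cond_nd (hp2 : p ≠ 2) {r s d c : ℤ} (hr : ¬ (p : ℤ) ∣ r) (hs : ¬ (p : ℤ) ∣ s)
    (hd : (p : ℤ) ∣ d) (hd2 : ¬ (p : ℤ) ^ 2 ∣ d) (hrs : legendreSym p (r * s) = 1)
    (hpc : ¬ (p : ℤ) ∣ c) (h : Qc p r s d c) : legendreSym p c = 1 := by
  have hp1 : (1 : ℝ) < p := by exact_mod_cast hp.out.one_lt
  have hcn := unit_norm hpc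
  have hdn := one_norm hd hd2
  have hrd : ‖((r * d : ℤ) : ℚ_[p])‖ = (p : ℝ)⁻¹ := by
    push_cast
    rw [norm_mul, unit_norm hr, hdn, one_mul]
  have hsd : ‖((s * d : ℤ) : ℚ_[p])‖ = (p : ℝ)⁻¹ := by
    push_cast
    rw [norm_mul, unit_norm hs, hdn, one_mul]
  have hpi : (p : ℝ)⁻¹ < 1 := inv_lt_one_of_one_lt₀ hp1
  rcases h.fac with h | ⟨u, N, h⟩
  · exact sq_leg' hpc h
  · have hv : ‖(c : ℚ_[p]) * u ^ 2‖ = ‖u‖ ^ 2 := by
      rw [norm_mul, norm_pow, hcn, one_mul]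
    rcases lt_or_ge ‖u‖ 1 with hu | hu
    · have h1 := small_norm hu
      have h2 : ‖(c : ℚ_[p]) * u ^ 2‖ < (p : ℝ)⁻¹ := by
        rw [hv]
        have := norm_nonneg u
        have h0 : 0 < (p : ℝ)⁻¹ := by positivity
        nlinarith
      have h3 := sq_small hp2 h (by rw [hrd]; exact h2) (by rw [hsd]; exact h2)
      have h4 : IsSquare ((r * s * c : ℤ) : ℚ_[p]) := by
        obtain ⟨z, hz⟩ := h3
        have hd0 : (d : ℚ_[p]) ≠ 0 := by
          intro h0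
          rw [h0, norm_zero] at hdn
          have : 0 < (p : ℝ)⁻¹ := by positivity
          linarith
        refine ⟨z / d, ?_⟩
        rw [div_mul_div_comm, ← hz]
        push_cast
        field_simp
      have h5 := sq_leg' (not_dvd3 (not_dvd3 hr hs) hpc) h4
      rw [legendreSym.mul, hrs, one_mul] at h5
      exact h5
    · have h2 : (p : ℝ)⁻¹ < ‖(c : ℚ_[p]) * u ^ 2‖ := by
        rw [hv]
        nlinarith
      exact sq_leg' hpc (sq_big hp2 h (by rw [hrd]; exact h2) (by rw [hsd]; exact h2))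

/-- the condition at a prime that divides `c` -/
theorem cond_dv (hp2 : p ≠ 2) {r s d c d' c' : ℤ} (hr : ¬ (p : ℤ) ∣ r) (hs : ¬ (p : ℤ) ∣ s)
    (hd : d = p * d') (hc : c = p * c') (hd' : ¬ (p : ℤ) ∣ d') (hc' : ¬ (p : ℤ) ∣ c')
    (hrs : legendreSym p (r * s) = 1) (h : Qc p r s d c) : legendreSym p (r * c' * d') = 1 := by
  have hp1 : (1 : ℝ) < p := by exact_mod_cast hp.out.one_lt
  have hp0 : (p : ℤ) ≠ 0 := by exact_mod_cast hp.out.ne_zero
  have hpc : (p : ℤ) ∣ c := ⟨_, hc⟩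
  have hpd : (p : ℤ) ∣ d := ⟨_, hd⟩
  have hsq : ∀ {n m : ℤ}, n = p * m → ¬ (p : ℤ) ∣ m → ¬ (p : ℤ) ^ 2 ∣ n := by
    intro n m hn hm h
    apply hm
    obtain ⟨k, hk⟩ := h
    refine ⟨k, mul_left_cancel₀ hp0 ?_⟩
    rw [← hn, hk]
    ring
  have hcn := one_norm hpc (hsq hc hc')
  have hdn := one_norm hpd (hsq hd hd')
  have hrd : ‖((r * d : ℤ) : ℚ_[p])‖ = (p : ℝ)⁻¹ := by
    push_cast
    rw [norm_mul, unit_norm hr, hdn, one_mul]
  have hsd : ‖((s * d : ℤ) : ℚ_[p])‖ = (p : ℝ)⁻¹ := by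
    push_cast
    rw [norm_mul, unit_norm hs, hdn, one_mul]
  have hpi : (p : ℝ)⁻¹ < 1 := inv_lt_one_of_one_lt₀ hp1
  have hpi0 : 0 < (p : ℝ)⁻¹ := by positivity
  rcases h.fac with h | ⟨u, N, h⟩
  · exact absurd h (nsq hpc (hsq hc hc'))
  · have hv : ‖(c : ℚ_[p]) * u ^ 2‖ = (p : ℝ)⁻¹ * ‖u‖ ^ 2 := by
      rw [norm_mul, norm_pow, hcn]
    rcases lt_trichotomy ‖u‖ 1 with hu | hu | hu
    · exfalso
      have h2 : ‖(c : ℚ_[p]) * u ^ 2‖ < (p : ℝ)⁻¹ := by
        rw [hv]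
        have h0 := norm_nonneg u
        have : ‖u‖ ^ 2 < 1 := by nlinarith
        exact mul_lt_of_lt_one_right hpi0 this
      have h3 := sq_small hp2 h (by rw [hrd]; exact h2) (by rw [hsd]; exact h2)
      have hd0 : (d : ℚ_[p]) ≠ 0 := by
        intro h0
        rw [h0, norm_zero] at hdn
        linarith
      have h4 : IsSquare ((r * s * c : ℤ) : ℚ_[p]) := by
        obtain ⟨z, hz⟩ := h3
        refine ⟨z / d, ?_⟩
        rw [div_mul_div_comm, ← hz]
        push_cast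
        field_simp
      exact nsq (hpc.mul_left _) (hsq (n := r * s * c) (m := r * s * c') (by rw [hc]; ring)
        (not_dvd3 (not_dvd3 hr hs) hc')) h4
    · -- the unit case
      have hp0' : (p : ℚ_[p]) ≠ 0 := by exact_mod_cast hp.out.ne_zero
      set w : ℚ_[p] := c' * u ^ 2 with hw
      have hwn : ‖w‖ = 1 := by
        rw [hw, norm_mul, norm_pow, hu, unit_norm hc']
        norm_num
      have key : ∀ {q : ℤ}, ¬ (p : ℤ) ∣ q → ‖w - (q * d' : ℤ)‖ < 1 → legendreSym p (q * c' * d') = 1 := by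
        intro q hq hlt
        have hw0 : w ≠ 0 := by
          rw [← norm_pos_iff, hwn]
          exact one_pos
        obtain ⟨-, z, hz⟩ := near_p (x := w) (x' := ((q * d' : ℤ) : ℚ_[p])) hp2 hw0
          (by rw [hwn]; exact hlt)
        apply sq_leg' (not_dvd3 (not_dvd3 hq hc') hd')
        have hu0 : u ≠ 0 := by
          rw [← norm_pos_iff, hu]
          exact one_pos
        refine ⟨z / u, ?_⟩
        rw [div_mul_div_comm, ← hz, hw]
        push_cast
        field_simp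
      rcases lt_or_ge ‖w - (r * d' : ℤ)‖ 1 with h1 | h1
      · exact key hr h1
      · rcases lt_or_ge ‖w - (s * d' : ℤ)‖ 1 with h2 | h2
        · have h3 := key hs h2
          have h4 : legendreSym p (r * c' * d') * legendreSym p (s * c' * d') =
              legendreSym p (r * s) * (legendreSym p (c' * d')) ^ 2 := by
            simp only [legendreSym.mul]
            ring
          have h5 : (legendreSym p (c' * d')) ^ 2 = 1 :=
            legendreSym.sq_one p (fun h0 => not_dvd3 hc' hd'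
              ((ZMod.intCast_zmod_eq_zero_iff_dvd _ p).1 h0))
          rw [h3, hrs, h5, mul_one, mul_one] at h4
          exact h4
        · exfalso
          have hle : ∀ q : ℤ, ‖w - (q * d' : ℤ)‖ ≤ 1 := by
            intro q
            rw [sub_eq_add_neg]
            refine (Padic.nonarchimedean _ _).trans (max_le hwn.le ?_)
            rw [norm_neg]
            exact Padic.norm_int_le_one _
          have h3 : ‖w - (r * d' : ℤ)‖ = 1 := le_antisymm (hle r) h1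
          have h4 : ‖w - (s * d' : ℤ)‖ = 1 := le_antisymm (hle s) h2
          have h5 : (c : ℚ_[p]) * N ^ 2 = p ^ 2 * ((w - (r * d' : ℤ)) * (w - (s * d' : ℤ))) := by
            rw [h, hw, hc, hd]
            push_cast
            ring
          have h6 := congrArg (fun z => ‖z‖) h5
          simp only [norm_mul, norm_pow, hcn, Padic.norm_p, h3, h4, mul_one] at h6
          apply nsq_norm N
          have : (p : ℝ)⁻¹ ≠ 0 := ne_of_gt hpi0
          apply mul_left_cancel₀ this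
          rw [h6]
          ring
    · exfalso
      have h1 := big_norm hu
      have h2 : (p : ℝ)⁻¹ < ‖(c : ℚ_[p]) * u ^ 2‖ := by
        rw [hv]
        have : 1 < ‖u‖ ^ 2 := by nlinarith
        exact lt_mul_of_one_lt_right hpi0 this
      exact nsq hpc (hsq hc hc') (sq_big hp2 h (by rw [hrd]; exact h2) (by rw [hsd]; exact h2))

end Pool.Agent.U409.GL
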