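import Pool.Agent.U409.GL.Dual
import Pool.Agent.U409.GL.Cond
import Pool.Agent.U409.LS.Ker

/-!
# The number of the classes `c`
-/

set_option autoImplicit false

namespace Pool.Agent.U409.GL

open Finset
open Pool.Agent.U409.LS (lu lu_eq cq Hyp leg_prod leg_pm Gp Gm not_dvd_prod prod_sqf prod_dvd)

variable {r s d : ℤ} {G Bd : Finset ℕ}

lemma lu_cast {q : ℕ} [hq : Fact q.Prime] {n : ℤ} (hn : ¬ (q : ℤ) ∣ n) :
    (lu q n = 1) ↔ legendreSym q n = 1 := by
  rw [← lu_eq hn]
  exact Units.val_eq_one.symm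

/-- a squarefree integer is determined by its sign and its prime divisors -/
lemma sqf_ext {c e : ℤ} (hc : Squarefree c) (he : Squarefree e) (h0 : 0 < c ↔ 0 < e)
    (h : ∀ p : ℕ, p.Prime → ((p : ℤ) ∣ c ↔ (p : ℤ) ∣ e)) : c = e := by
  have h1 : c.natAbs = e.natAbs := by
    rw [Nat.Squarefree.ext_iff (Int.squarefree_natAbs.2 hc) (Int.squarefree_natAbs.2 he)]
    intro p hp
    rw [← Int.natCast_dvd, ← Int.natCast_dvd]
    exact h p hp
  have hc0 := hc.ne_zero
  have he0 := he.ne_zero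
  rcases Int.natAbs_eq_natAbs_iff.1 h1 with h2 | h2
  · exact h2
  · omega

lemma Qc_of {c : ℤ} {p : ℕ} [Fact p.Prime] (hp2 : p ≠ 2)
    (hc : c ∈ Cc (-(r * d + s * d)) ((r * d) * (s * d))) : Qc p r s d c := hc.2 p hp2

/-- the condition -/
lemma prod_cond (h : Hyp r s d G Bd) {c : ℤ}
    (hc : c ∈ Cc (-(r * d + s * d)) ((r * d) * (s * d))) {u : ℤ} {S : Finset ℕ} (hS : S ⊆ G)
    (hu : ∀ p ∈ G, ¬ (p : ℤ) ∣ u) (hcu : c = u * ((∏ p ∈ S, p : ℕ) : ℤ)) {q : ℕ} (hq : q ∈ G)
    (hq1 : lu q (r * s) = 1) : ∏ p ∈ S, cq r d q p = lu q u := by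
  classical
  have hqp : Fact q.Prime := ⟨h.hp q hq⟩
  have hpi : Prime (q : ℤ) := Nat.prime_iff_prime_int.1 hqp.out
  have hq0 : (q : ℤ) ≠ 0 := by exact_mod_cast hqp.out.ne_zero
  obtain ⟨hr, hs, hrs⟩ := h.hG q hq
  have hrs' : ¬ (q : ℤ) ∣ r * s := fun h2 => (hpi.dvd_or_dvd h2).elim hr hs
  have hl : legendreSym q (r * s) = 1 := (lu_cast hrs').1 hq1
  have huq := hu q hq
  have hbase : ∀ S' : Finset ℕ, S' ⊆ G → q ∉ S' →
      ((∏ p ∈ S', cq r d q p : ℤˣ) : ℤ) = legendreSym q ((∏ p ∈ S', p : ℕ) : ℤ) := by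
    intro S' hS' hqS'
    rw [leg_prod, Units.coe_prod]
    refine prod_congr rfl fun p hp => ?_
    have hne : q ≠ p := fun e => hqS' (e ▸ hp)
    unfold cq
    rw [if_neg hne, lu_eq]
    intro hd
    have h3 : q ∣ p := by exact_mod_cast hd
    exact hne ((Nat.prime_dvd_prime_iff_eq hqp.out (h.hp p (hS' hp))).1 h3)
  apply Units.ext
  rw [lu_eq huq]
  by_cases hqS : q ∈ S
  · have hS' : S.erase q ⊆ G := (erase_subset _ _).trans hS
    rw [← mul_prod_erase S _ hqS, Units.val_mul, hbase _ hS' (notMem_erase q S)]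
    set m' : ℤ := ((∏ p ∈ S.erase q, p : ℕ) : ℤ) with hm'
    have hm0 : ¬ (q : ℤ) ∣ m' := not_dvd_prod h hS' hqp.out (notMem_erase q S)
    have hc' : c = q * (u * m') := by
      rw [hcu, ← mul_prod_erase S _ hqS]
      push_cast
      rw [hm']
      push_cast
      ring
    obtain ⟨d', hd'⟩ := (h.hGd q hq).1
    have hdn : ¬ (q : ℤ) ∣ d' := by
      intro h2
      apply (h.hGd q hq).2
      rw [hd', pow_two]
      exact mul_dvd_mul_left _ h2
    have hdq : d / q = d' := by
      rw [hd']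
      exact Int.mul_ediv_cancel_left _ hq0
    have h1 := cond_dv (h.h2 q hq) hr hs hd' hc' hdn (not_dvd3 huq hm0) hl (Qc_of (h.h2 q hq) hc)
    have h3 : ((cq r d q q : ℤˣ) : ℤ) = legendreSym q (r * d') := by
      unfold cq
      rw [if_pos rfl, hdq, lu_eq (not_dvd3 hr hdn)]
    rw [h3]
    have h4 : legendreSym q (r * (u * m') * d') =
        (legendreSym q (r * d') * legendreSym q m') * legendreSym q u := by
      simp only [legendreSym.mul]
      ring
    rw [h4] at h1
    rcases leg_pm huq with h5 | h5 <;> rw [h5] at h1 ⊢ <;> linarith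
  · rw [hbase S hS hqS]
    have hm0 : ¬ (q : ℤ) ∣ ((∏ p ∈ S, p : ℕ) : ℤ) := not_dvd_prod h hS hqp.out hqS
    have h1 := cond_nd (h.h2 q hq) hr hs (h.hGd q hq).1 (h.hGd q hq).2 hl
      (by rw [hcu]; exact not_dvd3 huq hm0) (Qc_of (h.h2 q hq) hc)
    rw [hcu, legendreSym.mul] at h1
    rcases leg_pm huq with h5 | h5 <;> rw [h5] at h1 ⊢ <;> linarith

open scoped Classical in
/-- the number of the classes is bounded by the kernel of the matrix -/
theorem cc_le (h : Hyp r s d G Bd) :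
    (Cc (-(r * d + s * d)) ((r * d) * (s * d))).Finite ∧
    (Cc (-(r * d + s * d)) ((r * d) * (s * d))).ncard ≤
      2 * 2 ^ (Bd.card + 1) * (Kr G (Gp r s G) (fun q p => cq r d q p)).card := by
  set 𝒞 := Cc (-(r * d + s * d)) ((r * d) * (s * d)) with h𝒞
  set B2 : Finset ℕ := insert 2 Bd with hB2
  have hdisj : ∀ p ∈ G, p ∉ B2 := by
    intro p hp hp2
    rw [hB2, mem_insert] at hp2
    rcases hp2 with h2 | h2
    · exact h.h2 p hp h2
    · exact (h.hB p h2).2.2 hp
  -- the prime divisors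
  have hsupp : ∀ c ∈ 𝒞, ∀ p : ℕ, p.Prime → (p : ℤ) ∣ c → p ∈ G ∨ p ∈ B2 := by
    intro c hc p hp hpc
    by_contra hcon
    push Not at hcon
    rw [hB2, mem_insert, not_or] at hcon
    have : Fact p.Prime := ⟨hp⟩
    have h2 : ¬ (p : ℤ) ∣ r * s * (r - s) * d := fun h2 =>
      (h.hcov p hp hcon.2.1 h2).elim hcon.1 hcon.2.2
    have h3 : ¬ (p : ℤ) ∣ r := fun h3 => h2 (((h3.mul_right _).mul_right _).mul_right _)
    have h4 : ¬ (p : ℤ) ∣ s := fun h3 => h2 (((h3.mul_left _).mul_right _).mul_right _)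
    have h6 : ¬ (p : ℤ) ∣ d := fun h3 => h2 (h3.mul_left _)
    exact good_c hcon.2.1 h3 h4 h6 hc.1 (Qc_of hcon.2.1 hc) hpc
  -- the data
  let Sg : ℤ → Finset ℕ := fun c => G.filter (fun p => (p : ℤ) ∣ c)
  let dat : ℤ → Bool × Finset ℕ := fun c => (decide (0 < c), B2.filter (fun p => (p : ℤ) ∣ c))
  have hdet : ∀ c ∈ 𝒞, ∀ e ∈ 𝒞, dat c = dat e → Sg c = Sg e → c = e := by
    intro c hc e he h1 h2
    have h3 : (0 < c ↔ 0 < e) := by
      have := congrArg Prod.fst h1
      exact decide_eq_decide.1 this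
    have h4 : B2.filter (fun p : ℕ => (p : ℤ) ∣ c) = B2.filter (fun p : ℕ => (p : ℤ) ∣ e) :=
      congrArg Prod.snd h1
    refine sqf_ext hc.1 he.1 h3 (fun p hp => ⟨fun h5 => ?_, fun h5 => ?_⟩)
    · rcases hsupp c hc p hp h5 with h6 | h6
      · have h7 : p ∈ Sg c := mem_filter.2 ⟨h6, h5⟩
        rw [h2] at h7
        exact (mem_filter.1 h7).2
      · have h7 : p ∈ B2.filter (fun p : ℕ => (p : ℤ) ∣ c) := mem_filter.2 ⟨h6, h5⟩
        rw [h4] at h7
        exact (mem_filter.1 h7).2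
    · rcases hsupp e he p hp h5 with h6 | h6
      · have h7 : p ∈ Sg e := mem_filter.2 ⟨h6, h5⟩
        rw [← h2] at h7
        exact (mem_filter.1 h7).2
      · have h7 : p ∈ B2.filter (fun p : ℕ => (p : ℤ) ∣ e) := mem_filter.2 ⟨h6, h5⟩
        rw [← h4] at h7
        exact (mem_filter.1 h7).2
  -- the sign of the coset
  let bq : Bool × Finset ℕ → ℕ → ℤˣ := fun x q =>
    lu q ((if x.1 then 1 else -1) * ((∏ p ∈ x.2, p : ℕ) : ℤ))
  have hmem : ∀ c ∈ 𝒞, Sg c ∈ G.powerset.filter (fun S => ∀ q ∈ Gp r s G,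
      ∏ p ∈ S, cq r d q p = bq (dat c) q) := by
    intro c hc
    rw [mem_filter, mem_powerset]
    refine ⟨filter_subset _ _, fun q hq => ?_⟩
    unfold Gp at hq
    rw [mem_filter] at hq
    have hB2p : ∀ p ∈ B2, p.Prime := by
      intro p hp
      rw [hB2, mem_insert] at hp
      rcases hp with rfl | hp
      · exact Nat.prime_two
      · exact (h.hB p hp).1
    refine prod_cond h hc (filter_subset _ _) (fun p hp hpd => ?_) ?_ hq.1 hq.2
    · have hpp := h.hp p hp
      have hpi : Prime (p : ℤ) := Nat.prime_iff_prime_int.1 hpp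
      rcases hpi.dvd_or_dvd hpd with h1 | h1
      · have : IsUnit ((if (dat c).1 then 1 else -1 : ℤ)) := by
          split_ifs
          · exact isUnit_one
          · exact isUnit_one.neg
        exact hpi.not_isUnit (isUnit_of_dvd_unit h1 this)
      · have h2 : p ∣ ∏ p ∈ (dat c).2, p := by exact_mod_cast h1
        obtain ⟨q', hq', hpq⟩ := (Nat.Prime.prime hpp).exists_mem_finset_dvd h2
        have hq'' : q' ∈ B2 := (mem_filter.1 hq').1
        have h3 := (Nat.prime_dvd_prime_iff_eq hpp (hB2p q' hq'')).1 hpq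
        exact hdisj p hp (h3 ▸ hq'')
    · -- the factorisation
      have hsq := hc.1
      have hc0 := hsq.ne_zero
      have h1 : c.natAbs = (∏ p ∈ (dat c).2, p) * ∏ p ∈ Sg c, p := by
        have h2 : Disjoint (dat c).2 (Sg c) := by
          rw [disjoint_left]
          intro p hp hp'
          exact hdisj p (mem_filter.1 hp').1 (mem_filter.1 hp).1
        rw [← prod_union h2, ← Nat.prod_primeFactors_of_squarefree (Int.squarefree_natAbs.2 hsq)]
        refine prod_congr ?_ fun _ _ => rfl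
        ext p
        rw [Nat.mem_primeFactors, mem_union, ← Int.natCast_dvd]
        constructor
        · rintro ⟨hp, hpc, -⟩
          rcases hsupp c hc p hp hpc with h3 | h3
          · exact Or.inr (mem_filter.2 ⟨h3, hpc⟩)
          · exact Or.inl (mem_filter.2 ⟨h3, hpc⟩)
        · rintro (h3 | h3)
          · exact ⟨hB2p p (mem_filter.1 h3).1, (mem_filter.1 h3).2, Int.natAbs_ne_zero.2 hc0⟩
          · exact ⟨h.hp p (mem_filter.1 h3).1, (mem_filter.1 h3).2, Int.natAbs_ne_zero.2 hc0⟩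
      have h2 : c = (if 0 < c then 1 else -1) * (c.natAbs : ℤ) := by
        split_ifs with h3
        · rw [one_mul, Int.natAbs_of_nonneg h3.le]
        · have h4 : c < 0 := lt_of_le_of_ne (not_lt.1 h3) hc0
          rw [Int.ofNat_natAbs_of_nonpos h4.le]
          ring
      have h3 : (if (dat c).1 then 1 else -1 : ℤ) = if 0 < c then 1 else -1 := by
        show (if decide (0 < c) = true then (1 : ℤ) else -1) = _
        simp only [decide_eq_true_eq]
      rw [h3, mul_assoc]
      calc c = (if 0 < c then 1 else -1) * (c.natAbs : ℤ) := h2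
        _ = (if 0 < c then 1 else -1) * (((∏ p ∈ (dat c).2, p) * ∏ p ∈ Sg c, p : ℕ) : ℤ) := by
            rw [← h1]
        _ = _ := by push_cast; ring
  -- the map
  set K := Kr G (Gp r s G) (fun q p => cq r d q p) with hK
  set D : Finset (Bool × Finset ℕ) := (Finset.univ : Finset Bool) ×ˢ B2.powerset with hD
  set F : Finset ((Bool × Finset ℕ) × Finset ℕ) := D.biUnion (fun x =>
    (G.powerset.filter (fun S => ∀ q ∈ Gp r s G, ∏ p ∈ S, cq r d q p = bq x q)).image
      (fun S => (x, S))) with hF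
  have hmaps : Set.MapsTo (fun c => (dat c, Sg c)) 𝒞 (F : Set ((Bool × Finset ℕ) × Finset ℕ)) := by
    intro c hc
    rw [mem_coe, hF, mem_biUnion]
    refine ⟨dat c, ?_, mem_image.2 ⟨Sg c, hmem c hc, rfl⟩⟩
    rw [hD, mem_product]
    exact ⟨mem_univ _, mem_powerset.2 (filter_subset _ _)⟩
  have hinj : Set.InjOn (fun c => (dat c, Sg c)) 𝒞 := by
    intro c hc e he h1
    exact hdet c hc e he (congrArg Prod.fst h1) (congrArg Prod.snd h1)
  refine ⟨Set.Finite.of_injOn hmaps hinj (Finset.finite_toSet _), ?_⟩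
  have h5 := Set.ncard_le_ncard_of_injOn _ hmaps hinj (Finset.finite_toSet _)
  rw [Set.ncard_coe_finset] at h5
  refine h5.trans ?_
  have h6 : F.card ≤ ∑ x ∈ D, K.card := by
    refine card_biUnion_le.trans (sum_le_sum fun x _ => ?_)
    exact card_image_le.trans (coset G (Gp r s G) (fun q p => cq r d q p) (bq x))
  refine h6.trans ?_
  rw [sum_const, smul_eq_mul]
  apply Nat.mul_le_mul_right
  rw [hD, card_product, card_univ, Fintype.card_bool, card_powerset]
  apply Nat.mul_le_mul_left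
  exact Nat.pow_le_pow_right (by norm_num) (card_insert_le _ _)

end Pool.Agent.U409.GL
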