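import Pool.Agent.U409.LS.Tur

/-!
# Truncated products and the mean of `w ^ ω`
-/

set_option autoImplicit false

namespace Pool.Agent.U409.GL

open Finset Polynomial
open Pool.Agent.H474R2.PG (rho count_class)
open Pool.Agent.U409.LS (om SS RR)

/-- the elementary symmetric sums -/
noncomputable def ej (P : Finset ℕ) (h : ℕ → ℝ) (j : ℕ) : ℝ :=
  ∑ T ∈ P.powersetCard j, ∏ p ∈ T, h p

lemma ej_zero (P : Finset ℕ) (h : ℕ → ℝ) : ej P h 0 = 1 := by
  unfold ej
  rw [powersetCard_zero, sum_singleton, prod_empty]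

lemma ej_empty (h : ℕ → ℝ) (j : ℕ) : ej ∅ h (j + 1) = 0 := by
  unfold ej
  rw [powersetCard_eq_empty.2 (by simp), sum_empty]

lemma ej_insert {P : Finset ℕ} {a : ℕ} (ha : a ∉ P) (h : ℕ → ℝ) (j : ℕ) :
    ej (insert a P) h (j + 1) = ej P h (j + 1) + h a * ej P h j := by
  classical
  unfold ej
  rw [powersetCard_succ_insert ha, sum_union]
  · congr 1
    rw [sum_image, mul_sum]
    · refine sum_congr rfl fun T hT => ?_
      have haT : a ∉ T := fun h' => ha ((mem_powersetCard.1 hT).1 h')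
      rw [prod_insert haT]
    · intro S hS T hT hST
      have haS : a ∉ S := fun h' => ha ((mem_powersetCard.1 hS).1 h')
      have haT : a ∉ T := fun h' => ha ((mem_powersetCard.1 hT).1 h')
      rw [← erase_insert haS, ← erase_insert haT]
      exact congrArg (fun U => erase U a) hST
  · rw [disjoint_left]
    intro T hT hT'
    obtain ⟨S, _, rfl⟩ := mem_image.1 hT'
    exact ha ((mem_powersetCard.1 hT).1 (mem_insert_self a S))

lemma ej_nonneg {P : Finset ℕ} {h : ℕ → ℝ} (h0 : ∀ p ∈ P, 0 ≤ h p) (j : ℕ) : 0 ≤ ej P h j :=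
  sum_nonneg fun _ hT => prod_nonneg fun p hp => h0 p ((mem_powersetCard.1 hT).1 hp)

/-- the truncation of a product -/
theorem trunc (u : ℂ) (P : Finset ℕ) (h : ℕ → ℝ) (h0 : ∀ p ∈ P, 0 ≤ h p)
    (h1 : ∀ p ∈ P, ‖1 + u * (h p : ℂ)‖ ≤ 1) (J : ℕ) :
    ‖∏ p ∈ P, (1 + u * (h p : ℂ)) - ∑ j ∈ range J, u ^ j * (ej P h j : ℂ)‖ ≤
      ‖u‖ ^ J * ej P h J := by
  classical
  induction P using Finset.induction_on generalizing J with
  | empty =>
    rcases J with _ | J
    · simp [ej_zero]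
    · have e : ∑ j ∈ range (J + 1), u ^ j * (ej ∅ h j : ℂ) = 1 := by
        rw [sum_range_succ']
        simp [ej_zero, ej_empty]
      rw [e, ej_empty]
      simp
  | insert a P ha ih =>
    have h0' : ∀ p ∈ P, 0 ≤ h p := fun p hp => h0 p (mem_insert_of_mem hp)
    have h1' : ∀ p ∈ P, ‖1 + u * (h p : ℂ)‖ ≤ 1 := fun p hp => h1 p (mem_insert_of_mem hp)
    have ih' := ih h0' h1'
    rcases J with _ | J
    · simp only [range_zero, sum_empty, sub_zero, pow_zero, one_mul, ej_zero]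
      rw [norm_prod]
      exact prod_le_one (fun _ _ => norm_nonneg _) h1
    · have e1 : ∑ j ∈ range (J + 1), u ^ j * (ej (insert a P) h j : ℂ) =
          ∑ j ∈ range (J + 1), u ^ j * (ej P h j : ℂ) +
            u * (h a : ℂ) * ∑ j ∈ range J, u ^ j * (ej P h j : ℂ) := by
        rw [sum_range_succ', sum_range_succ' (fun j => u ^ j * (ej P h j : ℂ)), mul_sum]
        simp only [ej_insert ha, ej_zero, pow_zero, one_mul, Complex.ofReal_one]
        have e2 : ∀ j, u ^ (j + 1) * ((ej P h (j + 1) + h a * ej P h j : ℝ) : ℂ) =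
            u ^ (j + 1) * (ej P h (j + 1) : ℂ) + u * (h a : ℂ) * (u ^ j * (ej P h j : ℂ)) := by
          intro j
          push_cast
          ring
        rw [sum_congr rfl (fun j _ => e2 j), sum_add_distrib]
        ring
      have e3 : ∏ p ∈ insert a P, (1 + u * (h p : ℂ)) -
          ∑ j ∈ range (J + 1), u ^ j * (ej (insert a P) h j : ℂ) =
          (∏ p ∈ P, (1 + u * (h p : ℂ)) - ∑ j ∈ range (J + 1), u ^ j * (ej P h j : ℂ)) +
          u * (h a : ℂ) * (∏ p ∈ P, (1 + u * (h p : ℂ)) -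
            ∑ j ∈ range J, u ^ j * (ej P h j : ℂ)) := by
        rw [prod_insert ha, e1]
        ring
      rw [e3, ej_insert ha]
      refine (norm_add_le _ _).trans ?_
      rw [norm_mul, norm_mul, Complex.norm_real, Real.norm_of_nonneg (h0 a (mem_insert_self a P))]
      have i1 := ih' (J + 1)
      have i2 := ih' J
      have i3 : ‖u‖ * h a * ‖∏ p ∈ P, (1 + u * (h p : ℂ)) -
          ∑ j ∈ range J, u ^ j * (ej P h j : ℂ)‖ ≤ ‖u‖ * h a * (‖u‖ ^ J * ej P h J) :=
        mul_le_mul_of_nonneg_left i2 (mul_nonneg (norm_nonneg _) (h0 a (mem_insert_self a P)))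
      calc _ ≤ ‖u‖ ^ (J + 1) * ej P h (J + 1) + ‖u‖ * h a * (‖u‖ ^ J * ej P h J) :=
            add_le_add i1 i3
        _ = _ := by ring

lemma pow_succ_add {x y : ℝ} (hx : 0 ≤ x) (hy : 0 ≤ y) (j : ℕ) :
    x ^ (j + 1) + (j + 1) * y * x ^ j ≤ (x + y) ^ (j + 1) := by
  induction j with
  | zero => simp
  | succ j ih =>
    rw [pow_succ (x + y)]
    have h1 : (x ^ (j + 1) + (j + 1) * y * x ^ j) * (x + y) ≤ (x + y) ^ (j + 1) * (x + y) :=
      mul_le_mul_of_nonneg_right ih (by linarith)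
    refine le_trans ?_ h1
    push_cast
    have h2 : 0 ≤ (j + 1) * y * x ^ j * y := by positivity
    have e : (x ^ (j + 1) + (j + 1) * y * x ^ j) * (x + y) =
        x ^ (j + 1 + 1) + (j + 1 + 1) * y * x ^ (j + 1) + (j + 1) * y * x ^ j * y := by ring
    rw [e]
    linarith

/-- the elementary symmetric sums are small -/
theorem ej_le (P : Finset ℕ) (h : ℕ → ℝ) (h0 : ∀ p ∈ P, 0 ≤ h p) (j : ℕ) :
    ej P h j * (j.factorial : ℝ) ≤ (∑ p ∈ P, h p) ^ j := by
  classical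
  induction P using Finset.induction_on generalizing j with
  | empty =>
    rcases j with _ | j
    · simp [ej_zero]
    · rw [ej_empty]
      simp
  | insert a P ha ih =>
    have h0' : ∀ p ∈ P, 0 ≤ h p := fun p hp => h0 p (mem_insert_of_mem hp)
    have ha0 : 0 ≤ h a := h0 a (mem_insert_self a P)
    have hs0 : 0 ≤ ∑ p ∈ P, h p := sum_nonneg h0'
    rcases j with _ | j
    · simp [ej_zero]
    · rw [ej_insert ha, sum_insert ha, add_mul, add_comm (h a)]
      refine le_trans ?_ (pow_succ_add hs0 ha0 j)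
      have i1 := ih h0' (j + 1)
      have i2 := ih h0' j
      have i3 : (j + 1) * h a * (ej P h j * (j.factorial : ℝ)) ≤
          (j + 1) * h a * (∑ p ∈ P, h p) ^ j :=
        mul_le_mul_of_nonneg_left i2 (by positivity)
      have e : h a * ej P h j * ((j + 1).factorial : ℝ) =
          (j + 1) * h a * (ej P h j * (j.factorial : ℝ)) := by
        rw [Nat.factorial_succ]
        push_cast
        ring
      rw [e]
      exact add_le_add i1 i3

lemma rho_le (f : ℤ[X]) (p : ℕ) : rho f p ≤ p := by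
  unfold rho
  exact (card_filter_le _ _).trans (card_range p).le

lemma norm_conv {u : ℂ} (hu : ‖1 + u‖ ≤ 1) {x : ℝ} (h0 : 0 ≤ x) (h1 : x ≤ 1) :
    ‖1 + u * (x : ℂ)‖ ≤ 1 := by
  have e : 1 + u * (x : ℂ) = ((1 - x : ℝ) : ℂ) + (x : ℂ) * (1 + u) := by
    push_cast
    ring
  rw [e]
  refine (norm_add_le _ _).trans ?_
  rw [norm_mul, Complex.norm_real, Complex.norm_real, Real.norm_of_nonneg h0,
    Real.norm_of_nonneg (by linarith)]
  nlinarith

open scoped Classical in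
/-- the mean of `w ^ ω` compared with the model -/
theorem mean_diff (f : ℤ[X]) (P : Finset ℕ) (hP : ∀ p ∈ P, p.Prime) (A B : ℤ) (hAB : A ≤ B)
    {u : ℂ} (hu : ‖1 + u‖ ≤ 1) (J : ℕ) :
    ‖∑ t ∈ Ioc A B, (1 + u) ^ (om f P t) -
      (((B : ℝ) - A : ℝ) : ℂ) * ∏ p ∈ P, (1 + u * (((rho f p : ℝ) / p : ℝ) : ℂ))‖ ≤
    ∑ j ∈ range (J + 1), ‖u‖ ^ j * ej P (fun p => (rho f p : ℝ)) j +
      2 * ((B : ℝ) - A) * (‖u‖ ^ J * ej P (fun p => (rho f p : ℝ) / p) J) := by
  set L : ℝ := (B : ℝ) - A with hL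
  have hL0 : 0 ≤ L := by
    rw [hL, sub_nonneg]
    exact_mod_cast hAB
  set ind : ℤ → ℕ → ℝ := fun t p => if (p : ℤ) ∣ f.eval t then 1 else 0 with hind
  set h : ℕ → ℝ := fun p => (rho f p : ℝ) / p with hh
  have hh0 : ∀ p, 0 ≤ h p := fun p => by rw [hh]; positivity
  have hh1 : ∀ p ∈ P, h p ≤ 1 := by
    intro p hp
    have hp0 : (0 : ℝ) < p := by exact_mod_cast (hP p hp).pos
    rw [hh]
    dsimp only
    rw [div_le_one hp0]
    exact_mod_cast rho_le f p
  have hi0 : ∀ t p, 0 ≤ ind t p := by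
    intro t p
    simp only [hind]
    split_ifs <;> norm_num
  have hi1 : ∀ t p, ind t p ≤ 1 := by
    intro t p
    simp only [hind]
    split_ifs <;> norm_num
  have hpow : ∀ t, (1 + u) ^ (om f P t) = ∏ p ∈ P, (1 + u * (ind t p : ℂ)) := by
    intro t
    unfold om
    have e : ∀ p ∈ P, (1 + u * (ind t p : ℂ)) = if (p : ℤ) ∣ f.eval t then 1 + u else 1 := by
      intro p _
      simp only [hind]
      split_ifs <;> simp
    rw [prod_congr rfl e, prod_ite, prod_const, prod_const_one, mul_one]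
  -- the sums of the elementary symmetric sums
  have hcnt : ∀ j, |∑ t ∈ Ioc A B, ej P (ind t) j - L * ej P h j| ≤
      ej P (fun p => (rho f p : ℝ)) j := by
    intro j
    unfold ej
    rw [sum_comm, mul_sum, ← sum_sub_distrib]
    refine (abs_sum_le_sum_abs _ _).trans (sum_le_sum fun T hT => ?_)
    have hTP : T ⊆ P := (mem_powersetCard.1 hT).1
    have hc := count_class f A B hAB 1 le_rfl 0 T (fun q hq =>
      ⟨hP q (hTP hq), (hP q (hTP hq)).one_lt.ne' ∘ Nat.dvd_one.1⟩) (fun _ => 0)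
    have hc' : |(((Ioc A B).filter (fun t : ℤ => ∀ p ∈ T, (p : ℤ) ∣ f.eval t)).card : ℝ) -
        L * ∏ p ∈ T, h p| ≤ ∏ p ∈ T, (rho f p : ℝ) := by
      simpa [hh, hL] using hc
    have e : (((Ioc A B).filter (fun t : ℤ => ∀ p ∈ T, (p : ℤ) ∣ f.eval t)).card : ℝ) =
        ∑ t ∈ Ioc A B, ∏ p ∈ T, ind t p := by
      rw [card_filter]
      push_cast
      refine sum_congr rfl fun t _ => ?_
      simp only [hind]
      by_cases hall : ∀ p ∈ T, (p : ℤ) ∣ f.eval t
      · rw [if_pos hall, prod_eq_one]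
        intro p hp
        rw [if_pos (hall p hp)]
      · rw [if_neg hall]
        push Not at hall
        obtain ⟨p, hp, hnd⟩ := hall
        symm
        apply prod_eq_zero hp
        rw [if_neg hnd]
    rw [e] at hc'
    exact hc'
  have t1 : ‖∑ t ∈ Ioc A B, ((1 + u) ^ (om f P t) - ∑ j ∈ range J, u ^ j * (ej P (ind t) j : ℂ))‖ ≤
      ‖u‖ ^ J * ∑ t ∈ Ioc A B, ej P (ind t) J := by
    rw [mul_sum]
    refine (norm_sum_le _ _).trans (sum_le_sum fun t _ => ?_)
    rw [hpow]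
    exact trunc u P (ind t) (fun p _ => hi0 t p) (fun p _ => norm_conv hu (hi0 t p) (hi1 t p)) J
  have t2 := trunc u P h (fun p _ => hh0 p) (fun p hp => norm_conv hu (hh0 p) (hh1 p hp)) J
  have t3 : ‖∑ t ∈ Ioc A B, ∑ j ∈ range J, u ^ j * (ej P (ind t) j : ℂ) -
      (L : ℂ) * ∑ j ∈ range J, u ^ j * (ej P h j : ℂ)‖ ≤
      ∑ j ∈ range J, ‖u‖ ^ j * ej P (fun p => (rho f p : ℝ)) j := by
    rw [sum_comm, mul_sum, ← sum_sub_distrib]
    refine (norm_sum_le _ _).trans (sum_le_sum fun j _ => ?_)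
    have e : ∑ t ∈ Ioc A B, u ^ j * (ej P (ind t) j : ℂ) - (L : ℂ) * (u ^ j * (ej P h j : ℂ)) =
        u ^ j * ((∑ t ∈ Ioc A B, ej P (ind t) j - L * ej P h j : ℝ) : ℂ) := by
      rw [← mul_sum]
      push_cast
      ring
    rw [e, norm_mul, norm_pow, Complex.norm_real]
    exact mul_le_mul_of_nonneg_left (hcnt j) (by positivity)
  have e : ∑ t ∈ Ioc A B, (1 + u) ^ (om f P t) - (L : ℂ) * ∏ p ∈ P, (1 + u * (h p : ℂ)) =
      (∑ t ∈ Ioc A B, ((1 + u) ^ (om f P t) - ∑ j ∈ range J, u ^ j * (ej P (ind t) j : ℂ))) +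
      (∑ t ∈ Ioc A B, ∑ j ∈ range J, u ^ j * (ej P (ind t) j : ℂ) -
        (L : ℂ) * ∑ j ∈ range J, u ^ j * (ej P h j : ℂ)) -
      (L : ℂ) * (∏ p ∈ P, (1 + u * (h p : ℂ)) - ∑ j ∈ range J, u ^ j * (ej P h j : ℂ)) := by
    rw [sum_sub_distrib]
    ring
  rw [e]
  refine (norm_sub_le _ _).trans ?_
  refine (add_le_add (norm_add_le _ _) le_rfl).trans ?_
  rw [norm_mul, Complex.norm_real, Real.norm_of_nonneg hL0]
  have hJ := (abs_le.1 (hcnt J)).2
  have t4 : ‖u‖ ^ J * ∑ t ∈ Ioc A B, ej P (ind t) J ≤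
      ‖u‖ ^ J * (L * ej P h J + ej P (fun p => (rho f p : ℝ)) J) :=
    mul_le_mul_of_nonneg_left (by linarith) (by positivity)
  have t5 := mul_le_mul_of_nonneg_left t2 hL0
  rw [sum_range_succ]
  calc _ ≤ ‖u‖ ^ J * (L * ej P h J + ej P (fun p => (rho f p : ℝ)) J) +
        ∑ j ∈ range J, ‖u‖ ^ j * ej P (fun p => (rho f p : ℝ)) j +
        L * (‖u‖ ^ J * ej P h J) := by
        linarith
    _ = _ := by ring

end Pool.Agent.U409.GL
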