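import Pool.Agent.U409.GL.Clt5
import Pool.Agent.U409.LS.Sq

/-!
# The Gaussian law for a function that is close to the number of prime divisors
-/

set_option autoImplicit false

namespace Pool.Agent.U409.GL

open Finset Polynomial Filter Topology ProbabilityTheory
open Pool.Agent.H474R2.PG (rho)
open Pool.Agent.U214.PT (Pg)
open Pool.Agent.U409.LS (om SS rt8 rt8_le lt_rt8 rt8_tendsto sq_count)

lemma om_z (G : ℤ[X]) (pr : ℕ → Prop) {z0 z y : ℕ} (hz : z0 ≤ z) (t : ℤ) :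
    |(om G (QQ pr z y) t : ℝ) - om G (QQ pr z0 y) t| ≤ z := by
  classical
  have h1 : om G (QQ pr z y) t ≤ om G (QQ pr z0 y) t := by
    unfold om
    apply card_le_card
    apply filter_subset_filter
    intro p hp
    rw [mem_QQ] at hp ⊢
    exact ⟨⟨by omega, hp.1.2⟩, hp.2⟩
  have h2 : om G (QQ pr z0 y) t ≤ om G (QQ pr z y) t + z := by
    unfold om
    have h3 : (QQ pr z0 y).filter (fun p : ℕ => (p : ℤ) ∣ G.eval t) ⊆
        (QQ pr z y).filter (fun p : ℕ => (p : ℤ) ∣ G.eval t) ∪ Icc 1 z := by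
      intro p hp
      rw [mem_filter, mem_QQ] at hp
      rw [mem_union, mem_filter, mem_QQ, mem_Icc]
      rcases Nat.lt_or_ge z p with h | h
      · exact Or.inl ⟨⟨⟨h, hp.1.1.2⟩, hp.1.2⟩, hp.2⟩
      · exact Or.inr ⟨hp.1.2.1.one_lt.le, h⟩
    refine (card_le_card h3).trans ((card_union_le _ _).trans ?_)
    rw [Nat.card_Icc, Nat.add_sub_cancel]
  have h3 : (om G (QQ pr z y) t : ℝ) ≤ om G (QQ pr z0 y) t := by exact_mod_cast h1
  have h4 : (om G (QQ pr z0 y) t : ℝ) ≤ om G (QQ pr z y) t + z := by exact_mod_cast h2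
  rw [abs_le]
  constructor <;> linarith

open scoped Classical in
/-- **the transfer** -/
theorem gauss_core {G : ℤ[X]} {d z0 : ℕ} (hPg : Pg G d z0) (pr : ℕ → Prop) {κ : ℝ} (hκ : 0 < κ)
    {C : ℝ} (hM : ∀ y : ℕ, 3 ≤ y → |SS G (QQ pr z0 y) - κ * Real.log (Real.log y)| ≤ C)
    (Q : ℤ → ℝ) (hQ0 : ∀ t, 0 ≤ Q t)
    (hQ : ∃ C : ℝ, ∀ X : ℕ, 1 ≤ X → ∑ t ∈ Icc (-(X : ℤ)) X, Q t ≤ C * X)
    (Z : Finset ℤ) (V : ℤ → ℝ)
    (hV : ∀ z T : ℕ, z0 ≤ z → ∃ A : ℝ, ∀ᶠ X : ℕ in atTop, ∀ t ∈ Icc (-(X : ℤ)) X, t ∉ Z →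
      Q t ≤ T → (¬ ∃ p : ℕ, p.Prime ∧ z < p ∧ p ≤ rt8 X ∧ (p : ℤ) ^ 2 ∣ G.eval t) →
      |V t - om G (QQ pr z (rt8 X)) t| ≤ A) (a : ℝ) :
    Tendsto (fun X : ℕ => (((Icc (-(X : ℤ)) X).filter (fun t =>
      (V t - κ * Real.log (Real.log X)) / Real.sqrt (κ * Real.log (Real.log X)) ≤ a)).card : ℝ) /
        (2 * X + 1)) atTop (𝓝 ((gaussianReal 0 1).real (Set.Iic a))) := by
  obtain ⟨CQ, hCQ⟩ := hQ
  have hIoc : ∀ X : ℕ, Ioc (-(X : ℤ) - 1) X = Icc (-(X : ℤ)) X := by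
    intro X
    ext t
    rw [mem_Ioc, mem_Icc]
    omega
  have hIc : ∀ X : ℕ, ((Icc (-(X : ℤ)) X).card : ℝ) = 2 * X + 1 := by
    intro X
    rw [Int.card_Icc]
    have : ((X : ℤ) + 1 - (-(X : ℤ))).toNat = 2 * X + 1 := by omega
    rw [this]
    push_cast
    ring
  have hIn : ∀ X : ℕ, (Icc (-(X : ℤ)) X).Nonempty := fun X => ⟨0, by rw [mem_Icc]; omega⟩
  set σ : ℕ → ℝ := fun X => Real.sqrt (κ * Real.log (Real.log X)) with hσd
  have hσ : Tendsto σ atTop atTop :=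
    Real.tendsto_sqrt_atTop.comp (loglog_tendsto.const_mul_atTop hκ)
  have hclt : ∀ a : ℝ, Tendsto (fun X : ℕ => (((Icc (-(X : ℤ)) X).filter (fun t =>
      ((om G (QQ pr z0 (rt8 X)) t : ℝ) - κ * Real.log (Real.log X)) / σ X ≤ a)).card : ℝ) /
        ((Icc (-(X : ℤ)) X).card : ℝ)) atTop (𝓝 ((gaussianReal 0 1).real (Set.Iic a))) := by
    intro a
    refine (clt_om hPg.rho pr hκ hM a).congr fun X => ?_
    rw [hIoc]
  have key := nearby (fun X : ℕ => Icc (-(X : ℤ)) X) hIn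
    (fun X t => ((om G (QQ pr z0 (rt8 X)) t : ℝ) - κ * Real.log (Real.log X)) / σ X)
    (fun X t => (V t - κ * Real.log (Real.log X)) / σ X) _ cont_phi hclt ?_ a
  · refine key.congr fun X => ?_
    rw [hIc]
  intro ε hε δ hδ
  have hCQ0 : 0 ≤ CQ := by
    have h1 := hCQ 1 le_rfl
    have h2 : 0 ≤ ∑ t ∈ Icc (-((1 : ℕ) : ℤ)) (1 : ℕ), Q t := sum_nonneg fun t _ => hQ0 t
    have h3 := h2.trans h1
    simpa using h3
  -- the parameters
  obtain ⟨T, hT⟩ := exists_nat_ge (4 * CQ / δ + 1)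
  obtain ⟨z1, hz1⟩ := exists_nat_ge (12 * d / δ)
  set z : ℕ := z0 + z1 + 1 with hz
  have hT0 : (0 : ℝ) < T := by
    have h1 : 0 ≤ 4 * CQ / δ := by positivity
    linarith
  have hTC : CQ ≤ δ / 4 * T := by
    have h1 : 4 * CQ / δ ≤ T := by linarith
    rw [div_le_iff₀ hδ] at h1
    linarith
  have hzr : (12 * d : ℝ) ≤ z * δ := by
    have h1 : (12 * d / δ : ℝ) ≤ z := hz1.trans (by exact_mod_cast (by omega : z1 ≤ z))
    rwa [div_le_iff₀ hδ] at h1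
  obtain ⟨A, hA⟩ := hV z T (by omega)
  have hX : Tendsto (fun X : ℕ => (X : ℝ)) atTop atTop := tendsto_natCast_atTop_atTop
  have hy : Tendsto (fun X : ℕ => (rt8 X : ℝ)) atTop atTop :=
    tendsto_natCast_atTop_atTop.comp rt8_tendsto
  filter_upwards [hA, hσ.eventually_ge_atTop ((A + z) / ε), hσ.eventually_gt_atTop 0,
    hX.eventually_ge_atTop (4 * Z.card / δ), rt8_tendsto.eventually (eventually_ge_atTop (z + 3)),
    hy.eventually_ge_atTop (8 * d / δ), eventually_ge_atTop 1] with X e1 e2 e3 e4 e5 e6 e7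
  rw [hIc]
  have hXr : (1 : ℝ) ≤ X := by exact_mod_cast e7
  have hyr : (1 : ℝ) ≤ rt8 X := by exact_mod_cast (by omega : 1 ≤ rt8 X)
  have hyXr : (rt8 X : ℝ) ^ 8 ≤ X := by exact_mod_cast rt8_le X
  set E0 := (Icc (-(X : ℤ)) X).filter (fun t => ε < |(V t - κ * Real.log (Real.log X)) / σ X -
    ((om G (QQ pr z0 (rt8 X)) t : ℝ) - κ * Real.log (Real.log X)) / σ X|) with hE0
  set E1 := (Icc (-(X : ℤ)) X).filter (fun t => (T : ℝ) < Q t) with hE1
  set E2 := (Ioc (-(X : ℤ) - 1) X).filter (fun t : ℤ => ∃ p : ℕ, p.Prime ∧ z < p ∧ p ≤ rt8 X ∧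
      (p : ℤ) ^ 2 ∣ G.eval t) with hE2
  have c1 : (E1.card : ℝ) ≤ δ / 4 * X := by
    have h1 := hCQ X e7
    have h2 : (E1.card : ℝ) * T ≤ CQ * X := by
      refine le_trans ?_ h1
      rw [← nsmul_eq_mul, ← sum_const]
      refine (sum_le_sum fun t ht => ?_).trans
        (sum_le_sum_of_subset_of_nonneg (filter_subset _ _) fun t _ _ => hQ0 t)
      exact (mem_filter.1 ht).2.le
    have h3 : (E1.card : ℝ) * T ≤ (δ / 4 * X) * T := by
      refine h2.trans ?_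
      calc CQ * X ≤ (δ / 4 * T) * X := mul_le_mul_of_nonneg_right hTC (by linarith)
        _ = _ := by ring
    exact le_of_mul_le_mul_right h3 hT0
  have c2 : (E2.card : ℝ) ≤ 3 * δ / 8 * X := by
    have h1 := sq_count G (y := rt8 X) hPg (by omega : z0 ≤ z) (by omega) (by omega)
      (-(X : ℤ) - 1) X (by omega)
    refine h1.trans ?_
    have hz0r : (0 : ℝ) < z := by exact_mod_cast (by omega : 0 < z)
    have hLen : (((X : ℤ) : ℝ) - ((-(X : ℤ) - 1 : ℤ) : ℝ)) ≤ 3 * X := by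
      push_cast
      linarith
    have h2 : (d : ℝ) * ((((X : ℤ) : ℝ) - ((-(X : ℤ) - 1 : ℤ) : ℝ)) / z) ≤ δ / 4 * X := by
      rw [mul_div_assoc', div_le_iff₀ hz0r]
      have h3 : (d : ℝ) * (((X : ℤ) : ℝ) - ((-(X : ℤ) - 1 : ℤ) : ℝ)) ≤ d * (3 * X) :=
        mul_le_mul_of_nonneg_left hLen (Nat.cast_nonneg _)
      have h4 : (12 * (d : ℝ)) * X ≤ (z * δ) * X := mul_le_mul_of_nonneg_right hzr (by linarith)
      linarith
    have h3 : (d : ℝ) * rt8 X ≤ δ / 8 * X := by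
      rw [div_le_iff₀ hδ] at e6
      have h5 : (rt8 X : ℝ) ^ 2 ≤ X := by
        refine le_trans ?_ hyXr
        exact pow_le_pow_right₀ hyr (by norm_num)
      have h6 : 8 * (d : ℝ) * rt8 X ≤ rt8 X * δ * rt8 X :=
        mul_le_mul_of_nonneg_right e6 (by linarith)
      have h7 : δ / 8 * (rt8 X : ℝ) ^ 2 ≤ δ / 8 * X := mul_le_mul_of_nonneg_left h5 (by linarith)
      linarith
    have h4 : (d : ℝ) * ((((X : ℤ) : ℝ) - ((-(X : ℤ) - 1 : ℤ) : ℝ)) / z + rt8 X) =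
        (d : ℝ) * ((((X : ℤ) : ℝ) - ((-(X : ℤ) - 1 : ℤ) : ℝ)) / z) + d * rt8 X := by ring
    rw [h4]
    linarith
  have c3 : (Z.card : ℝ) ≤ δ / 4 * X := by
    rw [div_le_iff₀ hδ] at e4
    linarith
  have hsub : E0 ⊆ E1 ∪ (E2 ∪ Z) := by
    intro t ht
    rw [hE0, mem_filter] at ht
    obtain ⟨htI, ht⟩ := ht
    rw [mem_union, mem_union]
    by_contra hcon
    push Not at hcon
    obtain ⟨n1, n2, n3⟩ := hcon
    rw [hE1, mem_filter, not_and] at n1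
    rw [hE2, mem_filter, not_and, hIoc] at n2
    have h1 := e1 t htI n3 (not_lt.1 (n1 htI)) (n2 htI)
    have h2 := om_z G pr (y := rt8 X) (by omega : z0 ≤ z) t
    have h3 : (V t - κ * Real.log (Real.log X)) / σ X -
        ((om G (QQ pr z0 (rt8 X)) t : ℝ) - κ * Real.log (Real.log X)) / σ X =
        ((V t - om G (QQ pr z (rt8 X)) t) + ((om G (QQ pr z (rt8 X)) t : ℝ) -
          om G (QQ pr z0 (rt8 X)) t)) / σ X := by ring
    rw [h3, abs_div, abs_of_pos e3, lt_div_iff₀ e3] at ht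
    rw [div_le_iff₀ hε] at e2
    have h4 := abs_add_le (V t - om G (QQ pr z (rt8 X)) t) ((om G (QQ pr z (rt8 X)) t : ℝ) -
          om G (QQ pr z0 (rt8 X)) t)
    linarith
  have h1 : (E0.card : ℝ) ≤ E1.card + (E2.card + Z.card) := by
    have h2 := card_le_card hsub
    have h3 := card_union_le E1 (E2 ∪ Z)
    have h4 := card_union_le E2 Z
    have h5 : E0.card ≤ E1.card + (E2.card + Z.card) := by omega
    exact_mod_cast h5
  have h2 : (0 : ℝ) ≤ δ * X := by positivity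
  linarith

end Pool.Agent.U409.GL
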