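import Mathlib

/-!
# The kernel of a matrix of signs and the kernel of the transposed matrix
-/

set_option autoImplicit false

namespace Pool.Agent.U409.GL

open Finset

/-- the kernel -/
def Kr (G H : Finset ℕ) (c : ℕ → ℕ → ℤˣ) : Finset (Finset ℕ) :=
  G.powerset.filter (fun S => ∀ q ∈ H, ∏ p ∈ S, c q p = 1)

lemma unit_cast_prod (S : Finset ℕ) (f : ℕ → ℤˣ) :
    ((∏ p ∈ S, f p : ℤˣ) : ℤ) = ∏ p ∈ S, ((f p : ℤˣ) : ℤ) := by
  rw [Units.coe_prod]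

/-- the sum of the characters -/
lemma char_sum (G H : Finset ℕ) (c : ℕ → ℕ → ℤˣ) :
    ∑ S ∈ G.powerset, ∑ T ∈ H.powerset, ∏ q ∈ T, ∏ p ∈ S, ((c q p : ℤˣ) : ℤ) =
      (Kr G H c).card * 2 ^ H.card := by
  have h1 : ∀ S ∈ G.powerset, ∑ T ∈ H.powerset, ∏ q ∈ T, ∏ p ∈ S, ((c q p : ℤˣ) : ℤ) =
      if ∀ q ∈ H, ∏ p ∈ S, c q p = 1 then 2 ^ H.card else 0 := by
    intro S _
    rw [← Finset.prod_one_add]
    split_ifs with h
    · rw [← prod_const]
      refine prod_congr rfl fun q hq => ?_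
      rw [← unit_cast_prod, h q hq]
      norm_num
    · push Not at h
      obtain ⟨q, hq, hne⟩ := h
      apply prod_eq_zero hq
      rw [← unit_cast_prod]
      rcases Int.units_eq_one_or (∏ p ∈ S, c q p) with h2 | h2
      · exact absurd h2 hne
      · rw [h2]
        norm_num
  rw [sum_congr rfl h1, ← sum_filter, sum_const, nsmul_eq_mul]
  rfl

/-- **the two kernels** -/
theorem dual (G H : Finset ℕ) (c : ℕ → ℕ → ℤˣ) :
    (Kr G H c).card * 2 ^ H.card = (Kr H G (fun p q => c q p)).card * 2 ^ G.card := by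
  have h1 := char_sum G H c
  have h2 := char_sum H G (fun p q => c q p)
  rw [sum_comm] at h1
  have h3 : ∑ T ∈ H.powerset, ∑ S ∈ G.powerset, ∏ q ∈ T, ∏ p ∈ S, ((c q p : ℤˣ) : ℤ) =
      ∑ T ∈ H.powerset, ∑ S ∈ G.powerset, ∏ p ∈ S, ∏ q ∈ T, ((c q p : ℤˣ) : ℤ) :=
    sum_congr rfl fun T _ => sum_congr rfl fun S _ => prod_comm
  rw [h3, h2] at h1
  exact_mod_cast h1.symm

lemma prod_symm {M : Type*} [CommGroup M] (hM : ∀ m : M, m * m = 1) (c : ℕ → M)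
    (S T : Finset ℕ) : ∏ p ∈ symmDiff S T, c p = (∏ p ∈ S, c p) * ∏ p ∈ T, c p := by
  have e1 : ∏ p ∈ symmDiff S T, c p = (∏ p ∈ S \ T, c p) * ∏ p ∈ T \ S, c p := by
    rw [symmDiff_def]
    exact prod_union disjoint_sdiff_sdiff
  have e2 : ∏ p ∈ S, c p = (∏ p ∈ S \ T, c p) * ∏ p ∈ S ∩ T, c p := by
    rw [← prod_union (disjoint_sdiff_inter S T)]
    rw [sdiff_union_inter]
  have e3 : ∏ p ∈ T, c p = (∏ p ∈ T \ S, c p) * ∏ p ∈ S ∩ T, c p := by
    rw [inter_comm, ← prod_union (disjoint_sdiff_inter T S)]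
    rw [sdiff_union_inter]
  rw [e1, e2, e3]
  have e4 := hM (∏ p ∈ S ∩ T, c p)
  calc (∏ p ∈ S \ T, c p) * ∏ p ∈ T \ S, c p
      = ((∏ p ∈ S \ T, c p) * (∏ p ∈ T \ S, c p)) *
        ((∏ p ∈ S ∩ T, c p) * ∏ p ∈ S ∩ T, c p) := by rw [e4, mul_one]
    _ = _ := mul_mul_mul_comm _ _ _ _

lemma unit_sq (u : ℤˣ) : u * u = 1 := by
  rcases Int.units_eq_one_or u with h | h <;> rw [h] <;> rfl

lemma kr_symm {G H : Finset ℕ} {c : ℕ → ℕ → ℤˣ} {S T : Finset ℕ} (hS : S ∈ Kr G H c)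
    (hT : T ∈ Kr G H c) : symmDiff S T ∈ Kr G H c := by
  unfold Kr at *
  rw [mem_filter, mem_powerset] at *
  refine ⟨fun x hx => ?_, fun q hq => ?_⟩
  · rcases mem_symmDiff.1 hx with h | h
    · exact hS.1 h.1
    · exact hT.1 h.1
  · rw [prod_symm unit_sq, hS.2 q hq, hT.2 q hq, one_mul]

/-- the cosets -/
theorem coset (G H : Finset ℕ) (c : ℕ → ℕ → ℤˣ) (b : ℕ → ℤˣ) :
    (G.powerset.filter (fun S => ∀ q ∈ H, ∏ p ∈ S, c q p = b q)).card ≤ (Kr G H c).card := by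
  rcases (G.powerset.filter (fun S => ∀ q ∈ H, ∏ p ∈ S, c q p = b q)).eq_empty_or_nonempty with
    h2 | ⟨S0, h2⟩
  · rw [h2, card_empty]
    exact Nat.zero_le _
  rw [mem_filter, mem_powerset] at h2
  refine card_le_card_of_injOn (fun S => symmDiff S S0) ?_ ?_
  · intro S hS
    unfold Kr
    rw [mem_coe, mem_filter, mem_powerset] at hS ⊢
    refine ⟨?_, ?_⟩
    · intro x hx
      rcases mem_symmDiff.1 hx with h | h
      · exact hS.1 h.1
      · exact h2.1 h.1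
    · intro q hq
      rw [prod_symm unit_sq, hS.2 q hq, h2.2 q hq, unit_sq]
  · intro S _ T _ h
    exact symmDiff_left_injective S0 h

/-- additional conditions -/
theorem cut (M : Type) [CommGroup M] [Fintype M] [DecidableEq M] (hM : ∀ m : M, m * m = 1)
    (𝒦 : Finset (Finset ℕ)) (h𝒦 : ∀ S ∈ 𝒦, ∀ T ∈ 𝒦, symmDiff S T ∈ 𝒦) (c : ℕ → M) :
    𝒦.card ≤ Fintype.card M * (𝒦.filter (fun S => ∏ p ∈ S, c p = 1)).card := by
  have h1 : 𝒦.card = ∑ m : M, (𝒦.filter (fun S => ∏ p ∈ S, c p = m)).card :=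
    card_eq_sum_card_fiberwise (fun _ _ => mem_univ _)
  rw [h1, ← card_univ, ← smul_eq_mul, ← sum_const]
  refine sum_le_sum fun m _ => ?_
  rcases (𝒦.filter (fun S => ∏ p ∈ S, c p = m)).eq_empty_or_nonempty with h2 | ⟨S0, h2⟩
  · rw [h2, card_empty]
    exact Nat.zero_le _
  rw [mem_filter] at h2
  refine card_le_card_of_injOn (fun S => symmDiff S S0) ?_ ?_
  · intro S hS
    rw [mem_coe, mem_filter] at hS ⊢
    exact ⟨h𝒦 S hS.1 S0 h2.1, by rw [prod_symm hM, hS.2, h2.2, hM]⟩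
  · intro S _ T _ h
    exact symmDiff_left_injective S0 h

end Pool.Agent.U409.GL
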