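import Pool.Agent.U409.GL.Gau

/-!
# The distribution function
-/

set_option autoImplicit false

namespace Pool.Agent.U409.GL

open Finset Polynomial Filter Topology ProbabilityTheory MeasureTheory
open Pool.Agent.TH841.SH.D (ShaTor)
open Pool.Agent.U409.LS (WW Hyp QF)

/-- `Ш[2]` is finite -/
theorem fin_sha {r s d : ℤ} (hr : r ≠ 0) (hs : s ≠ 0) (hrs : r ≠ s) (hd : d ≠ 0) :
    Finite (ShaTor (WW r s d) 2) := by
  have hne : r * s * (r - s) * d ≠ 0 :=
    mul_ne_zero (mul_ne_zero (mul_ne_zero hr hs) (sub_ne_zero.2 hrs)) hd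
  have hyp : Hyp r s d ∅ ((r * s * (r - s) * d).natAbs.primeFactors.filter (fun p => p ≠ 2)) := by
    refine ⟨hr, hs, hrs, hd, fun p hp => absurd hp (notMem_empty p),
      fun p hp => absurd hp (notMem_empty p), fun p hp => absurd hp (notMem_empty p),
      fun p hp => absurd hp (notMem_empty p), fun p hp => ?_, fun p hp hp2 hpd => ?_⟩
    · rw [mem_filter] at hp
      exact ⟨Nat.prime_of_mem_primeFactors hp.1, hp.2, notMem_empty p⟩
    · right
      rw [mem_filter, Nat.mem_primeFactors]
      exact ⟨⟨hp, Int.natCast_dvd.1 hpd, Int.natAbs_ne_zero.2 hne⟩, hp2⟩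
  exact (sha_up hyp).1

/-- the distribution function of the normal law -/
lemma phi_eq (a : ℝ) : (gaussianReal 0 1).real (Set.Iic a) =
    (Real.sqrt (2 * Real.pi))⁻¹ * ∫ x in Set.Iic a, Real.exp (-x ^ 2 / 2) := by
  rw [Measure.real, gaussianReal_apply_eq_integral 0 one_ne_zero, ENNReal.toReal_ofReal]
  · rw [← integral_const_mul]
    congr 1
    funext x
    rw [gaussianPDFReal]
    norm_num
  · exact integral_nonneg fun x => gaussianPDFReal_nonneg _ _ _

open scoped Classical in
/-- removing finitely many values -/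
lemma rm_zeros (κ a L : ℝ) (hκ : 0 < κ) (D : ℤ[X]) (hD : D ≠ 0) (V : ℤ → ℝ)
    (h : Tendsto (fun X : ℕ => (((Icc (-(X : ℤ)) X).filter (fun t =>
      (V t - κ * Real.log (Real.log X)) / Real.sqrt (κ * Real.log (Real.log X)) ≤ a)).card : ℝ) /
        (2 * X + 1)) atTop (𝓝 L)) :
    Tendsto (fun X : ℕ => (((Icc (-(X : ℤ)) X).filter (fun t => D.eval t ≠ 0 ∧
      V t ≤ κ * Real.log (Real.log X) + a * Real.sqrt (κ * Real.log (Real.log X)))).card : ℝ) /
        (2 * X + 1)) atTop (𝓝 L) := by
  set Z : Finset ℤ := D.roots.toFinset with hZ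
  have hz : Tendsto (fun X : ℕ => (Z.card : ℝ) / (2 * X + 1)) atTop (𝓝 0) := by
    have h1 : Tendsto (fun X : ℕ => 2 * (X : ℝ) + 1) atTop atTop :=
      tendsto_atTop_add_const_right _ _ ((tendsto_natCast_atTop_atTop (R := ℝ)).const_mul_atTop
        (by norm_num))
    exact h1.const_div_atTop _
  have hlow : Tendsto (fun X : ℕ => (((Icc (-(X : ℤ)) X).filter (fun t =>
      (V t - κ * Real.log (Real.log X)) / Real.sqrt (κ * Real.log (Real.log X)) ≤ a)).card : ℝ) /
        (2 * X + 1) - (Z.card : ℝ) / (2 * X + 1)) atTop (𝓝 L) := by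
    have := h.sub hz
    simpa using this
  have hev : ∀ᶠ X : ℕ in atTop, ∀ t : ℤ, (V t - κ * Real.log (Real.log X)) /
      Real.sqrt (κ * Real.log (Real.log X)) ≤ a ↔
      V t ≤ κ * Real.log (Real.log X) + a * Real.sqrt (κ * Real.log (Real.log X)) := by
    filter_upwards [loglog_tendsto.eventually_gt_atTop 0] with X hX t
    have h1 : 0 < Real.sqrt (κ * Real.log (Real.log X)) := Real.sqrt_pos.2 (mul_pos hκ hX)
    rw [div_le_iff₀ h1]
    constructor <;> intro h2 <;> linarith
  refine tendsto_of_tendsto_of_tendsto_of_le_of_le' hlow h ?_ ?_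
  · filter_upwards [hev] with X hX
    have hp : (0 : ℝ) < 2 * X + 1 := by positivity
    rw [← sub_div]
    apply div_le_div_of_nonneg_right _ hp.le
    have h1 : (Icc (-(X : ℤ)) X).filter (fun t => (V t - κ * Real.log (Real.log X)) /
        Real.sqrt (κ * Real.log (Real.log X)) ≤ a) ⊆
        (Icc (-(X : ℤ)) X).filter (fun t => D.eval t ≠ 0 ∧
          V t ≤ κ * Real.log (Real.log X) + a * Real.sqrt (κ * Real.log (Real.log X))) ∪ Z := by
      intro t ht
      rw [mem_filter] at ht
      rw [mem_union, mem_filter]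
      by_cases hDt : D.eval t = 0
      · right
        rw [hZ, Multiset.mem_toFinset, mem_roots hD]
        exact hDt
      · exact Or.inl ⟨ht.1, hDt, (hX t).1 ht.2⟩
    have h2 := (card_le_card h1).trans (card_union_le _ _)
    have h3 : (((Icc (-(X : ℤ)) X).filter (fun t => (V t - κ * Real.log (Real.log X)) /
        Real.sqrt (κ * Real.log (Real.log X)) ≤ a)).card : ℝ) ≤
        ((Icc (-(X : ℤ)) X).filter (fun t => D.eval t ≠ 0 ∧
          V t ≤ κ * Real.log (Real.log X) + a * Real.sqrt (κ * Real.log (Real.log X)))).card +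
        Z.card := by exact_mod_cast h2
    linarith
  · filter_upwards [hev] with X hX
    have hp : (0 : ℝ) < 2 * X + 1 := by positivity
    apply div_le_div_of_nonneg_right _ hp.le
    have h1 : (Icc (-(X : ℤ)) X).filter (fun t => D.eval t ≠ 0 ∧
          V t ≤ κ * Real.log (Real.log X) + a * Real.sqrt (κ * Real.log (Real.log X))) ⊆
        (Icc (-(X : ℤ)) X).filter (fun t => (V t - κ * Real.log (Real.log X)) /
        Real.sqrt (κ * Real.log (Real.log X)) ≤ a) := by
      intro t ht
      rw [mem_filter] at ht ⊢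
      exact ⟨ht.1, (hX t).2 ht.2.2⟩
    exact_mod_cast card_le_card h1

end Pool.Agent.U409.GL
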