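import Pool.Agent.U409.GL.Loc2
import Pool.Agent.U409.SH.Sel2

/-!
# The upper bound for `Ш(W)[2]`, `W : y² = x³ - 2 A x² + (A² - 4 B) x`
-/

set_option autoImplicit false

namespace Pool.Agent.U409.GL

open WeierstrassCurve
open Pool.Agent.W262.SH (QB Pt act IsCoc IsCob LocTriv shaCoc cob Sha LocSol SelS)
open Pool.Agent.TH841.SH (IsR IsX act_some act_inj act_act gf exists_restr exists_emb fix_mem act_isX
  not_isX isX_zero isX_some kum)
open Pool.Agent.U409.LS (Wc Is2 is2 is2L Ok T0 act_T0 T0_two T0_ne fs fs_act IsRt rt_pm rt_ne rt_ex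
  neg_ne nons0)
open Pool.Agent.U409.SH (kf kf_lc kf_loc kf_mul loc_sub lc_act)

open scoped Classical

/-- the squarefree `c` for which the quartic has points at the odd primes -/
def Cc (A B : ℤ) : Set ℤ :=
  {c | Squarefree c ∧ ∀ (p : ℕ) [Fact p.Prime], p ≠ 2 → IsSquare (c : ℚ_[p]) ∨
    ∃ u N : ℚ_[p], (c : ℚ_[p]) * N ^ 2 = (c * u ^ 2) ^ 2 + A * (c * u ^ 2) + B}

variable {A B : ℤ}

/-- a representative with values in the points of order two -/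
lemma rep_two (h : Ok A B) (x : {c : Sha (Wc A B) // c + c = 0}) :
    ∃ g : shaCoc (Wc A B), (QuotientAddGroup.mk g : Sha (Wc A B)) = x.1 ∧
      ∀ σ, (g : (QB ≃ₐ[ℚ] QB) → Pt (Wc A B) QB) σ + (g : (QB ≃ₐ[ℚ] QB) → Pt (Wc A B) QB) σ = 0 := by
  obtain ⟨c, hc⟩ := x
  obtain ⟨f, rfl⟩ := QuotientAddGroup.mk_surjective c
  rw [← QuotientAddGroup.mk_add, QuotientAddGroup.eq_zero_iff, AddSubgroup.mem_addSubgroupOf] at hc
  obtain ⟨P, hP⟩ := hc
  obtain ⟨α, β, hW, hα, hβ, hαβ, -⟩ := roots h QB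
  obtain ⟨Q, rfl⟩ := hW.div two_ne_zero hα hβ hαβ P
  obtain ⟨f, ⟨h1, h2⟩, h3, h4⟩ := f
  have hmem : (fun σ => f σ - kf Q σ) ∈ shaCoc (Wc A B) := by
    refine ⟨⟨h1.sub (kf_lc Q), fun σ τ => ?_⟩, fun p _ => loc_sub (h3 p) (kf_loc Q _),
      loc_sub h4 (kf_loc Q _)⟩
    simp only
    rw [h2, kf_mul, map_sub]
    abel
  refine ⟨⟨_, hmem⟩, ?_, fun σ => ?_⟩
  · rw [QuotientAddGroup.eq_iff_sub_mem, AddSubgroup.mem_addSubgroupOf]
    refine ⟨-Q, fun σ => ?_⟩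
    show (f σ - kf Q σ) - f σ = _
    unfold kf
    rw [map_neg]
    abel
  · have e1 : f σ + f σ = act (Wc A B) σ.toAlgHom (Q + Q) - (Q + Q) := hP σ
    have e2 : (f σ - kf Q σ) + (f σ - kf Q σ) = (f σ + f σ) -
        (act (Wc A B) σ.toAlgHom (Q + Q) - (Q + Q)) := by
      unfold kf
      rw [map_add]
      abel
    show (f σ - kf Q σ) + (f σ - kf Q σ) = 0
    rw [e2, e1, sub_self]

lemma isX_act (σ : QB ≃ₐ[ℚ] QB) (T : Pt (Wc A B) QB) :
    IsX ((Wc A B).baseChange QB) 0 (act (Wc A B) σ.toAlgHom T) ↔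
      IsX ((Wc A B).baseChange QB) 0 T := by
  have h3 := act_isX (Wc A B) σ.toAlgHom 0 T
  rwa [map_zero] at h3

/-- the first square class -/
lemma cls_one (h : Ok A B) (g : shaCoc (Wc A B))
    (hg : ∀ σ, (g : (QB ≃ₐ[ℚ] QB) → Pt (Wc A B) QB) σ +
      (g : (QB ≃ₐ[ℚ] QB) → Pt (Wc A B) QB) σ = 0) :
    ∃ e : ℤ, Squarefree e ∧ ∀ s : QB, s ^ 2 = e → ∀ σ : QB ≃ₐ[ℚ] QB, σ s = s ↔
      IsX ((Wc A B).baseChange QB) 0 ((g : (QB ≃ₐ[ℚ] QB) → Pt (Wc A B) QB) σ) := by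
  obtain ⟨g, ⟨h1, h2⟩, h3, h4⟩ := g
  obtain ⟨α, β, hW, hα, hβ, hαβ, -⟩ := roots h QB
  obtain ⟨e, he, h5⟩ := kum
    (fun σ => decide (¬ IsX ((Wc A B).baseChange QB) 0 (g σ)))
    (h1.comp (fun T => decide (¬ IsX ((Wc A B).baseChange QB) 0 T)))
    (fun σ τ => by
      have h7 : act (Wc A B) σ.toAlgHom (g τ) + act (Wc A B) σ.toAlgHom (g τ) = 0 := by
        rw [← map_add]
        have := hg τ
        simp only at this
        rw [this, map_zero]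
      have h6 := hW.isX_add two_ne_zero hα hβ hαβ (hg σ) h7
      simp only at h6
      rw [← h2, isX_act] at h6
      have key : ∀ P Q R : Prop, (P ↔ (Q ↔ R)) →
          decide (¬ P) = xor (decide (¬ Q)) (decide (¬ R)) := by
        intro P Q R h
        by_cases hQ : Q <;> by_cases hR : R <;> simp [hQ, hR, h]
      exact key _ _ _ h6)
  refine ⟨e, he, fun s hs σ => ?_⟩
  rw [h5 s hs σ]
  simp

/-- the second square class -/
lemma cls_two (h : Ok A B) (f g : shaCoc (Wc A B))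
    (hf : ∀ σ, (f : (QB ≃ₐ[ℚ] QB) → Pt (Wc A B) QB) σ +
      (f : (QB ≃ₐ[ℚ] QB) → Pt (Wc A B) QB) σ = 0)
    (hg : ∀ σ, (g : (QB ≃ₐ[ℚ] QB) → Pt (Wc A B) QB) σ +
      (g : (QB ≃ₐ[ℚ] QB) → Pt (Wc A B) QB) σ = 0)
    (hfg : ∀ σ, IsX ((Wc A B).baseChange QB) 0 ((f : (QB ≃ₐ[ℚ] QB) → Pt (Wc A B) QB) σ) ↔
      IsX ((Wc A B).baseChange QB) 0 ((g : (QB ≃ₐ[ℚ] QB) → Pt (Wc A B) QB) σ)) :
    ∃ c ∈ Cc A B, ∀ s : QB, IsRt c s → ∀ σ, (f : (QB ≃ₐ[ℚ] QB) → Pt (Wc A B) QB) σ =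
      (g : (QB ≃ₐ[ℚ] QB) → Pt (Wc A B) QB) σ + fs h s σ := by
  obtain ⟨f, ⟨f1, f2⟩, f3, f4⟩ := f
  obtain ⟨g, ⟨g1, g2⟩, g3, g4⟩ := g
  simp only at hf hg hfg
  obtain ⟨α, β, hW, hα, hβ, hαβ, -⟩ := roots h QB
  have hneg : ∀ σ, -g σ = g σ := fun σ => neg_eq_of_add_eq_zero_left (hg σ)
  have hd2 : ∀ σ, (f σ - g σ) + (f σ - g σ) = 0 := by
    intro σ
    have : (f σ - g σ) + (f σ - g σ) = (f σ + f σ) - (g σ + g σ) := by abel
    rw [this, hf, hg, sub_zero]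
  have hval : ∀ σ, f σ - g σ = 0 ∨ f σ - g σ = T0 h QB := by
    intro σ
    have h1 : IsX ((Wc A B).baseChange QB) 0 (f σ - g σ) := by
      rw [sub_eq_add_neg, hneg]
      exact (hW.isX_add two_ne_zero hα hβ hαβ (hf σ) (hg σ)).2 (hfg σ)
    rcases h1 with h1 | ⟨y, hn, h1⟩
    · exact Or.inl h1
    · right
      rw [h1]
      have h9 := ((is2L A B QB).eqn 0 y).1 hn.1
      have hy : y = 0 := by
        have : y ^ 2 = 0 := by rw [h9]; ring
        exact pow_eq_zero_iff two_ne_zero |>.1 this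
      unfold T0
      rw [Affine.Point.some.injEq]
      exact ⟨rfl, hy⟩
  have hact : ∀ σ τ : QB ≃ₐ[ℚ] QB, act (Wc A B) σ.toAlgHom (f τ - g τ) = f τ - g τ := by
    intro σ τ
    rcases hval τ with h1 | h1
    · rw [h1, map_zero]
    · rw [h1, act_T0]
  have hmul : ∀ σ τ, f (σ * τ) - g (σ * τ) = (f σ - g σ) + (f τ - g τ) := by
    intro σ τ
    rw [← hact σ τ, map_sub, f2, g2]
    abel
  obtain ⟨e, he, h5⟩ := kum (fun σ => decide (f σ - g σ ≠ 0))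
    ((f1.sub g1).comp (fun T : Pt (Wc A B) QB => decide (T ≠ 0)))
    (fun σ τ => by
      rw [hmul]
      have hT := T0_ne h QB
      have hTT := T0_two h QB
      rcases hval σ with h1 | h1 <;> rcases hval τ with h2 | h2 <;> rw [h1, h2] <;>
        simp [hT, hTT])
  have hc0 : e ≠ 0 := he.ne_zero
  have hfs : ∀ s : QB, IsRt e s → ∀ σ, f σ - g σ = fs h s σ := by
    intro s hs σ
    have h6 := h5 s hs σ
    unfold fs
    split_ifs with h7
    · have := h6.1 h7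
      simpa using this
    · rcases hval σ with h8 | h8
      · exact absurd (h6.2 (by simp [h8])) h7
      · exact h8
  refine ⟨e, ⟨he, fun p _ hp2 => ?_⟩, fun s hs σ => ?_⟩
  · obtain ⟨s, hs⟩ := rt_ex e
    apply loc_c h hc0 hs
    have h6 : fs h s = fun σ => f σ - g σ := funext fun σ => (hfs s hs σ).symm
    rw [h6]
    exact loc_sub (f3 p) (g3 p)
  · rw [← hfs s hs σ]
    simp only
    abel

/-- **the upper bound** -/
theorem sha_le {a b : ℤ} (ha : a ≠ 0) (hb : b ≠ 0) (hab : a ≠ b) (hS : (SelS a b).Finite)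
    (hC : (Cc (-(a + b)) (a * b)).Finite) :
    Finite {c : Sha (Wc (-(a + b)) (a * b)) // c + c = 0} ∧
    Nat.card {c : Sha (Wc (-(a + b)) (a * b)) // c + c = 0} ≤
      (SelS a b).ncard * (Cc (-(a + b)) (a * b)).ncard := by
  have h : Ok (-(a + b)) (a * b) := by
    refine ⟨mul_ne_zero ha hb, ?_⟩
    have : (-(a + b)) ^ 2 - 4 * (a * b) = (a - b) ^ 2 := by ring
    rw [this]
    exact pow_ne_zero 2 (sub_ne_zero.2 hab)
  set X := {c : Sha (Wc (-(a + b)) (a * b)) // c + c = 0} with hX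
  choose g hg1 hg2 using fun x : X => rep_two h x
  choose m hm1 hm2 using fun x : X => cls_one h (g x) (hg2 x)
  have hmS : ∀ x, ((1 : ℤ), m x) ∈ SelS a b := by
    intro x
    refine ⟨squarefree_one, hm1 x, fun p _ hp2 => ?_⟩
    obtain ⟨s, hs⟩ := rt_ex (m x)
    exact loc_m hp2 ha hb hab (g x) (hg2 x) ((g x).2.2.1 p) (m x) s hs (hm2 x s hs)
  -- representatives
  let rp : ℤ → X := fun e => if h : ∃ x : X, m x = e then h.choose else ⟨0, add_zero 0⟩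
  have hrp : ∀ x, m (rp (m x)) = m x := by
    intro x
    have h1 : ∃ y : X, m y = m x := ⟨x, rfl⟩
    have e1 : rp (m x) = h1.choose := dif_pos h1
    rw [e1]
    exact h1.choose_spec
  have hcl : ∀ x, ∃ c ∈ Cc (-(a + b)) (a * b), ∀ s : QB, IsRt c s → ∀ σ,
      (g x : (QB ≃ₐ[ℚ] QB) → Pt (Wc (-(a + b)) (a * b)) QB) σ =
      (g (rp (m x)) : (QB ≃ₐ[ℚ] QB) → Pt (Wc (-(a + b)) (a * b)) QB) σ + fs h s σ := by
    intro x
    refine cls_two h (g x) (g (rp (m x))) (hg2 _) (hg2 _) (fun σ => ?_)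
    obtain ⟨s, hs⟩ := rt_ex (m x)
    rw [← hm2 x s hs σ, ← hm2 (rp (m x)) s (by rw [hrp]; exact hs) σ]
  choose c hc1 hc2 using hcl
  let Φ : X → (SelS a b) × (Cc (-(a + b)) (a * b)) := fun x => (⟨_, hmS x⟩, ⟨c x, hc1 x⟩)
  have hΦ : Function.Injective Φ := by
    intro x y hxy
    have h1 : m x = m y := by
      have := congrArg (fun z => z.1.1.2) hxy
      exact this
    have h2 : c x = c y := by
      have := congrArg (fun z => z.2.1) hxy
      exact this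
    obtain ⟨s, hs⟩ := rt_ex (c x)
    have h3 : (g x : (QB ≃ₐ[ℚ] QB) → Pt (Wc (-(a + b)) (a * b)) QB) = g y := by
      funext σ
      rw [hc2 x s hs σ, hc2 y s (by rw [← h2]; exact hs) σ, h1]
    apply Subtype.ext
    rw [← hg1 x, ← hg1 y, Subtype.ext h3]
  have hf1 : Finite (SelS a b) := hS.to_subtype
  have hf2 : Finite (Cc (-(a + b)) (a * b)) := hC.to_subtype
  refine ⟨Finite.of_injective Φ hΦ, ?_⟩
  have h5 := Nat.card_le_card_of_injective Φ hΦ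
  rw [Nat.card_prod] at h5
  exact h5

end Pool.Agent.U409.GL
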