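import Pool.Agent.U409.LS.Kern
import Pool.Agent.U409.SH.Sel1

/-!
# Local conditions for the classes of order two of `W : y² = x³ - 2 A x² + (A² - 4 B) x`
-/

set_option autoImplicit false

namespace Pool.Agent.U409.GL

open WeierstrassCurve
open Pool.Agent.W262.SH (QB Pt act IsCoc IsCob LocTriv shaCoc cob Sha LocSol)
open Pool.Agent.TH841.SH (IsR IsX act_some act_inj act_act gf exists_restr exists_emb fix_mem act_isX)
open Pool.Agent.U409.LS (Wc Is2 is2 is2L Ok T0 act_T0 T0_two fs fs_act IsRt rt_pm rt_ne rt_ex neg_ne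
  nons0)
open Pool.Agent.U409.SH (near_p sq_trans)

open scoped Classical

variable {A B : ℤ}

/-- the roots over an algebraically closed field -/
lemma roots (h : Ok A B) (Ω : Type) [Field Ω] [Algebra ℚ Ω] [IsAlgClosed Ω] :
    ∃ α β : Ω, IsR ((Wc A B).baseChange Ω) 0 α β ∧ (0 : Ω) ≠ α ∧ (0 : Ω) ≠ β ∧ α ≠ β ∧
      α * β = (A : Ω) ^ 2 - 4 * B := by
  have : CharZero Ω := algebraRat.charZero Ω
  obtain ⟨w, hw⟩ := IsAlgClosed.exists_pow_nat_eq (B : Ω) (n := 2) (by norm_num)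
  have hw0 : w ≠ 0 := by
    rintro rfl
    have : (B : Ω) = 0 := by rw [← hw]; ring
    exact h.hB (by exact_mod_cast this)
  have e1 : (A + 2 * w) * (A - 2 * w) = (A : Ω) ^ 2 - 4 * B := by
    rw [← hw]
    ring
  have hne : (A + 2 * w) * (A - 2 * w) ≠ 0 := by
    rw [e1]
    exact h.b Ω
  have h2 := is2L A B Ω
  refine ⟨A + 2 * w, A - 2 * w, ⟨h2.h1, ?_, h2.h3, ?_, ?_⟩, (left_ne_zero_of_mul hne).symm,
    (right_ne_zero_of_mul hne).symm, ?_, e1⟩
  · rw [h2.h2]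
    ring
  · rw [h2.h4, ← e1]
    ring
  · rw [h2.h6]
    ring
  · intro h3
    apply hw0
    have : 4 * w = 0 := by linear_combination h3
    exact (mul_eq_zero.1 this).resolve_left (by norm_num)

section gen

variable {K Ω : Type} [Field K] [Field Ω] [Algebra ℚ K] [Algebra K Ω] [Algebra ℚ Ω]
  [IsScalarTower ℚ K Ω] [IsGalois K Ω]

/-- the abscissa of the double, modulo squares -/
lemma dbl [IsAlgClosed Ω] (h : Ok A B) (f : (QB ≃ₐ[ℚ] QB) → Pt (Wc A B) QB)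
    (hf : ∀ σ, f σ + f σ = 0) (ι : QB →ₐ[ℚ] Ω) {R : Pt (Wc A B) Ω}
    (hR : ∀ (τ : Ω ≃ₐ[K] Ω) (σ : QB ≃ₐ[ℚ] QB),
      (τ.toAlgHom.restrictScalars ℚ).comp ι = ι.comp σ.toAlgHom →
      act (Wc A B) (τ.toAlgHom.restrictScalars ℚ) R = R + act (Wc A B) ι (f σ))
    (hR8 : ((R + R) + (R + R)) + ((R + R) + (R + R)) ≠ 0)
    (e : ℤ) (s : QB) (hs : s ^ 2 = e) (hse : ∀ σ : QB ≃ₐ[ℚ] QB, σ s = s ↔
      IsX ((Wc A B).baseChange QB) 0 (f σ)) :
    ∃ x y : K, y ≠ 0 ∧ y ^ 2 = x * (x ^ 2 + (-2 * (A : K)) * x + ((A : K) ^ 2 - 4 * B)) ∧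
      x ^ 2 ≠ (A : K) ^ 2 - 4 * B ∧ IsSquare (x * (e : K)) := by
  have : CharZero Ω := algebraRat.charZero Ω
  have h2 : (2 : Ω) ≠ 0 := two_ne_zero
  obtain ⟨α, β, hW, hα, hβ, hαβ, hprod⟩ := roots h Ω
  have hgf : ∀ {u v : Ω} (hn : ((Wc A B).baseChange Ω).toAffine.Nonsingular u v),
      gf ((Wc A B).baseChange Ω) 0 α β (.some u v hn) =
        (u ^ 2 - ((A : Ω) ^ 2 - 4 * B)) / (2 * v) := by
    intro u v hn
    show ((u - 0) ^ 2 - (0 - α) * (0 - β)) / (2 * v) = _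
    rw [← hprod]
    ring
  rcases R with _ | ⟨u, v, hn⟩
  · exact absurd rfl hR8
  have hv : v ≠ 0 := by
    intro hv
    have h5 := (hW.add_self h2 hn).2 hv
    apply hR8
    rw [h5]
    simp
  obtain ⟨X, Y, hn', e1, hX⟩ := hW.dup h2 hn hv
  rw [sub_zero] at hX
  have hY : Y ≠ 0 := by
    intro hY
    apply hR8
    rw [e1, (hW.add_self h2 hn').2 hY]
    simp
  obtain ⟨X2, Y2, hn2, e2, hX2⟩ := hW.dup h2 hn' hY
  rw [sub_zero] at hX2
  have hXb : X ^ 2 ≠ (A : Ω) ^ 2 - 4 * B := by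
    intro h3
    have h4 : X2 = 0 := by
      rw [hX2]
      have : (X - 0) ^ 2 - (0 - α) * (0 - β) = 0 := by
        rw [sub_zero, h3, ← hprod]
        ring
      rw [this]
      ring
    have h5 := (hW.eqn X2 Y2).1 hn2.1
    rw [h4] at h5
    have h6 : Y2 = 0 := by
      have : Y2 ^ 2 = 0 := by rw [h5]; ring
      exact pow_eq_zero_iff two_ne_zero |>.1 this
    apply hR8
    rw [e1, e2, (hW.add_self h2 hn2).2 h6]
  have hfix : ∀ τ : Ω ≃ₐ[K] Ω, τ X = X ∧ τ Y = Y := by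
    intro τ
    obtain ⟨σ, hσ⟩ := exists_restr ι τ
    have h6 : act (Wc A B) (τ.toAlgHom.restrictScalars ℚ) (.some X Y hn') = .some X Y hn' := by
      rw [← e1, map_add, hR τ σ hσ]
      have h7 : act (Wc A B) ι (f σ) + act (Wc A B) ι (f σ) = 0 := by
        rw [← map_add, hf, map_zero]
      have h8 : ∀ P Q : Pt (Wc A B) Ω, (P + Q) + (P + Q) = (P + P) + (Q + Q) := fun P Q => by abel
      rw [h8, h7, add_zero]
    rw [act_some, Affine.Point.some.injEq] at h6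
    exact h6
  obtain ⟨x, hx⟩ := fix_mem (K := K) X (fun τ => (hfix τ).1)
  obtain ⟨y, hy⟩ := fix_mem (K := K) Y (fun τ => (hfix τ).2)
  refine ⟨x, y, ?_, ?_, ?_, ?_⟩
  · rintro rfl
    rw [map_zero] at hy
    exact hY hy.symm
  · apply (algebraMap K Ω).injective
    have h9 := ((is2L A B Ω).eqn X Y).1 hn'.1
    rw [map_pow, hy, h9]
    simp only [map_mul, map_add, map_sub, map_pow, map_neg, map_ofNat, map_intCast, hx]
  · intro h3
    apply hXb
    have := congrArg (algebraMap K Ω) h3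
    simpa only [map_mul, map_sub, map_pow, map_ofNat, map_intCast, hx] using this
  · -- the square root
    obtain ⟨z, hz⟩ : ∃ z : K, algebraMap K Ω z =
        gf ((Wc A B).baseChange Ω) 0 α β (.some u v hn) * ι s := by
      apply fix_mem
      intro τ
      obtain ⟨σ, hσ⟩ := exists_restr ι τ
      have hcomm : ∀ w : QB, τ (ι w) = ι (σ w) := fun w => DFunLike.congr_fun hσ w
      set T := act (Wc A B) ι (f σ) with hT
      have hTT : T + T = 0 := by
        rw [hT, ← map_add, hf, map_zero]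
      have hTX : IsX ((Wc A B).baseChange Ω) 0 T ↔ σ s = s := by
        have h3 := act_isX (Wc A B) ι 0 (f σ)
        rw [map_zero, map_zero] at h3
        rw [hT, h3, hse]
      obtain ⟨u', v', hn', e2, hv', h3, h4⟩ := hW.sign h2 hα hβ hαβ hn hv hTT
      have e3 : act (Wc A B) (τ.toAlgHom.restrictScalars ℚ) (.some u v hn) = .some u' v' hn' := by
        rw [← e2, ← hR τ σ hσ]
      rw [act_some, Affine.Point.some.injEq] at e3
      have e5 : τ u = u' := e3.1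
      have e6 : τ v = v' := e3.2
      have e4 : τ (gf ((Wc A B).baseChange Ω) 0 α β (.some u v hn)) =
          gf ((Wc A B).baseChange Ω) 0 α β (.some u' v' hn') := by
        rw [hgf, hgf, ← e5, ← e6, map_div₀, map_sub, map_sub, map_mul, map_mul, map_pow, map_pow,
          map_ofNat, map_ofNat, map_intCast, map_intCast]
      rw [map_mul, e4, hcomm]
      by_cases hX : IsX ((Wc A B).baseChange Ω) 0 T
      · rw [h3 hX, hTX.1 hX]
      · rw [h4 hX]
        have h5 : σ s ≠ s := fun h' => hX (hTX.2 h')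
        have h6 : (σ s) ^ 2 = s ^ 2 := by
          rw [← map_pow, hs, map_intCast]
        rcases sq_eq_sq_iff_eq_or_eq_neg.1 h6 with h7 | h7
        · exact absurd h7 h5
        · rw [h7, map_neg, neg_mul_neg]
    refine ⟨z, ?_⟩
    apply (algebraMap K Ω).injective
    have h8 : (ι s) ^ 2 = (e : Ω) := by
      rw [← map_pow, hs, map_intCast]
    have h9 : X = gf ((Wc A B).baseChange Ω) 0 α β (.some u v hn) ^ 2 := hX
    rw [map_mul, map_mul, hz, hx, map_intCast, ← h8, h9]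
    ring

/-- the abscissa of the double of a point that splits the class -/
theorem dblg [IsAlgClosed Ω] (h : Ok A B) (f : (QB ≃ₐ[ℚ] QB) → Pt (Wc A B) QB)
    (hf : ∀ σ, f σ + f σ = 0)
    (hloc : ∀ ι : QB →ₐ[ℚ] Ω, ∃ P : Pt (Wc A B) Ω, ∀ (τ : Ω ≃ₐ[K] Ω) (σ : QB ≃ₐ[ℚ] QB),
      (τ.toAlgHom.restrictScalars ℚ).comp ι = ι.comp σ.toAlgHom →
      act (Wc A B) ι (f σ) = act (Wc A B) (τ.toAlgHom.restrictScalars ℚ) P - P)
    {S0 : Pt (Wc A B) K} (hS0 : ((S0 + S0) + (S0 + S0)) + ((S0 + S0) + (S0 + S0)) ≠ 0)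
    (e : ℤ) (s : QB) (hs : s ^ 2 = e) (hse : ∀ σ : QB ≃ₐ[ℚ] QB, σ s = s ↔
      IsX ((Wc A B).baseChange QB) 0 (f σ)) :
    ∃ x y : K, y ≠ 0 ∧ y ^ 2 = x * (x ^ 2 + (-2 * (A : K)) * x + ((A : K) ^ 2 - 4 * B)) ∧
      x ^ 2 ≠ (A : K) ^ 2 - 4 * B ∧ IsSquare (x * (e : K)) := by
  obtain ⟨ι⟩ := exists_emb Ω
  obtain ⟨P, hP⟩ := hloc ι
  let j : K →ₐ[ℚ] Ω := IsScalarTower.toAlgHom ℚ K Ω
  obtain ⟨S, hSfix, hS8⟩ : ∃ S : Pt (Wc A B) Ω,
      (∀ τ : Ω ≃ₐ[K] Ω, act _ (τ.toAlgHom.restrictScalars ℚ) S = S) ∧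
      ((S + S) + (S + S)) + ((S + S) + (S + S)) ≠ 0 := by
    refine ⟨act _ j S0, fun τ => ?_, ?_⟩
    · rw [act_act]
      congr 1
      congr 1
      ext z
      exact τ.commutes z
    · rw [← map_add, ← map_add, ← map_add]
      intro h0
      rw [← map_zero (act _ j)] at h0
      exact hS0 (act_inj _ j h0)
  obtain ⟨R, hR, hR8⟩ : ∃ R : Pt (Wc A B) Ω,
      (∀ (τ : Ω ≃ₐ[K] Ω) (σ : QB ≃ₐ[ℚ] QB),
      (τ.toAlgHom.restrictScalars ℚ).comp ι = ι.comp σ.toAlgHom →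
      act _ (τ.toAlgHom.restrictScalars ℚ) R = R + act _ ι (f σ)) ∧
      ((R + R) + (R + R)) + ((R + R) + (R + R)) ≠ 0 := by
    by_cases h4 : ((P + P) + (P + P)) + ((P + P) + (P + P)) = 0
    · refine ⟨P + S, fun τ σ hσ => ?_, ?_⟩
      · rw [map_add, hSfix, hP τ σ hσ]
        abel
      · have e1 : (((P + S) + (P + S)) + ((P + S) + (P + S))) +
          (((P + S) + (P + S)) + ((P + S) + (P + S))) =
          (((P + P) + (P + P)) + ((P + P) + (P + P))) +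
            (((S + S) + (S + S)) + ((S + S) + (S + S))) := by abel
        rw [e1, h4, zero_add]
        exact hS8
    · refine ⟨P, fun τ σ hσ => ?_, h4⟩
      rw [hP τ σ hσ]
      abel
  exact dbl h f hf ι hR hR8 e s hs hse

/-- a locally trivial class with values in `{0, (0, 0)}` gives a point of the quartic -/
lemma quar (h : Ok A B) {c : ℤ} (hc : c ≠ 0) {s : QB} (hs : IsRt c s) (ι : QB →ₐ[ℚ] Ω)
    {P : Pt (Wc A B) Ω} (hP : ∀ (τ : Ω ≃ₐ[K] Ω) (σ : QB ≃ₐ[ℚ] QB),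
      (τ.toAlgHom.restrictScalars ℚ).comp ι = ι.comp σ.toAlgHom →
      act (Wc A B) ι (fs h s σ) = act (Wc A B) (τ.toAlgHom.restrictScalars ℚ) P - P) :
    IsSquare (c : K) ∨ ∃ u N : K, (c : K) * N ^ 2 = (c * u ^ 2) ^ 2 + A * (c * u ^ 2) + B := by
  have : CharZero Ω := algebraRat.charZero Ω
  have hcK : (c : K) ≠ 0 := by
    have : CharZero K := algebraRat.charZero K
    exact_mod_cast hc
  have hβ2 : (ι s) ^ 2 = (c : Ω) := by
    rw [← map_pow, hs, map_intCast]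
  have hβ0 : ι s ≠ 0 := by
    intro h0
    rw [h0] at hβ2
    have : (c : Ω) = 0 := by rw [← hβ2]; ring
    exact hc (by exact_mod_cast this)
  have hcomm : ∀ (τ : Ω ≃ₐ[K] Ω) (σ : QB ≃ₐ[ℚ] QB),
      (τ.toAlgHom.restrictScalars ℚ).comp ι = ι.comp σ.toAlgHom → ∀ w : QB, τ (ι w) = ι (σ w) :=
    fun τ σ hσ w => DFunLike.congr_fun hσ w
  -- the case of a point that is fixed
  have hfixed : (∀ τ : Ω ≃ₐ[K] Ω, act (Wc A B) (τ.toAlgHom.restrictScalars ℚ) P = P) →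
      IsSquare (c : K) := by
    intro hfix
    obtain ⟨w, hw⟩ := fix_mem (K := K) (ι s) (fun τ => by
      obtain ⟨σ, hσ⟩ := exists_restr ι τ
      rw [hcomm τ σ hσ]
      by_contra hne
      have h1 : ¬ σ s = s := fun h' => hne (by rw [h'])
      have h2 := hP τ σ hσ
      rw [hfix, sub_self, show fs h s σ = T0 h QB from if_neg h1, act_T0] at h2
      exact Affine.Point.some_ne_zero _ h2)
    refine ⟨w, ?_⟩
    apply (algebraMap K Ω).injective
    rw [map_mul, hw, map_intCast, ← hβ2]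
    ring
  rcases P with _ | ⟨X, Y, hn⟩
  · left
    exact hfixed (fun τ => map_zero _)
  by_cases hX : X = 0
  · left
    apply hfixed
    intro τ
    have hY : Y = 0 := by
      have h9 := ((is2L A B Ω).eqn X Y).1 hn.1
      rw [hX] at h9
      have : Y ^ 2 = 0 := by rw [h9]; ring
      exact pow_eq_zero_iff two_ne_zero |>.1 this
    rw [act_some, Affine.Point.some.injEq]
    show τ X = X ∧ τ Y = Y
    rw [hX, hY]
    exact ⟨map_zero _, map_zero _⟩
  right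
  have hE := ((is2L A B Ω).eqn X Y).1 hn.1
  set b : Ω := (A : Ω) ^ 2 - 4 * B with hb
  -- the action
  have hact : ∀ (τ : Ω ≃ₐ[K] Ω) (σ : QB ≃ₐ[ℚ] QB),
      (τ.toAlgHom.restrictScalars ℚ).comp ι = ι.comp σ.toAlgHom →
      (τ (ι s) = ι s ∧ τ X = X ∧ τ Y = Y) ∨
      (τ (ι s) = -ι s ∧ τ X = b / X ∧ τ Y = -(b * Y) / X ^ 2) := by
    intro τ σ hσ
    have h2 := hP τ σ hσ
    rcases rt_pm hs σ with h1 | h1
    · left
      rw [show fs h s σ = 0 from if_pos h1, map_zero] at h2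
      have h3 := sub_eq_zero.1 h2.symm
      rw [act_some, Affine.Point.some.injEq] at h3
      refine ⟨by rw [hcomm τ σ hσ, h1], h3⟩
    · right
      have h4 : ¬ σ s = s := by
        rw [h1]
        exact neg_ne (rt_ne hc hs)
      rw [show fs h s σ = T0 h QB from if_neg h4, act_T0] at h2
      obtain ⟨hn', e⟩ := (is2L A B Ω).trans hn hX (nons0 h _)
      have h8 : (Affine.Point.some X Y hn : Pt (Wc A B) Ω) + T0 h Ω = .some _ _ hn' := e
      have h3 : act (Wc A B) (τ.toAlgHom.restrictScalars ℚ) (.some X Y hn) =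
          (Affine.Point.some X Y hn : Pt (Wc A B) Ω) + T0 h Ω := by
        rw [h2]
        abel
      rw [h8, act_some, Affine.Point.some.injEq] at h3
      exact ⟨by rw [hcomm τ σ hσ, h1, map_neg], h3⟩
  obtain ⟨w, hw⟩ := fix_mem (K := K) (Y / X * ι s) (fun τ => by
    obtain ⟨σ, hσ⟩ := exists_restr ι τ
    rcases hact τ σ hσ with ⟨h1, h2, h3⟩ | ⟨h1, h2, h3⟩
    · rw [map_mul, map_div₀, h1, h2, h3]
    · have hb0 : b ≠ 0 := h.b Ω
      rw [map_mul, map_div₀, h1, h2, h3]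
      field_simp)
  obtain ⟨n, hn1⟩ := fix_mem (K := K) ((X - b / X) * ι s) (fun τ => by
    obtain ⟨σ, hσ⟩ := exists_restr ι τ
    rcases hact τ σ hσ with ⟨h1, h2, h3⟩ | ⟨h1, h2, h3⟩
    · have hb1 : τ b = b := by
        rw [hb, map_sub, map_mul, map_pow, map_intCast, map_intCast, map_ofNat]
      rw [map_mul, map_sub, map_div₀, h1, h2, hb1]
    · have hb0 : b ≠ 0 := h.b Ω
      have hb1 : τ b = b := by
        rw [hb, map_sub, map_mul, map_pow, map_intCast, map_intCast, map_ofNat]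
      rw [map_mul, map_sub, map_div₀, h1, h2, hb1]
      field_simp
      ring)
  have hcΩ : (c : Ω) ≠ 0 := by exact_mod_cast hc
  have k1 : (algebraMap K Ω w) ^ 2 = c * (X - 2 * A + b / X) := by
    rw [hw, mul_pow, hβ2, div_pow, hE]
    field_simp
    ring
  have k2 : (algebraMap K Ω n) ^ 2 = c * (X - b / X) ^ 2 := by
    rw [hn1, mul_pow, hβ2]
    ring
  refine ⟨w / (2 * c), n / (4 * c), ?_⟩
  apply (algebraMap K Ω).injective
  simp only [map_mul, map_add, map_pow, map_div₀, map_ofNat, map_intCast, div_pow, mul_pow, k1, k2]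
  rw [hb]
  field_simp
  ring

theorem quarg [IsAlgClosed Ω] (h : Ok A B) {c : ℤ} (hc : c ≠ 0) {s : QB} (hs : IsRt c s)
    (hloc : ∀ ι : QB →ₐ[ℚ] Ω, ∃ P : Pt (Wc A B) Ω, ∀ (τ : Ω ≃ₐ[K] Ω) (σ : QB ≃ₐ[ℚ] QB),
      (τ.toAlgHom.restrictScalars ℚ).comp ι = ι.comp σ.toAlgHom →
      act (Wc A B) ι (fs h s σ) = act (Wc A B) (τ.toAlgHom.restrictScalars ℚ) P - P) :
    IsSquare (c : K) ∨ ∃ u N : K, (c : K) * N ^ 2 = (c * u ^ 2) ^ 2 + A * (c * u ^ 2) + B := by
  obtain ⟨ι⟩ := exists_emb Ω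
  obtain ⟨P, hP⟩ := hloc ι
  exact quar h hc hs ι hP

end gen

end Pool.Agent.U409.GL
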