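import Pool.Agent.U409.GL.Loc1

/-!
# `p`-adic points that are not killed by `8`, and the local conditions
-/

set_option autoImplicit false

namespace Pool.Agent.U409.GL

open WeierstrassCurve
open Pool.Agent.W262.SH (QB Pt act IsCoc IsCob LocTriv shaCoc cob Sha LocSol)
open Pool.Agent.TH841.SH (IsR IsX act_some act_inj act_act gf exists_restr exists_emb fix_mem act_isX)
open Pool.Agent.U409.LS (Wc Is2 is2 is2L Ok T0 act_T0 T0_two fs fs_act IsRt rt_pm rt_ne rt_ex neg_ne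
  nons0)
open Pool.Agent.U409.SH (near_p sq_trans locSol_of)

open scoped Classical

/-- duplication -/
lemma dup2 {K : Type*} [Field K] {W : WeierstrassCurve K} {a b : K} (h : Is2 W a b)
    (h2 : (2 : K) ≠ 0) {u v : K} (hn : W.toAffine.Nonsingular u v) (hv : v ≠ 0) :
    ∃ (X Y : K) (hn' : W.toAffine.Nonsingular X Y),
      (Affine.Point.some u v hn : W.toAffine.Point) + .some u v hn = .some X Y hn' ∧
      X = ((u ^ 2 - b) / (2 * v)) ^ 2 := by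
  have hY : v ≠ W.toAffine.negY u v := by
    rw [h.negY]
    intro h5
    apply hv
    have h6 : 2 * v = 0 := by linear_combination h5
    exact (mul_eq_zero.1 h6).resolve_left h2
  refine ⟨_, _, _, Affine.Point.add_self_of_Y_ne hY, ?_⟩
  have he := (h.eqn u v).1 hn.1
  rw [Affine.slope_of_Y_ne rfl hY, h.negY]
  show ((3 * u ^ 2 + 2 * W.a₂ * u + W.a₄ - W.a₁ * v) / (v - -v)) ^ 2 +
    W.a₁ * ((3 * u ^ 2 + 2 * W.a₂ * u + W.a₄ - W.a₁ * v) / (v - -v)) - W.a₂ - u - u = _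
  rw [h.h1, h.h2, h.h4]
  have e1 : v - -v = 2 * v := by ring
  rw [e1, zero_mul, zero_mul, sub_zero, add_zero, div_pow, div_pow]
  have h4 : (2 * v) ^ 2 ≠ 0 := pow_ne_zero 2 (mul_ne_zero h2 hv)
  rw [eq_div_iff h4]
  have e2 : ((3 * u ^ 2 + 2 * a * u + b) ^ 2 / (2 * v) ^ 2 - a - u - u) * (2 * v) ^ 2 =
      (3 * u ^ 2 + 2 * a * u + b) ^ 2 - (a + u + u) * (4 * v ^ 2) := by
    field_simp
    ring
  rw [e2, he]
  ring

variable {A B : ℤ} {p : ℕ} [hp : Fact p.Prime]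

lemma nrm2 (hp2 : p ≠ 2) : ‖(2 : ℚ_[p])‖ = 1 := by
  have h1 : ¬ ((p : ℤ) ∣ (2 : ℤ)) := by
    intro h
    have h2 : p ∣ 2 := by exact_mod_cast h
    exact hp2 ((Nat.prime_dvd_prime_iff_eq hp.out Nat.prime_two).1 h2)
  have h2 := (Padic.norm_intCast_lt_one_iff (p := p) (k := 2)).not.2 h1
  have h3 := Padic.norm_int_le_one (p := p) 2
  push_cast at h2 h3
  exact le_antisymm h3 (not_lt.1 h2)

/-- the norm of the abscissa of the double -/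
lemma dbl_norm (hp2 : p ≠ 2) {u v : ℚ_[p]}
    (hn : ((Wc A B).baseChange ℚ_[p]).toAffine.Nonsingular u v) (hu : 1 < ‖u‖) :
    ∃ (u' v' : ℚ_[p]) (hn' : ((Wc A B).baseChange ℚ_[p]).toAffine.Nonsingular u' v'),
      (.some u v hn + .some u v hn : Pt (Wc A B) ℚ_[p]) = .some u' v' hn' ∧ ‖u'‖ = ‖u‖ := by
  have hE := ((is2L A B ℚ_[p]).eqn u v).1 hn.1
  have ha : ‖-2 * (A : ℚ_[p])‖ ≤ 1 := by
    have := Padic.norm_int_le_one (p := p) (-2 * A)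
    push_cast at this
    exact this
  have hb : ‖(A : ℚ_[p]) ^ 2 - 4 * B‖ ≤ 1 := by
    have := Padic.norm_int_le_one (p := p) (A ^ 2 - 4 * B)
    push_cast at this
    exact this
  have hu0 : 0 < ‖u‖ := by linarith
  -- `‖u ^ 2 - b‖ = ‖u‖ ^ 2`
  have h1 : ‖u ^ 2 - ((A : ℚ_[p]) ^ 2 - 4 * B)‖ = ‖u‖ ^ 2 := by
    have h2 : ‖(A : ℚ_[p]) ^ 2 - 4 * B‖ < ‖u ^ 2‖ := by
      rw [norm_pow]
      nlinarith
    have h3 : ‖u ^ 2 - ((A : ℚ_[p]) ^ 2 - 4 * B)‖ = max ‖u ^ 2‖ ‖-((A : ℚ_[p]) ^ 2 - 4 * B)‖ := by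
      rw [sub_eq_add_neg]
      apply Padic.add_eq_max_of_ne
      rw [norm_neg]
      exact (ne_of_lt h2).symm
    rw [h3, norm_neg, max_eq_left h2.le, norm_pow]
  have h4 : ‖u ^ 2 + (-2 * (A : ℚ_[p])) * u + ((A : ℚ_[p]) ^ 2 - 4 * B)‖ = ‖u‖ ^ 2 := by
    have h5 : ‖(-2 * (A : ℚ_[p])) * u + ((A : ℚ_[p]) ^ 2 - 4 * B)‖ ≤ ‖u‖ := by
      refine (Padic.nonarchimedean _ _).trans (max_le ?_ (hb.trans hu.le))
      rw [norm_mul]
      exact mul_le_of_le_one_left hu0.le ha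
    have h6 : ‖(-2 * (A : ℚ_[p])) * u + ((A : ℚ_[p]) ^ 2 - 4 * B)‖ < ‖u ^ 2‖ := by
      rw [norm_pow]
      nlinarith
    rw [add_assoc, Padic.add_eq_max_of_ne (ne_of_lt h6).symm, max_eq_left h6.le, norm_pow]
  have h5 : ‖v‖ ^ 2 = ‖u‖ ^ 3 := by
    rw [← norm_pow, hE, norm_mul, h4]
    ring
  have hv0 : 0 < ‖v‖ := by
    by_contra hcon
    have : ‖v‖ = 0 := le_antisymm (not_lt.1 hcon) (norm_nonneg _)
    rw [this] at h5
    have : 0 < ‖u‖ ^ 3 := by positivity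
    rw [← h5] at this
    norm_num at this
  have hv : v ≠ 0 := norm_pos_iff.1 hv0
  obtain ⟨X, Y, hn', e, hX⟩ := dup2 (is2L A B ℚ_[p]) two_ne_zero hn hv
  refine ⟨X, Y, hn', e, ?_⟩
  rw [hX, norm_pow, norm_div, norm_mul, nrm2 hp2, h1, one_mul, div_pow, h5]
  field_simp

/-- there is a point that is not killed by `8` -/
lemma big8 (hp2 : p ≠ 2) (h : Ok A B) : ∃ S : Pt (Wc A B) ℚ_[p],
    ((S + S) + (S + S)) + ((S + S) + (S + S)) ≠ 0 := by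
  have hpc : ((p : ℕ) : ℚ_[p]) ≠ 0 := by exact_mod_cast hp.out.ne_zero
  obtain ⟨w, hw⟩ : ∃ w : ℚ_[p], w = ((p : ℕ) : ℚ_[p])⁻¹ := ⟨_, rfl⟩
  have hwn : 1 < ‖w‖ := by
    rw [hw, norm_inv, Padic.norm_p, inv_inv]
    exact_mod_cast hp.out.one_lt
  have hw0 : w ≠ 0 := by
    rw [hw]
    exact inv_ne_zero hpc
  obtain ⟨x, hx⟩ : ∃ x : ℚ_[p], x = w ^ 2 := ⟨_, rfl⟩
  have hx0 : x ≠ 0 := by
    rw [hx]
    exact pow_ne_zero 2 hw0
  have hxn : 1 < ‖x‖ := by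
    rw [hx, norm_pow]
    nlinarith
  have ha : ‖-2 * (A : ℚ_[p])‖ ≤ 1 := by
    have := Padic.norm_int_le_one (p := p) (-2 * A)
    push_cast at this
    exact this
  have hb : ‖(A : ℚ_[p]) ^ 2 - 4 * B‖ ≤ 1 := by
    have := Padic.norm_int_le_one (p := p) (A ^ 2 - 4 * B)
    push_cast at this
    exact this
  have hxp : 0 < ‖x‖ := by linarith
  have h6 : ‖(-2 * (A : ℚ_[p])) * x + ((A : ℚ_[p]) ^ 2 - 4 * B)‖ < ‖x ^ 2‖ := by
    have h5 : ‖(-2 * (A : ℚ_[p])) * x + ((A : ℚ_[p]) ^ 2 - 4 * B)‖ ≤ ‖x‖ := by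
      refine (Padic.nonarchimedean _ _).trans (max_le ?_ (hb.trans hxn.le))
      rw [norm_mul]
      exact mul_le_of_le_one_left hxp.le ha
    rw [norm_pow]
    nlinarith
  obtain ⟨-, z, hz⟩ := near_p (x := x ^ 2)
    (x' := x ^ 2 + (-2 * (A : ℚ_[p])) * x + ((A : ℚ_[p]) ^ 2 - 4 * B)) hp2 (pow_ne_zero 2 hx0) (by
      have e : x ^ 2 - (x ^ 2 + (-2 * (A : ℚ_[p])) * x + ((A : ℚ_[p]) ^ 2 - 4 * B)) =
        -((-2 * (A : ℚ_[p])) * x + ((A : ℚ_[p]) ^ 2 - 4 * B)) := by ring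
      rw [e, norm_neg]
      exact h6)
  have hE : (z / w) ^ 2 = x * (x ^ 2 + (-2 * (A : ℚ_[p])) * x + ((A : ℚ_[p]) ^ 2 - 4 * B)) := by
    rw [div_pow, pow_two z, ← hz, ← hx, pow_two x]
    field_simp
  have hn : ((Wc A B).baseChange ℚ_[p]).toAffine.Nonsingular x (z / w) :=
    (is2L A B ℚ_[p]).nons two_ne_zero (h.b _) (h.ab _) hE
  obtain ⟨u1, v1, n1, e1, k1⟩ := dbl_norm hp2 hn hxn
  obtain ⟨u2, v2, n2, e2, k2⟩ := dbl_norm hp2 n1 (by rw [k1]; exact hxn)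
  obtain ⟨u3, v3, n3, e3, k3⟩ := dbl_norm hp2 n2 (by rw [k2, k1]; exact hxn)
  refine ⟨.some x (z / w) hn, ?_⟩
  rw [e1, e2, e3]
  exact Affine.Point.some_ne_zero _

/-- the local conditions for the first square class -/
theorem loc_m (hp2 : p ≠ 2) {a b : ℤ} (ha : a ≠ 0) (hb : b ≠ 0) (hab : a ≠ b)
    (f : (QB ≃ₐ[ℚ] QB) → Pt (Wc (-(a + b)) (a * b)) QB) (hf : ∀ σ, f σ + f σ = 0)
    (hloc : LocTriv (Wc (-(a + b)) (a * b)) ℚ_[p] f)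
    (e : ℤ) (s : QB) (hs : s ^ 2 = e) (hse : ∀ σ : QB ≃ₐ[ℚ] QB, σ s = s ↔
      IsX ((Wc (-(a + b)) (a * b)).baseChange QB) 0 (f σ)) : LocSol p a b 1 e := by
  have h : Ok (-(a + b)) (a * b) := by
    refine ⟨mul_ne_zero ha hb, ?_⟩
    have : (-(a + b)) ^ 2 - 4 * (a * b) = (a - b) ^ 2 := by ring
    rw [this]
    exact pow_ne_zero 2 (sub_ne_zero.2 hab)
  obtain ⟨S0, hS0⟩ := big8 hp2 h
  obtain ⟨x, y, hy, hE, hxb, hsq⟩ := dblg (K := ℚ_[p]) (Ω := AlgebraicClosure ℚ_[p]) h f hf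
    (fun ι => hloc ι) hS0 e s hs hse
  push_cast at hE hxb
  have hy2 : y ^ 2 ≠ 0 := pow_ne_zero 2 hy
  have hx : x ≠ 0 := by
    rintro rfl
    apply hy2
    rw [hE]
    ring
  apply locSol_of hp2
  have hab' : (a : ℚ_[p]) - b ≠ 0 := sub_ne_zero.2 (by exact_mod_cast hab)
  have hxm : x ^ 2 - ((a : ℚ_[p]) - b) ^ 2 ≠ 0 := by
    intro h0
    apply hxb
    linear_combination h0
  have e1 : y ^ 2 / (4 * x ^ 2) = y ^ 2 / (4 * x ^ 2) - 0 := by ring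
  have e2 : y ^ 2 / (4 * x ^ 2) - (a : ℚ_[p]) = (x - (a - b)) ^ 2 / (4 * x) := by
    rw [hE]
    field_simp
    ring
  have e3 : y ^ 2 / (4 * x ^ 2) - (b : ℚ_[p]) = (x - (b - a)) ^ 2 / (4 * x) := by
    rw [hE]
    field_simp
    ring
  refine ⟨y ^ 2 / (4 * x ^ 2), y * (x ^ 2 - (a - b) ^ 2) / (8 * x ^ 2), ?_, ?_, ?_, ?_⟩
  · apply div_ne_zero (mul_ne_zero hy hxm)
    exact mul_ne_zero (by norm_num) (pow_ne_zero 2 hx)
  · rw [e2, e3]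
    field_simp
    ring
  · refine ⟨y / (2 * x), ?_⟩
    push_cast
    field_simp
    ring
  · rw [e2]
    obtain ⟨z, hz⟩ := hsq
    refine ⟨(x - (a - b)) * z / (2 * x), ?_⟩
    have : (x - ((a : ℚ_[p]) - b)) ^ 2 / (4 * x) * e = (x - (a - b)) ^ 2 * (x * e) / (4 * x ^ 2) := by
      field_simp
    rw [this, hz]
    field_simp
    ring

/-- the local conditions for the second square class -/
theorem loc_c (h : Ok A B) {c : ℤ} (hc : c ≠ 0) {s : QB} (hs : IsRt c s)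
    (hloc : LocTriv (Wc A B) ℚ_[p] (fs h s)) :
    IsSquare (c : ℚ_[p]) ∨ ∃ u N : ℚ_[p], (c : ℚ_[p]) * N ^ 2 =
      (c * u ^ 2) ^ 2 + A * (c * u ^ 2) + B :=
  quarg (K := ℚ_[p]) (Ω := AlgebraicClosure ℚ_[p]) h hc hs (fun ι => hloc ι)

end Pool.Agent.U409.GL
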