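import Pool.Agent.U409.LS.Fact

/-!
# The upper bound in Mertens' theorem for the non-residues
-/

set_option autoImplicit false

namespace Pool.Agent.U409.GL

open Polynomial Finset
open Pool.Agent.H474R2.PG (rho PR Sg)
open Pool.Agent.H474R2.GE (mertens_rho)
open Pool.Agent.U214.PT (Sep rho_mul rho_C_mul dvd_of_sep clear mem_PR)
open Pool.Agent.U409.LS (lu lu_eq leg_pm PM SS QF om_sq om_ne split split_mul irr rho_zmod)

/-- the zeros modulo the primes for which `n` is a non-residue -/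
lemma inert_zero {n : ℤ} {P Q f : ℤ[X]} {k l : ℤ} (hl : l ≠ 0)
    (he : C k * f = C l * (P ^ 2 - C n * Q ^ 2))
    (hc : IsCoprime (P.map (Int.castRingHom ℚ)) (Q.map (Int.castRingHom ℚ))) :
    ∃ B : ℕ, ∀ p : ℕ, p.Prime → B < p → ¬ (p : ℤ) ∣ n → ¬ lu p n = 1 → rho f p = 0 := by
  obtain ⟨u, v, huv⟩ := hc
  obtain ⟨m, u0, hm, hu0⟩ := clear u
  obtain ⟨m', v0, hm', hv0⟩ := clear v
  have hinj : Function.Injective (Polynomial.map (Int.castRingHom ℚ)) :=
    map_injective _ Int.cast_injective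
  have hN : C m' * u0 * P + C m * v0 * Q = C (m * m') := by
    apply hinj
    simp only [Polynomial.map_add, Polynomial.map_mul, Polynomial.map_C, hu0, hv0,
      Int.coe_castRingHom, C_mul]
    linear_combination (C (m : ℚ) * C (m' : ℚ)) * huv
  refine ⟨(m * m').natAbs + l.natAbs, fun p hp hB hpn hlu => ?_⟩
  have hpf : Fact p.Prime := ⟨hp⟩
  have hpi : Prime (p : ℤ) := Nat.prime_iff_prime_int.1 hp
  unfold rho
  rw [card_eq_zero, filter_eq_empty_iff]
  intro a _ hpa
  have h1 : (p : ℤ) ∣ l * ((P.eval (a : ℤ)) ^ 2 - n * (Q.eval (a : ℤ)) ^ 2) := by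
    have h2 := congrArg (eval (a : ℤ)) he
    simp only [eval_mul, eval_C, eval_sub, eval_pow] at h2
    rw [← h2]
    exact hpa.mul_left _
  have hpl : ¬ (p : ℤ) ∣ l := by
    intro h
    have := Nat.le_of_dvd (Int.natAbs_pos.2 hl) (Int.natCast_dvd.1 h)
    omega
  have h2 := (hpi.dvd_or_dvd h1).resolve_left hpl
  have hn0 : ((n : ℤ) : ZMod p) ≠ 0 := fun h0 => hpn ((ZMod.intCast_zmod_eq_zero_iff_dvd _ _).1 h0)
  have hleg : ¬ IsSquare ((n : ℤ) : ZMod p) := by
    intro hsq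
    apply hlu
    have h3 := (legendreSym.eq_one_iff p hn0).2 hsq
    rw [← lu_eq hpn] at h3
    exact Units.ext h3
  have h3 : (p : ℤ) ∣ Q.eval (a : ℤ) := by
    by_contra hQ
    apply hleg
    have hQ0 : ((Q.eval (a : ℤ) : ℤ) : ZMod p) ≠ 0 := fun h0 =>
      hQ ((ZMod.intCast_zmod_eq_zero_iff_dvd _ _).1 h0)
    have h4 := (ZMod.intCast_zmod_eq_zero_iff_dvd _ p).2 h2
    push_cast at h4
    refine ⟨((P.eval (a : ℤ) : ℤ) : ZMod p) / ((Q.eval (a : ℤ) : ℤ) : ZMod p), ?_⟩
    rw [div_mul_div_comm, eq_div_iff (mul_ne_zero hQ0 hQ0)]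
    linear_combination -h4
  have h4 : (p : ℤ) ∣ P.eval (a : ℤ) := by
    have h5 : (p : ℤ) ∣ (P.eval (a : ℤ)) ^ 2 := by
      have h6 : (p : ℤ) ∣ n * (Q.eval (a : ℤ)) ^ 2 := (h3.pow two_ne_zero).mul_left _
      have h7 := dvd_add h2 h6
      rwa [sub_add_cancel] at h7
    exact hpi.dvd_of_dvd_pow h5
  have h5 := congrArg (eval (a : ℤ)) hN
  simp only [eval_add, eval_mul, eval_C] at h5
  have h6 : (p : ℤ) ∣ m * m' := by
    rw [← h5]
    exact dvd_add (h4.mul_left _) (h3.mul_left _)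
  have := Nat.le_of_dvd (Int.natAbs_pos.2 (mul_ne_zero hm hm')) (Int.natCast_dvd.1 h6)
  omega

/-- coprimality -/
lemma cop {n : ℚ} {A B h : ℚ[X]} (hh : Irreducible h) (hd : A ^ 2 - C n * B ^ 2 ∣ h) :
    IsCoprime A B := by
  apply IsRelPrime.isCoprime
  intro δ hA hB
  have h1 : δ * δ ∣ h := by
    refine dvd_trans (dvd_sub ?_ ?_) hd
    · rw [pow_two]
      exact mul_dvd_mul hA hA
    · rw [pow_two]
      exact (mul_dvd_mul hB hB).mul_left _
  obtain ⟨w, hw⟩ := h1
  rw [mul_assoc] at hw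
  rcases hh.isUnit_or_isUnit hw with h2 | h2
  · exact h2
  · exact isUnit_of_mul_isUnit_left h2

section quad

variable {n : ℤ} [hn : Fact (∀ q : ℚ, q ^ 2 ≠ (n : ℚ) + 0 * q)]

/-- the two components of a polynomial over the quadratic field -/
lemma dec (F : (QF n)[X]) : ∃ A B : ℚ[X], F = A.map (algebraMap ℚ (QF n)) +
    C (QuadraticAlgebra.omega : QF n) * B.map (algebraMap ℚ (QF n)) := by
  induction F using Polynomial.induction_on' with
  | add f g hf hg =>
    obtain ⟨A1, B1, h1⟩ := hf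
    obtain ⟨A2, B2, h2⟩ := hg
    refine ⟨A1 + A2, B1 + B2, ?_⟩
    rw [h1, h2, Polynomial.map_add, Polynomial.map_add]
    ring
  | monomial i c =>
    refine ⟨monomial i c.re, monomial i c.im, ?_⟩
    rw [map_monomial, map_monomial, C_mul_monomial, ← map_add]
    congr 1
    apply QuadraticAlgebra.ext <;> simp

lemma coeff_dec (A B : ℚ[X]) (i : ℕ) : (A.map (algebraMap ℚ (QF n)) +
    C (QuadraticAlgebra.omega : QF n) * B.map (algebraMap ℚ (QF n))).coeff i =
      ⟨A.coeff i, B.coeff i⟩ := by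
  rw [coeff_add, coeff_C_mul, coeff_map, coeff_map]
  apply QuadraticAlgebra.ext <;> simp

lemma dec_ext {A B A' B' : ℚ[X]} (h : A.map (algebraMap ℚ (QF n)) +
    C (QuadraticAlgebra.omega : QF n) * B.map (algebraMap ℚ (QF n)) =
    A'.map (algebraMap ℚ (QF n)) +
    C (QuadraticAlgebra.omega : QF n) * B'.map (algebraMap ℚ (QF n))) : A = A' ∧ B = B' := by
  have h1 : ∀ i, (⟨A.coeff i, B.coeff i⟩ : QF n) = ⟨A'.coeff i, B'.coeff i⟩ := by
    intro i
    rw [← coeff_dec, ← coeff_dec, h]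
  constructor
  · ext i
    exact congrArg QuadraticAlgebra.re (h1 i)
  · ext i
    exact congrArg QuadraticAlgebra.im (h1 i)

/-- a polynomial that is irreducible over `ℚ` but not over the quadratic field -/
theorem red_zero {f : ℤ[X]} (hfi : Irreducible f) (hd : 0 < f.natDegree)
    (hnf : ¬ Irreducible (f.map (Int.castRingHom (QF n)))) :
    ∃ B : ℕ, ∀ p : ℕ, p.Prime → B < p → ¬ (p : ℤ) ∣ n → ¬ lu p n = 1 → rho f p = 0 := by
  have hinj : Function.Injective (Polynomial.map (Int.castRingHom ℚ)) :=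
    map_injective _ Int.cast_injective
  set fK := f.map (Int.castRingHom (QF n)) with hfK
  set fQ := f.map (Int.castRingHom ℚ) with hfQ
  have hmap : fQ.map (algebraMap ℚ (QF n)) = fK := by
    rw [hfQ, hfK, Polynomial.map_map]
    congr 1
  have hirr : Irreducible fQ := by
    rw [hfQ, ← IsPrimitive.Int.irreducible_iff_irreducible_map_cast (hfi.isPrimitive hd.ne')]
    exact hfi
  have hnu : ¬ IsUnit fK := by
    intro hu
    have h1 := natDegree_eq_zero_of_isUnit hu
    rw [hfK, natDegree_map_eq_of_injective (RingHom.injective_int _)] at h1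
    omega
  rw [irreducible_iff] at hnf
  push Not at hnf
  obtain ⟨F1, F2, h12, hu1, hu2⟩ := hnf hnu
  obtain ⟨A1, B1, hF1⟩ := dec F1
  obtain ⟨A2, B2, hF2⟩ := dec F2
  have hω : (C (QuadraticAlgebra.omega : QF n) : (QF n)[X]) ^ 2 = C ((n : ℤ) : QF n) := by
    rw [← C_pow, om_sq]
  have hcn : (C (n : ℚ) : ℚ[X]).map (algebraMap ℚ (QF n)) = C ((n : ℤ) : QF n) := by
    rw [Polynomial.map_C]
    simp
  have h3 : fQ.map (algebraMap ℚ (QF n)) +
      C (QuadraticAlgebra.omega : QF n) * (0 : ℚ[X]).map (algebraMap ℚ (QF n)) =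
      (A1 * A2 + C (n : ℚ) * B1 * B2).map (algebraMap ℚ (QF n)) +
      C (QuadraticAlgebra.omega : QF n) * (A1 * B2 + A2 * B1).map (algebraMap ℚ (QF n)) := by
    rw [hmap, h12, hF1, hF2, Polynomial.map_zero, mul_zero, add_zero]
    simp only [Polynomial.map_add, Polynomial.map_mul, hcn]
    linear_combination (B1.map (algebraMap ℚ (QF n)) * B2.map (algebraMap ℚ (QF n))) * hω
  obtain ⟨e1, e2⟩ := dec_ext h3
  have hN : (A1 ^ 2 - C (n : ℚ) * B1 ^ 2) * (A2 ^ 2 - C (n : ℚ) * B2 ^ 2) = fQ ^ 2 := by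
    rw [e1]
    linear_combination (C (n : ℚ) * (A1 * B2 + A2 * B1)) * e2
  have hunit : ∀ {A B : ℚ[X]}, IsUnit (A ^ 2 - C (n : ℚ) * B ^ 2) →
      IsUnit (A.map (algebraMap ℚ (QF n)) +
        C (QuadraticAlgebra.omega : QF n) * B.map (algebraMap ℚ (QF n))) := by
    intro A B hu
    have h4 : IsUnit ((A ^ 2 - C (n : ℚ) * B ^ 2).map (algebraMap ℚ (QF n))) :=
      hu.map (mapRingHom (algebraMap ℚ (QF n)))
    have h5 : (A ^ 2 - C (n : ℚ) * B ^ 2).map (algebraMap ℚ (QF n)) =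
        (A.map (algebraMap ℚ (QF n)) +
          C (QuadraticAlgebra.omega : QF n) * B.map (algebraMap ℚ (QF n))) *
        (A.map (algebraMap ℚ (QF n)) -
          C (QuadraticAlgebra.omega : QF n) * B.map (algebraMap ℚ (QF n))) := by
      simp only [Polynomial.map_sub, Polynomial.map_mul, Polynomial.map_pow, hcn]
      linear_combination ((B.map (algebraMap ℚ (QF n))) ^ 2) * hω
    rw [h5] at h4
    exact isUnit_of_mul_isUnit_left h4
  have hpr : Prime fQ := irreducible_iff_prime.1 hirr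
  obtain ⟨i, hi, has⟩ := (dvd_prime_pow hpr 2).1 (Dvd.intro _ hN)
  have hi1 : i = 1 := by
    rcases Nat.lt_or_ge i 1 with h | h
    · exfalso
      have : i = 0 := by omega
      subst this
      rw [pow_zero] at has
      apply hu1
      rw [hF1]
      exact hunit (associated_one_iff_isUnit.1 has)
    · rcases Nat.lt_or_ge 1 i with h' | h'
      · exfalso
        have : i = 2 := by omega
        subst this
        apply hu2
        rw [hF2]
        apply hunit
        obtain ⟨w, hw⟩ := has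
        have h6 : A1 ^ 2 - C (n : ℚ) * B1 ^ 2 ≠ 0 := by
          intro h0
          rw [h0, zero_mul] at hN
          exact hirr.ne_zero (pow_eq_zero_iff two_ne_zero |>.1 hN.symm)
        have h7 : A2 ^ 2 - C (n : ℚ) * B2 ^ 2 = w := by
          apply mul_left_cancel₀ h6
          rw [hN, hw]
        rw [h7]
        exact w.isUnit
      · omega
  subst hi1
  rw [pow_one] at has
  obtain ⟨w, hw⟩ := has
  obtain ⟨w0, hw0, hw1⟩ := Polynomial.isUnit_iff.1 w.isUnit
  have hw00 : w0 ≠ 0 := hw0.ne_zero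
  obtain ⟨m1, P0, hm1, hP0⟩ := clear A1
  obtain ⟨m2, Q0, hm2, hQ0⟩ := clear B1
  have hcop : IsCoprime A1 B1 := cop (n := (n : ℚ)) hirr ⟨w, hw.symm⟩
  refine inert_zero (P := C m2 * P0) (Q := C m1 * Q0) (k := w0.den * (m1 * m2) ^ 2) (l := w0.num)
    (Rat.num_ne_zero.2 hw00) ?_ ?_
  · apply hinj
    simp only [Polynomial.map_sub, Polynomial.map_mul, Polynomial.map_pow, Polynomial.map_C, hP0,
      hQ0, Int.coe_castRingHom]
    rw [← hfQ, ← hw, ← hw1]
    have h8 : (C ((w0.num : ℤ) : ℚ) : ℚ[X]) = C w0 * C ((w0.den : ℤ) : ℚ) := by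
      rw [← C_mul]
      congr 1
      rw [Int.cast_natCast]
      exact (Rat.mul_den_eq_num w0).symm
    rw [h8]
    push_cast
    simp only [C_mul, C_pow]
    ring
  · simp only [Polynomial.map_mul, Polynomial.map_C, hP0, hQ0, Int.coe_castRingHom]
    have hu : ∀ m : ℤ, m ≠ 0 → IsUnit (C (m : ℚ) : ℚ[X]) := fun m hm =>
      isUnit_C.2 (isUnit_iff_ne_zero.2 (by exact_mod_cast hm))
    rw [isCoprime_mul_unit_left_left (hu m2 hm2), isCoprime_mul_unit_left_left (hu m1 hm1),
      isCoprime_mul_unit_left_right (hu m1 hm1), isCoprime_mul_unit_left_right (hu m2 hm2)]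
    exact hcop

end quad

end Pool.Agent.U409.GL
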