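import Pool.Agent.U409.GL.CcBd
import Pool.Agent.U409.GL.SUQ

/-!
# The transposed kernel and the pairs of square classes
-/

set_option autoImplicit false

namespace Pool.Agent.U409.GL

open Finset NumberTheorySymbols
open Pool.Agent.W262.SH (LocSol SelS)
open Pool.Agent.U409.SH (near_p sq_trans locSol_of big_point)
open Pool.Agent.U409.LS (lu lu_eq cq Hyp leg_prod leg_pm Gp Gm not_dvd_prod prod_sqf prod_dvd sq_leg
  u8 u8_sq card_u8)

/-- the Jacobi symbol -/
lemma jac_prod (a : ℤ) (T : Finset ℕ) (hT : ∀ q ∈ T, q.Prime ∧ ¬ (q : ℤ) ∣ a) :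
    J(a | ∏ q ∈ T, q) = ∏ q ∈ T, ((lu q a : ℤˣ) : ℤ) := by
  classical
  induction T using Finset.induction_on with
  | empty => simp [jacobiSym.one_right]
  | insert q T hq ih =>
    have h1 := hT q (mem_insert_self _ _)
    have : Fact q.Prime := ⟨h1.1⟩
    have h2 : ∏ q ∈ T, q ≠ 0 := prod_ne_zero_iff.2 fun p hp => (hT p (mem_insert_of_mem hp)).1.ne_zero
    rw [prod_insert hq, prod_insert hq, jacobiSym.mul_right' a h1.1.ne_zero h2,
      ih fun p hp => hT p (mem_insert_of_mem hp), lu_eq h1.2, jacobiSym.legendreSym.to_jacobiSym]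

section pad

variable {p : ℕ} [hp : Fact p.Prime]

/-- a square class that is trivial -/
lemma locSol_one (hp2 : p ≠ 2) {A B m : ℤ} (hm : IsSquare (m : ℚ_[p])) : LocSol p A B 1 m := by
  obtain ⟨x, y, hy, hE, h1, h2, h3⟩ := big_point hp2 A B
  refine locSol_of hp2 ⟨x, y, hy, hE, ?_, h2.mul hm⟩
  rw [Int.cast_one, mul_one]
  exact h1

/-- the class of the point `(0, 0)` -/
lemma locSol_zero (hp2 : p ≠ 2) {r s d d' m' : ℤ} (hr : ¬ (p : ℤ) ∣ r) (hs : ¬ (p : ℤ) ∣ s)
    (hd : d = p * d') (hd' : ¬ (p : ℤ) ∣ d')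
    (hrs : legendreSym p (r * s) = 1) (h : legendreSym p (-m' * (r * d')) = 1) :
    LocSol p (r * d) (s * d) 1 (p * m') := by
  have hp1 : (1 : ℝ) < p := by exact_mod_cast hp.out.one_lt
  have hp0 : (p : ℚ_[p]) ≠ 0 := by exact_mod_cast hp.out.ne_zero
  have hpi : (p : ℝ)⁻¹ < 1 := inv_lt_one_of_one_lt₀ hp1
  have hpi0 : 0 < (p : ℝ)⁻¹ := by positivity
  obtain ⟨x, hx⟩ : ∃ x : ℚ_[p], x = (p : ℚ_[p]) ^ 2 * p ^ 2 := ⟨_, rfl⟩
  have hxn : ‖x‖ < (p : ℝ)⁻¹ := by
    rw [hx, norm_mul, norm_pow, Padic.norm_p]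
    calc ((p : ℝ)⁻¹) ^ 2 * (p : ℝ)⁻¹ ^ 2 = (p : ℝ)⁻¹ * ((p : ℝ)⁻¹) ^ 3 := by ring
      _ < (p : ℝ)⁻¹ * 1 := by
          apply mul_lt_mul_of_pos_left _ hpi0
          exact pow_lt_one₀ hpi0.le hpi (by norm_num)
      _ = _ := mul_one _
  have key : ∀ {q : ℤ}, ¬ (p : ℤ) ∣ q → ‖((q * d : ℤ) : ℚ_[p])‖ = (p : ℝ)⁻¹ := by
    intro q hq
    rw [hd]
    push_cast
    rw [norm_mul, norm_mul, unit_norm hq, unit_norm hd', Padic.norm_p, one_mul, mul_one]
  have near : ∀ {q : ℤ}, ¬ (p : ℤ) ∣ q → x - ((q * d : ℤ) : ℚ_[p]) ≠ 0 ∧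
      IsSquare (-((q * d : ℤ) : ℚ_[p]) * (x - ((q * d : ℤ) : ℚ_[p]))) := by
    intro q hq
    have h1 : -((q * d : ℤ) : ℚ_[p]) ≠ 0 := by
      rw [← norm_pos_iff, norm_neg, key hq]
      exact hpi0
    exact near_p hp2 h1 (by
      have e : -((q * d : ℤ) : ℚ_[p]) - (x - ((q * d : ℤ) : ℚ_[p])) = -x := by ring
      rw [e, norm_neg, norm_neg, key hq]
      exact hxn)
  obtain ⟨n1, z1, hz1⟩ := near hr
  obtain ⟨n2, z2, hz2⟩ := near hs
  obtain ⟨w, hw⟩ := sq_leg hp2 hrs
  obtain ⟨v, hv⟩ := sq_leg hp2 h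
  have hd0 : (d : ℚ_[p]) ≠ 0 := by
    have h1 := key hr
    rintro h0
    push_cast at h1
    rw [h0, mul_zero, norm_zero] at h1
    linarith
  have hr0 : (r : ℚ_[p]) ≠ 0 := by
    rw [← norm_pos_iff, unit_norm hr]
    exact one_pos
  have hs0 : (s : ℚ_[p]) ≠ 0 := by
    rw [← norm_pos_iff, unit_norm hs]
    exact one_pos
  have hw0 : w ≠ 0 := by
    rintro rfl
    rw [mul_zero] at hw
    push_cast at hw
    exact mul_ne_zero hr0 hs0 hw
  have hx0 : x ≠ 0 := by
    rw [hx]
    positivity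
  push_cast at hw hv hz1 hz2 n1 n2
  have hdd : (d : ℚ_[p]) = p * d' := by
    rw [hd]
    push_cast
    ring
  -- the square root of `(x - r d) (x - s d)`
  have hprod : (x - (r : ℚ_[p]) * d) * (x - s * d) = (z1 * z2 / (w * d)) ^ 2 := by
    rw [div_pow, eq_div_iff (pow_ne_zero 2 (mul_ne_zero hw0 hd0))]
    have e1 : (w * (d : ℚ_[p])) ^ 2 = (r * s) * d ^ 2 := by
      rw [hw]
      ring
    have e2 : (z1 * z2) ^ 2 = (z1 * z1) * (z2 * z2) := by ring
    rw [e1, e2, ← hz1, ← hz2]
    ring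
  refine locSol_of hp2 ⟨x, (p : ℚ_[p]) ^ 2 * (z1 * z2 / (w * d)), ?_, ?_, ⟨(p : ℚ_[p]) ^ 2, ?_⟩, ?_⟩
  · have h3 : z1 * z2 / (w * d) ≠ 0 := by
      intro h0
      rw [h0] at hprod
      exact mul_ne_zero n1 n2 (by rw [hprod]; ring)
    exact mul_ne_zero (pow_ne_zero 2 hp0) h3
  · push_cast
    rw [mul_pow, ← hprod, sub_zero, hx]
    ring
  · rw [Int.cast_one, mul_one, sub_zero, hx]
  · -- `(x - r d) m`
    have hv0 : (r : ℚ_[p]) * d ≠ 0 := mul_ne_zero hr0 hd0
    refine ⟨z1 * v * p / (r * d), ?_⟩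
    push_cast
    rw [div_mul_div_comm, eq_div_iff (mul_ne_zero hv0 hv0)]
    have e2 : z1 * v * p * (z1 * v * p) = (z1 * z1) * (v * v) * p ^ 2 := by ring
    rw [e2, ← hz1, ← hv, hdd]
    ring

end pad

variable {r s d : ℤ} {G Bd : Finset ℕ}

/-- the injection of the transposed kernel -/
theorem rec_le (h : Hyp r s d G Bd) (hfin : (SU (r * d) (s * d)).Finite) :
    (Kr (Gp r s G) G (fun p q => cq r d q p)).card ≤
      2 ^ Bd.card * 4 * su (r * d) (s * d) := by
  classical
  set 𝒦 := Kr (Gp r s G) G (fun p q => cq r d q p) with h𝒦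
  have hGpG : Gp r s G ⊆ G := filter_subset _ _
  set f : ℕ → (Bd → ℤˣ) × (ZMod 8)ˣ := fun p => (fun q => lu q.1 p, u8 p) with hf
  have h1 := cut ((Bd → ℤˣ) × (ZMod 8)ˣ) (fun m => Prod.ext (funext fun q => unit_sq (m.1 q))
    (u8_sq m.2)) 𝒦 (fun S hS T hT => kr_symm hS hT) f
  set KS := 𝒦.filter (fun S => ∏ p ∈ S, f p = 1) with hKS
  have hcM : Fintype.card ((Bd → ℤˣ) × (ZMod 8)ˣ) = 2 ^ Bd.card * 4 := by
    rw [Fintype.card_prod, card_u8, Fintype.card_fun, Fintype.card_coe]
    congr 2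
  rw [hcM] at h1
  refine h1.trans (Nat.mul_le_mul_left _ ?_)
  have hKS' : ∀ T ∈ KS, T ⊆ Gp r s G ∧ (∀ p ∈ G, ∏ q ∈ T, cq r d q p = 1) ∧
      (∀ q ∈ Bd, ∏ p ∈ T, lu q p = 1) ∧ ∏ p ∈ T, u8 p = 1 := by
    intro S hS
    rw [hKS, mem_filter, h𝒦] at hS
    obtain ⟨h2, h3⟩ := hS
    unfold Kr at h2
    rw [mem_filter, mem_powerset] at h2
    refine ⟨h2.1, h2.2, fun q hq => ?_, ?_⟩
    · have h4 := congrArg ((Pi.evalMonoidHom (fun _ : Bd => ℤˣ) ⟨q, hq⟩).comp
        (MonoidHom.fst (Bd → ℤˣ) (ZMod 8)ˣ)) h3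
      rw [map_prod, map_one] at h4
      exact h4
    · have h4 := congrArg (MonoidHom.snd (Bd → ℤˣ) (ZMod 8)ˣ) h3
      rw [map_prod, map_one] at h4
      exact h4
  unfold su
  have hmaps : Set.MapsTo (fun T : Finset ℕ => ((1 : ℤ), ((∏ p ∈ T, p : ℕ) : ℤ)))
      (KS : Set (Finset ℕ)) (SU (r * d) (s * d)) := by
    intro T hT
    obtain ⟨hTG, hcol, hbd, h8⟩ := hKS' T hT
    have hTG' : T ⊆ G := hTG.trans hGpG
    refine ⟨squarefree_one, prod_sqf h hTG', fun p hp hp2 => ?_⟩
    simp only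
    have hpi : Prime (p : ℤ) := Nat.prime_iff_prime_int.1 hp.out
    have hpodd : Odd p := hp.out.odd_of_ne_two hp2
    -- modulo `8`
    have hm8 : (∏ p ∈ T, p) % 8 = 1 := by
      have h3 : ((∏ p ∈ T, p : ℕ) : ZMod 8) = 1 := by
        have h4 := congrArg (fun u : (ZMod 8)ˣ => (u : ZMod 8)) h8
        simp only [Units.coe_prod, Units.val_one] at h4
        rw [← h4, Nat.cast_prod]
        refine prod_congr rfl fun p hp => ?_
        have h5 : Nat.Coprime p 8 := by
          have h6 : Nat.Coprime p 2 :=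
            (Nat.coprime_primes (h.hp p (hTG' hp)) Nat.prime_two).2 (h.h2 p (hTG' hp))
          exact Nat.Coprime.pow_right 3 h6
        unfold u8
        rw [dif_pos h5, ZMod.coe_unitOfCoprime]
      have h4 : ((∏ p ∈ T, p : ℕ) : ZMod 8) = ((1 : ℕ) : ZMod 8) := by
        rw [h3, Nat.cast_one]
      rw [ZMod.natCast_eq_natCast_iff] at h4
      exact h4
    have hm4 : (∏ p ∈ T, p) % 4 = 1 := by omega
    by_cases hpG : p ∈ G
    · by_cases hpT : p ∈ T
      · -- primes of `T`
        left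
        have hT' : T.erase p ⊆ G := (erase_subset _ _).trans hTG'
        obtain ⟨hr, hs, -⟩ := h.hG p hpG
        have hrs' : ¬ (p : ℤ) ∣ r * s := not_dvd3 hr hs
        have hl : legendreSym p (r * s) = 1 := by
          have h3 := hTG hpT
          unfold Gp at h3
          rw [mem_filter] at h3
          exact (lu_cast hrs').1 h3.2
        obtain ⟨d', hd'⟩ := (h.hGd p hpG).1
        have hdn : ¬ (p : ℤ) ∣ d' := by
          intro h2
          apply (h.hGd p hpG).2
          rw [hd', pow_two]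
          exact mul_dvd_mul_left _ h2
        have hp0 : (p : ℤ) ≠ 0 := by exact_mod_cast hp.out.ne_zero
        have hdq : d / p = d' := by
          rw [hd']
          exact Int.mul_ediv_cancel_left _ hp0
        obtain ⟨m', hm'⟩ : ∃ m', m' = ∏ q ∈ T.erase p, q := ⟨_, rfl⟩
        have hmm : ∏ q ∈ T, q = p * m' := by
          rw [hm']
          exact (mul_prod_erase T (fun q => q) hpT).symm
        have hmn : ¬ (p : ℤ) ∣ (m' : ℤ) := by
          rw [hm']
          exact not_dvd_prod h hT' hp.out (notMem_erase p T)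
        have h3 : ∀ q ∈ T.erase p, q.Prime ∧ ¬ (q : ℤ) ∣ (p : ℤ) := by
          intro q hq
          refine ⟨h.hp q (hT' hq), fun hd => ne_of_mem_erase hq ?_⟩
          have h5 : q ∣ p := by exact_mod_cast hd
          exact (Nat.prime_dvd_prime_iff_eq (h.hp q (hT' hq)) hp.out).1 h5
        have h4 : legendreSym p (r * d') * J((p : ℤ) | m') = 1 := by
          have h5 := congrArg (fun u : ℤˣ => (u : ℤ)) (hcol p hpG)
          rw [← mul_prod_erase T _ hpT] at h5
          simp only [Units.val_mul, Units.coe_prod, Units.val_one] at h5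
          rw [hm', jac_prod _ _ h3, ← h5]
          congr 1
          · unfold cq
            rw [if_pos rfl, hdq, lu_eq (not_dvd3 hr hdn)]
          · refine prod_congr rfl fun q hq => ?_
            unfold cq
            rw [if_neg (ne_of_mem_erase hq)]
        rw [hmm] at hm4 ⊢
        push_cast
        refine locSol_zero hp2 hr hs hd' hdn hl ?_
        have h6 : legendreSym p (-(m' : ℤ) * (r * d')) =
            legendreSym p (-1) * legendreSym p m' * legendreSym p (r * d') := by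
          rw [← legendreSym.mul, ← legendreSym.mul]
          congr 1
          ring
        rw [h6, legendreSym.at_neg_one hp2, jacobiSym.legendreSym.to_jacobiSym p (m' : ℤ)]
        rcases Nat.odd_mod_four_iff.1 (Nat.odd_iff.1 hpodd) with h7 | h7
        · have h8 : m' % 4 = 1 := by
            rw [Nat.mul_mod, h7] at hm4
            have := Nat.mod_lt m' (show 0 < 4 by norm_num)
            interval_cases h9 : m' % 4 <;> simp_all
          have h9 := jacobiSym.quadratic_reciprocity_one_mod_four h7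
            (Nat.odd_iff.2 (Nat.odd_of_mod_four_eq_one h8))
          rw [ZMod.χ₄_nat_one_mod_four h7, one_mul, ← h9, mul_comm]
          exact h4
        · have h8 : m' % 4 = 3 := by
            rw [Nat.mul_mod, h7] at hm4
            have := Nat.mod_lt m' (show 0 < 4 by norm_num)
            interval_cases h9 : m' % 4 <;> simp_all
          have h9 := jacobiSym.quadratic_reciprocity_three_mod_four h7 h8
          rw [ZMod.χ₄_nat_three_mod_four h7, neg_one_mul, ← h9, mul_comm]
          exact h4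
      · left
        apply locSol_one hp2
        apply sq_leg hp2
        have h3 : J((p : ℤ) | ∏ q ∈ T, q) = 1 := by
          rw [jac_prod]
          · have h4 := congrArg (fun u : ℤˣ => (u : ℤ)) (hcol p hpG)
            simp only [Units.coe_prod, Units.val_one] at h4
            rw [← h4]
            refine prod_congr rfl fun q hq => ?_
            have hne : q ≠ p := fun e => hpT (e ▸ hq)
            unfold cq
            rw [if_neg hne]
          · intro q hq
            refine ⟨h.hp q (hTG' hq), fun hd => hpT ?_⟩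
            have h5 : q ∣ p := by exact_mod_cast hd
            rw [← (Nat.prime_dvd_prime_iff_eq (h.hp q (hTG' hq)) hp.out).1 h5]
            exact hq
        rw [jacobiSym.legendreSym.to_jacobiSym, jacobiSym.quadratic_reciprocity_one_mod_four hm4 hpodd]
        exact h3
    · by_cases hpB : p ∈ Bd
      · left
        apply locSol_one hp2
        apply sq_leg hp2
        rw [leg_prod]
        have h4 := congrArg (fun u : ℤˣ => (u : ℤ)) (hbd p hpB)
        simp only [Units.coe_prod, Units.val_one] at h4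
        rw [← h4]
        refine prod_congr rfl fun q hq => ?_
        rw [lu_eq]
        intro hd
        have h5 : p ∣ q := by exact_mod_cast hd
        have h6 := (Nat.prime_dvd_prime_iff_eq hp.out (h.hp q (hTG' hq))).1 h5
        exact hpG (h6 ▸ hTG' hq)
      · right
        have h2 : ¬ (p : ℤ) ∣ r * s * (r - s) * d := fun h2 =>
          (h.hcov p hp.out hp2 h2).elim hpG hpB
        have h3 : ¬ (p : ℤ) ∣ r := fun h3 => h2 (((h3.mul_right _).mul_right _).mul_right _)
        have h4 : ¬ (p : ℤ) ∣ s := fun h3 => h2 (((h3.mul_left _).mul_right _).mul_right _)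
        have h5 : ¬ (p : ℤ) ∣ r - s := fun h3 => h2 ((h3.mul_left _).mul_right _)
        have h6 : ¬ (p : ℤ) ∣ d := fun h3 => h2 (h3.mul_left _)
        refine ⟨⟨?_, ?_, ?_⟩, hpi.not_dvd_one, not_dvd_prod h hTG' hp.out (fun h7 => hpG (hTG' h7))⟩
        · rw [padicValInt.eq_zero_of_not_dvd (not_dvd3 h3 h6),
            padicValInt.eq_zero_of_not_dvd (not_dvd3 h4 h6)]
        · have e : r * d - s * d = (r - s) * d := by ring
          rw [e, padicValInt.eq_zero_of_not_dvd (not_dvd3 h5 h6),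
            padicValInt.eq_zero_of_not_dvd (not_dvd3 h4 h6)]
        · rw [padicValInt.eq_zero_of_not_dvd (not_dvd3 h4 h6)]
          exact Even.zero
  have hinj : Set.InjOn (fun T : Finset ℕ => ((1 : ℤ), ((∏ p ∈ T, p : ℕ) : ℤ)))
      (KS : Set (Finset ℕ)) := by
    intro S hS T hT hST
    have hS' := (hKS' S hS).1.trans hGpG
    have hT' := (hKS' T hT).1.trans hGpG
    have hST' : ((∏ p ∈ S, p : ℕ) : ℤ) = ((∏ p ∈ T, p : ℕ) : ℤ) := congrArg Prod.snd hST
    ext q
    constructor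
    · intro hq
      by_contra hqT
      apply not_dvd_prod h hT' (h.hp q (hS' hq)) hqT
      rw [← hST']
      exact_mod_cast dvd_prod_of_mem (fun p => p) hq
    · intro hq
      by_contra hqT
      apply not_dvd_prod h hS' (h.hp q (hT' hq)) hqT
      rw [hST']
      exact_mod_cast dvd_prod_of_mem (fun p => p) hq
  have h5 := Set.ncard_le_ncard_of_injOn _ hmaps hinj hfin
  rwa [Set.ncard_coe_finset] at h5

end Pool.Agent.U409.GL
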