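import Pool.Agent.U409.GL.Fin

/-!
# The case of bounded groups
-/

set_option autoImplicit false

namespace Pool.Agent.U409.GL

open Finset Polynomial Filter Topology
open Pool.Agent.H474R2.PG (rho)
open Pool.Agent.U214.PT (Pg Sep pg_wt sep_sq)
open Pool.Agent.TH841.SH.D (ShaTor)
open Pool.Agent.U409.LS (om SS rt8 rt8_le lt_rt8 rt8_tendsto sq_count count_one lu PM WW scale QF)

open scoped Classical in
/-- the exceptional values are rare -/
theorem rare {G : ℤ[X]} {d z0 : ℕ} (hPg : Pg G d z0) (Q : ℤ → ℝ) (hQ0 : ∀ t, 0 ≤ Q t)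
    (hQ : ∃ C : ℝ, ∀ X : ℕ, 1 ≤ X → ∑ t ∈ Icc (-(X : ℤ)) X, Q t ≤ C * X)
    (Z : Finset ℤ) {δ : ℝ} (hδ : 0 < δ) :
    ∃ z T : ℕ, z0 ≤ z ∧ ∀ᶠ X : ℕ in atTop, (((Icc (-(X : ℤ)) X).filter (fun t => t ∈ Z ∨
      (T : ℝ) < Q t ∨ ∃ p : ℕ, p.Prime ∧ z < p ∧ p ≤ rt8 X ∧ (p : ℤ) ^ 2 ∣ G.eval t)).card : ℝ) ≤
      δ * (2 * X + 1) := by
  obtain ⟨CQ, hCQ⟩ := hQ
  have hIoc : ∀ X : ℕ, Ioc (-(X : ℤ) - 1) X = Icc (-(X : ℤ)) X := by
    intro X
    ext t
    rw [mem_Ioc, mem_Icc]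
    omega
  have hCQ0 : 0 ≤ CQ := by
    have h1 := hCQ 1 le_rfl
    have h2 : 0 ≤ ∑ t ∈ Icc (-((1 : ℕ) : ℤ)) (1 : ℕ), Q t := sum_nonneg fun t _ => hQ0 t
    have h3 := h2.trans h1
    simpa using h3
  obtain ⟨T, hT⟩ := exists_nat_ge (4 * CQ / δ + 1)
  obtain ⟨z1, hz1⟩ := exists_nat_ge (12 * d / δ)
  set z : ℕ := z0 + z1 + 1 with hz
  have hT0 : (0 : ℝ) < T := by
    have h1 : 0 ≤ 4 * CQ / δ := by positivity
    linarith
  have hTC : CQ ≤ δ / 4 * T := by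
    have h1 : 4 * CQ / δ ≤ T := by linarith
    rw [div_le_iff₀ hδ] at h1
    linarith
  have hzr : (12 * d : ℝ) ≤ z * δ := by
    have h1 : (12 * d / δ : ℝ) ≤ z := hz1.trans (by exact_mod_cast (by omega : z1 ≤ z))
    rwa [div_le_iff₀ hδ] at h1
  refine ⟨z, T, by omega, ?_⟩
  have hX : Tendsto (fun X : ℕ => (X : ℝ)) atTop atTop := tendsto_natCast_atTop_atTop
  have hy : Tendsto (fun X : ℕ => (rt8 X : ℝ)) atTop atTop :=
    tendsto_natCast_atTop_atTop.comp rt8_tendsto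
  filter_upwards [hX.eventually_ge_atTop (4 * Z.card / δ),
    rt8_tendsto.eventually (eventually_ge_atTop (z + 3)),
    hy.eventually_ge_atTop (8 * d / δ), eventually_ge_atTop 1] with X e4 e5 e6 e7
  have hXr : (1 : ℝ) ≤ X := by exact_mod_cast e7
  have hyr : (1 : ℝ) ≤ rt8 X := by exact_mod_cast (by omega : 1 ≤ rt8 X)
  have hyXr : (rt8 X : ℝ) ^ 8 ≤ X := by exact_mod_cast rt8_le X
  set E1 := (Icc (-(X : ℤ)) X).filter (fun t => (T : ℝ) < Q t) with hE1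
  set E2 := (Ioc (-(X : ℤ) - 1) X).filter (fun t : ℤ => ∃ p : ℕ, p.Prime ∧ z < p ∧ p ≤ rt8 X ∧
      (p : ℤ) ^ 2 ∣ G.eval t) with hE2
  have c1 : (E1.card : ℝ) ≤ δ / 4 * X := by
    have h1 := hCQ X e7
    have h2 : (E1.card : ℝ) * T ≤ CQ * X := by
      refine le_trans ?_ h1
      rw [← nsmul_eq_mul, ← sum_const]
      refine (sum_le_sum fun t ht => ?_).trans
        (sum_le_sum_of_subset_of_nonneg (filter_subset _ _) fun t _ _ => hQ0 t)
      exact (mem_filter.1 ht).2.le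
    have h3 : (E1.card : ℝ) * T ≤ (δ / 4 * X) * T := by
      refine h2.trans ?_
      calc CQ * X ≤ (δ / 4 * T) * X := mul_le_mul_of_nonneg_right hTC (by linarith)
        _ = _ := by ring
    exact le_of_mul_le_mul_right h3 hT0
  have c2 : (E2.card : ℝ) ≤ 3 * δ / 8 * X := by
    have h1 := sq_count G (y := rt8 X) hPg (by omega : z0 ≤ z) (by omega) (by omega)
      (-(X : ℤ) - 1) X (by omega)
    refine h1.trans ?_
    have hz0r : (0 : ℝ) < z := by exact_mod_cast (by omega : 0 < z)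
    have hLen : (((X : ℤ) : ℝ) - ((-(X : ℤ) - 1 : ℤ) : ℝ)) ≤ 3 * X := by
      push_cast
      linarith
    have h2 : (d : ℝ) * ((((X : ℤ) : ℝ) - ((-(X : ℤ) - 1 : ℤ) : ℝ)) / z) ≤ δ / 4 * X := by
      rw [mul_div_assoc', div_le_iff₀ hz0r]
      have h3 : (d : ℝ) * (((X : ℤ) : ℝ) - ((-(X : ℤ) - 1 : ℤ) : ℝ)) ≤ d * (3 * X) :=
        mul_le_mul_of_nonneg_left hLen (Nat.cast_nonneg _)
      have h4 : (12 * (d : ℝ)) * X ≤ (z * δ) * X := mul_le_mul_of_nonneg_right hzr (by linarith)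
      linarith
    have h3 : (d : ℝ) * rt8 X ≤ δ / 8 * X := by
      rw [div_le_iff₀ hδ] at e6
      have h5 : (rt8 X : ℝ) ^ 2 ≤ X := by
        refine le_trans ?_ hyXr
        exact pow_le_pow_right₀ hyr (by norm_num)
      have h6 : 8 * (d : ℝ) * rt8 X ≤ rt8 X * δ * rt8 X :=
        mul_le_mul_of_nonneg_right e6 (by linarith)
      have h7 : δ / 8 * (rt8 X : ℝ) ^ 2 ≤ δ / 8 * X := mul_le_mul_of_nonneg_left h5 (by linarith)
      linarith
    have h4 : (d : ℝ) * ((((X : ℤ) : ℝ) - ((-(X : ℤ) - 1 : ℤ) : ℝ)) / z + rt8 X) =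
        (d : ℝ) * ((((X : ℤ) : ℝ) - ((-(X : ℤ) - 1 : ℤ) : ℝ)) / z) + d * rt8 X := by ring
    rw [h4]
    linarith
  have c3 : (Z.card : ℝ) ≤ δ / 4 * X := by
    rw [div_le_iff₀ hδ] at e4
    linarith
  set E0 := (Icc (-(X : ℤ)) X).filter (fun t => t ∈ Z ∨ (T : ℝ) < Q t ∨
    ∃ p : ℕ, p.Prime ∧ z < p ∧ p ≤ rt8 X ∧ (p : ℤ) ^ 2 ∣ G.eval t) with hE0
  have hsub : E0 ⊆ E1 ∪ (E2 ∪ Z) := by
    intro t ht
    rw [hE0, mem_filter] at ht
    obtain ⟨htI, ht⟩ := ht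
    rw [mem_union, mem_union]
    rcases ht with h | h | h
    · exact Or.inr (Or.inr h)
    · exact Or.inl (mem_filter.2 ⟨htI, h⟩)
    · exact Or.inr (Or.inl (mem_filter.2 ⟨by rw [hIoc]; exact htI, h⟩))
  have h1 : (E0.card : ℝ) ≤ E1.card + (E2.card + Z.card) := by
    have h2 := card_le_card hsub
    have h3 := card_union_le E1 (E2 ∪ Z)
    have h4 := card_union_le E2 Z
    have h5 : E0.card ≤ E1.card + (E2.card + Z.card) := by omega
    exact_mod_cast h5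
  have h2 : (0 : ℝ) ≤ δ * X := by positivity
  linarith

open scoped Classical in
/-- few values with many prime divisors from a small set -/
theorem few_om {f : ℤ[X]} {d z : ℕ} (hrho : ∀ p : ℕ, p.Prime → z < p → rho f p ≤ d)
    (pr : ℕ → Prop) {C : ℝ} (hM : ∀ y : ℕ, 3 ≤ y → SS f (QQ pr z y) ≤ C) {δ : ℝ} (hδ : 0 < δ) :
    ∃ T : ℕ, ∀ᶠ X : ℕ in atTop, (((Icc (-(X : ℤ)) X).filter (fun t =>
      T < om f (QQ pr z (rt8 X)) t)).card : ℝ) ≤ δ * (2 * X + 1) := by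
  obtain ⟨T, hT⟩ := exists_nat_ge ((|C| + 1) / δ)
  refine ⟨T, ?_⟩
  rw [div_le_iff₀ hδ] at hT
  filter_upwards [eventually_ge_atTop 1, rt8_tendsto.eventually (eventually_ge_atTop (d + 3))]
    with X hX hy
  have hIoc : Ioc (-(X : ℤ) - 1) X = Icc (-(X : ℤ)) X := by
    ext t
    rw [mem_Ioc, mem_Icc]
    omega
  have hXr : (1 : ℝ) ≤ X := by exact_mod_cast hX
  have hX8 : (rt8 X : ℝ) ^ 8 ≤ X := by exact_mod_cast rt8_le X
  set P := QQ pr z (rt8 X) with hP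
  have h3 : ∑ t ∈ Icc (-(X : ℤ)) X, (om f P t : ℝ) ≤
      (2 * X + 1) * SS f P + ∑ p ∈ P, (rho f p : ℝ) := by
    have h4 : ∀ t, (om f P t : ℝ) = ∑ p ∈ P, (if (p : ℤ) ∣ f.eval t then (1 : ℝ) else 0) := by
      intro t
      unfold om
      rw [card_filter]
      push_cast
      rfl
    rw [sum_congr rfl (fun t _ => h4 t), sum_comm]
    unfold SS
    rw [mul_sum, ← sum_add_distrib]
    refine sum_le_sum fun p hp => ?_
    have hpp : p.Prime := (mem_QQ.1 hp).2.1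
    have h5 := (abs_le.1 (count_one f (-(X : ℤ) - 1) X (by omega) hpp)).2
    have h6 : ∑ t ∈ Icc (-(X : ℤ)) X, (if (p : ℤ) ∣ f.eval t then (1 : ℝ) else 0) =
        (((Ioc (-(X : ℤ) - 1) X).filter (fun t : ℤ => (p : ℤ) ∣ f.eval t)).card : ℝ) := by
      rw [card_filter, hIoc]
      push_cast
      rfl
    rw [h6]
    push_cast at h5 ⊢
    have h7 : (X : ℝ) - (-X - 1) = 2 * X + 1 := by ring
    rw [h7] at h5
    linarith
  have h4 : ∑ p ∈ P, (rho f p : ℝ) ≤ 2 * X + 1 := by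
    have h7 := sum_rho_le hrho pr (rt8 X)
    have h8 : (d : ℝ) * rt8 X ≤ (rt8 X : ℝ) ^ 8 := by
      have h9 : (d : ℝ) ≤ rt8 X := by exact_mod_cast (by omega : d ≤ rt8 X)
      have h10 : (1 : ℝ) ≤ rt8 X := by exact_mod_cast (by omega : 1 ≤ rt8 X)
      calc (d : ℝ) * rt8 X ≤ (rt8 X : ℝ) * rt8 X :=
            mul_le_mul_of_nonneg_right h9 (by linarith)
        _ = (rt8 X : ℝ) ^ 2 := by ring
        _ ≤ _ := pow_le_pow_right₀ h10 (by norm_num)
    linarith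
  have h5 : SS f P ≤ |C| := (hM _ (by omega)).trans (le_abs_self C)
  set F := (Icc (-(X : ℤ)) X).filter (fun t => T < om f P t) with hF
  have h6 : (F.card : ℝ) * T ≤ ∑ t ∈ Icc (-(X : ℤ)) X, (om f P t : ℝ) := by
    rw [← nsmul_eq_mul, ← sum_const]
    refine (sum_le_sum fun t ht => ?_).trans
      (sum_le_sum_of_subset_of_nonneg (filter_subset _ _) fun t _ _ => Nat.cast_nonneg _)
    exact_mod_cast (mem_filter.1 ht).2.le
  have hp : (0 : ℝ) < 2 * X + 1 := by positivity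
  have hT0 : (0 : ℝ) < T := by
    have h7 : 0 < |C| + 1 := by positivity
    by_contra hcon
    have h8 : (T : ℝ) * δ ≤ 0 := mul_nonpos_of_nonpos_of_nonneg (not_lt.1 hcon) hδ.le
    linarith
  have h7 : (F.card : ℝ) * T ≤ (δ * (2 * X + 1)) * T := by
    have h8 := mul_le_mul_of_nonneg_left h5 hp.le
    have h9 := mul_le_mul_of_nonneg_left hT hp.le
    calc (F.card : ℝ) * T ≤ (2 * X + 1) * (|C| + 1) := by linarith
      _ ≤ (2 * X + 1) * (T * δ) := h9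
      _ = _ := by ring
  exact le_of_mul_le_mul_right h7 hT0

open scoped Classical in
/-- **the groups are bounded in probability when all the factors split** -/
theorem tight_sha {r s : ℤ} (hr : r ≠ 0) (hs : s ≠ 0) (hrs : r ≠ s)
    (hn : ∀ q : ℚ, q ^ 2 ≠ ((r * s : ℤ) : ℚ)) {D : ℤ[X]} (hD : D ≠ 0)
    (hcpl : ∀ f : ℤ[X], Irreducible f → 0 < f.natDegree → Odd (multiplicity f D) →
      ¬ Irreducible (f.map (Int.castRingHom (QF (r * s))))) {ε : ℝ} (hε : 0 < ε) :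
    ∃ T : ℕ, ∀ᶠ X : ℕ in atTop, (((Icc (-(X : ℤ)) X).filter (fun t => D.eval t ≠ 0 ∧
      T < Nat.card (ShaTor (WW r s (D.eval t)) 2))).card : ℝ) ≤ ε * (2 * X + 1) := by
  obtain ⟨c, g, G, hc, hg, hG, hsep, hcg⟩ := sep_sq D.natDegree D rfl hD
  have hval : ∀ t : ℤ, D.eval t ≠ 0 → G.eval t ≠ 0 ∧
      Nat.card (ShaTor (WW r s (D.eval t)) 2) = Nat.card (ShaTor (WW r s (G.eval t)) 2) := by
    intro t hDt
    have h2 := congrArg (eval t) hcg
    rw [eval_mul, eval_mul, eval_C, eval_pow] at h2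
    have hcD : c ^ 2 * D.eval t ≠ 0 := mul_ne_zero (pow_ne_zero 2 hc) hDt
    have hGt : G.eval t ≠ 0 := by
      intro h0
      rw [h0, mul_zero] at h2
      exact hcD h2
    have hgt : g.eval t ≠ 0 := by
      intro h0
      rw [h0] at h2
      exact hcD (by rw [h2]; ring)
    have hsc : ENat.card (ShaTor (WW r s (D.eval t)) 2) =
        ENat.card (ShaTor (WW r s (G.eval t)) 2) := by
      rw [← scale hr hs hrs hDt hc, h2, scale hr hs hrs hGt hgt]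
    have f1 := fin_sha hr hs hrs hDt
    have f2 := fin_sha hr hs hrs hGt
    rw [ENat.card_eq_coe_natCard, ENat.card_eq_coe_natCard] at hsc
    exact ⟨hGt, by exact_mod_cast hsc⟩
  rcases Nat.eq_zero_or_pos G.natDegree with hGd | hGd
  · -- the constant case
    obtain ⟨k, rfl⟩ := natDegree_eq_zero.1 hGd
    refine ⟨Nat.card (ShaTor (WW r s k) 2), Eventually.of_forall fun X => ?_⟩
    have h1 : (Icc (-(X : ℤ)) X).filter (fun t => D.eval t ≠ 0 ∧
        Nat.card (ShaTor (WW r s k) 2) < Nat.card (ShaTor (WW r s (D.eval t)) 2)) = ∅ := by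
      rw [filter_eq_empty_iff]
      rintro t - ⟨ht, hlt⟩
      rw [(hval t ht).2, eval_C] at hlt
      exact lt_irrefl _ hlt
    rw [h1, card_empty, Nat.cast_zero]
    positivity
  obtain ⟨C2, hC2⟩ := mert_up hn hD hc hg hG hsep hcg ∅
    (fun f hf => absurd hf (notMem_empty f)) (fun f h1 h2 h3 h4 => absurd h4 (hcpl f h1 h2 h3))
  obtain ⟨z1, -, -, hPg1, -, -⟩ := pg_wt hsep hGd
  obtain ⟨K, hK1, hK⟩ := Pool.Agent.H474R2.GE.eval_bound G
  set n : ℤ := r * s with hnd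
  set z0 : ℕ := z1 + 2 + r.natAbs + s.natAbs with hz0
  have hPg : Pg G G.natDegree z0 := Pg.mono hPg1 (by omega)
  have hzp : ∀ z : ℕ, z0 ≤ z → ∀ p : ℕ, p.Prime → z < p → p ≠ 2 ∧ ¬ (p : ℤ) ∣ r ∧ ¬ (p : ℤ) ∣ s ∧
      ¬ (p : ℤ) ∣ r - s := by
    intro z hz p hp hzp
    have hnd : ∀ m : ℤ, m ≠ 0 → m.natAbs ≤ r.natAbs + s.natAbs → ¬ (p : ℤ) ∣ m := by
      intro m hm hle h
      have := Nat.le_of_dvd (Int.natAbs_pos.2 hm) (Int.natCast_dvd.1 h)
      omega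
    exact ⟨by omega, hnd r hr (by omega), hnd s hs (by omega),
      hnd (r - s) (sub_ne_zero.2 hrs) (Int.natAbs_sub_le r s)⟩
  have hM : ∀ z y : ℕ, 3 ≤ y → SS G (QQ (fun p => ¬ lu p n = 1) z y) ≤ C2 := by
    intro z y hy
    have h1 := (SS_QQ G n z y).1
    have h2 := hC2 y hy
    rw [card_empty, Nat.cast_zero, zero_div, zero_mul, zero_add] at h2
    exact h1.trans h2
  set Q : ℤ → ℝ := fun t => (su (r * G.eval t) (s * G.eval t) : ℝ) with hQ
  have hQ0 : ∀ t, 0 ≤ Q t := fun t => Nat.cast_nonneg _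
  have hQm : ∃ C : ℝ, ∀ X : ℕ, 1 ≤ X → ∑ t ∈ Icc (-(X : ℤ)) X, Q t ≤ C * X := by
    obtain ⟨C4, hC4⟩ := su_all hG hr hs hrs 1
    refine ⟨C4, fun X hX => ?_⟩
    have h2 := hC4 X hX
    simp only [pow_one] at h2
    exact h2
  obtain ⟨z, T1, hz, hE⟩ := rare hPg Q hQ0 hQm ∅ (show 0 < ε / 2 by positivity)
  obtain ⟨T2, hF⟩ := few_om (f := G) (d := G.natDegree) (z := z)
    (fun p hp hzp => hPg.rho p hp (by omega)) (fun p => ¬ lu p n = 1) (fun y hy => hM z y hy)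
    (show 0 < ε / 2 by positivity)
  set e := G.natDegree + 1 with he
  refine ⟨16 * 4 ^ (z + 8 * e) * 2 ^ T2 * T1 ^ 2, ?_⟩
  filter_upwards [hE, hF, eventually_ge_atTop 1,
    (tendsto_natCast_atTop_atTop (R := ℝ)).eventually_ge_atTop K] with X e1 e2 hX1 hXK
  have hXr : (1 : ℝ) ≤ X := by exact_mod_cast hX1
  set F1 := (Icc (-(X : ℤ)) X).filter (fun t => t ∈ (∅ : Finset ℤ) ∨
      (T1 : ℝ) < Q t ∨ ∃ p : ℕ, p.Prime ∧ z < p ∧ p ≤ rt8 X ∧ (p : ℤ) ^ 2 ∣ G.eval t) with hF1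
  set F2 := (Icc (-(X : ℤ)) X).filter (fun t =>
      T2 < om G (QQ (fun p => ¬ lu p n = 1) z (rt8 X)) t) with hF2
  have hsub : (Icc (-(X : ℤ)) X).filter (fun t => D.eval t ≠ 0 ∧
      16 * 4 ^ (z + 8 * e) * 2 ^ T2 * T1 ^ 2 < Nat.card (ShaTor (WW r s (D.eval t)) 2)) ⊆
      F1 ∪ F2 := by
    intro t ht
    rw [mem_filter] at ht
    obtain ⟨htI, hDt, hlt⟩ := ht
    rw [mem_union]
    by_contra hcon
    push Not at hcon
    obtain ⟨n1, n2⟩ := hcon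
    rw [hF1, mem_filter, not_and] at n1
    rw [hF2, mem_filter, not_and] at n2
    have n1' := n1 htI
    have n2' := not_lt.1 (n2 htI)
    push Not at n1'
    obtain ⟨-, n3, n4⟩ := n1'
    obtain ⟨hGt, hcard⟩ := hval t hDt
    have hF : (G.eval t).natAbs ≤ X ^ e := by
      have h1 := hK t X hXr (by
        rw [mem_Icc] at htI
        rw [abs_le]
        constructor
        · exact_mod_cast htI.1
        · exact_mod_cast htI.2)
      have h3 : (((G.eval t).natAbs : ℕ) : ℝ) ≤ (X : ℝ) ^ e := by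
        rw [Nat.cast_natAbs, Int.cast_abs]
        refine h1.trans ?_
        rw [he, pow_succ, mul_comm ((X : ℝ) ^ G.natDegree)]
        exact mul_le_mul_of_nonneg_right hXK (by positivity)
      exact_mod_cast h3
    obtain ⟨-, hup⟩ := upone hr hs hrs (hzp z hz) hGt hF (by omega) (lt_rt8 X)
      (fun ⟨p, hp1, hp2, hp3, hp4⟩ => n4 p hp1 hp2 hp3 hp4)
    rw [hcard] at hlt
    rw [QQ_PM] at n2'
    have h5 : su (r * G.eval t) (s * G.eval t) ≤ T1 := by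
      have h6 : (su (r * G.eval t) (s * G.eval t) : ℝ) ≤ T1 := n3
      exact_mod_cast h6
    have h6 : 16 * 4 ^ (z + 8 * e) * 2 ^ (om G (PM n (rt8 X) \ PM n z) t) *
        su (r * G.eval t) (s * G.eval t) ^ 2 ≤ 16 * 4 ^ (z + 8 * e) * 2 ^ T2 * T1 ^ 2 := by
      apply Nat.mul_le_mul
      · exact Nat.mul_le_mul_left _ (Nat.pow_le_pow_right (by norm_num) n2')
      · exact Nat.pow_le_pow_left h5 2
    exact absurd (hlt.trans_le (hup.trans h6)) (lt_irrefl _)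
  have h1 := (card_le_card hsub).trans (card_union_le _ _)
  have h2 : (((Icc (-(X : ℤ)) X).filter (fun t => D.eval t ≠ 0 ∧
      16 * 4 ^ (z + 8 * e) * 2 ^ T2 * T1 ^ 2 <
        Nat.card (ShaTor (WW r s (D.eval t)) 2))).card : ℝ) ≤ F1.card + F2.card := by
    exact_mod_cast h1
  linarith

end Pool.Agent.U409.GL
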